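import Pool.Agent.C78.Upper

/-!
# C78/Alt: circuits with unbounded OR gates and few NOT and MOD gates on every path
-/

namespace C78

open Finset

variable {n : ℕ}

/-- NOT or `MOD_m` gate over `V` (unbounded fan-in). -/
def GNM (m : ℕ) (V : Finset (BF n)) (a : BF n) : Prop :=
  (∃ b ∈ V, a = gNot b) ∨ (∃ l : List (BF n), (∀ b ∈ l, b ∈ V) ∧ a = gMod m l)

/-- OR gate of any fan-in or AND gate of fan-in at most 2 over `V`. -/
def GOA (V : Finset (BF n)) (a : BF n) : Prop :=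
  ∃ l : List (BF n), (∀ b ∈ l, b ∈ V) ∧ (a = gOr l ∨ (a = gAnd l ∧ l.length ≤ 2))

/-- `g` is computed by a circuit of depth at most `D` and size at most `S` with OR gates and
`MOD_m` gates of any fan-in, AND gates of fan-in at most 2 and NOT gates, in which every path
contains at most `t` NOT and `MOD_m` gates.  `W i j` = functions computed at depth at most `j` with
at most `i` NOT and `MOD_m` gates on every path. -/
def AltC (m t D S : ℕ) (g : BF n) : Prop :=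
  ∃ W : ℕ → ℕ → Finset (BF n),
    (∀ i i' j j', i ≤ i' → j ≤ j' → W i j ⊆ W i' j') ∧
    (∀ i, ∀ a ∈ W i 0, IsVar a) ∧
    (∀ i j, ∀ a ∈ W i (j + 1), a ∈ W i j ∨ GOA (W i j) a ∨
      ∃ i', i = i' + 1 ∧ GNM m (W i' j) a) ∧
    (W t D).card ≤ S ∧ g ∈ W t D

theorem GNM.toG2 {m : ℕ} {V V' : Finset (BF n)} (h : V ⊆ V') {a : BF n} (ha : GNM m V a) :
    G2 m V' a := by
  rcases ha with ⟨b, hb, rfl⟩ | ⟨l, hl, rfl⟩
  · exact Or.inl ⟨b, h hb, rfl⟩
  · exact Or.inr (Or.inr ⟨l, fun b hb => h (hl b hb), rfl⟩)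

theorem calc_of_AltC {m t D S : ℕ} {g : BF n} (h : AltC m t D S g) :
    Calc m (D + t * (lg S + 2) + 1) S g := by
  classical
  obtain ⟨W, hW, hW0, hWs, hWn, hg⟩ := h
  set w := lg S with hw
  let τ : ℕ → ℕ → ℕ := fun i j => j + i * (w + 2) + 1
  have hτ : ∀ i j, τ i j = j + i * (w + 2) + 1 := fun i j => rfl
  have hτ1 : ∀ i j, τ i (j + 1) = τ i j + 1 := by
    intro i j; rw [hτ, hτ]; ring
  have hτ2 : ∀ i j, τ (i + 1) j = τ i j + (w + 2) := by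
    intro i j; rw [hτ, hτ]; ring
  let M : ℕ → Finset (BF n) := fun T => (W t D).filter
    (fun a => ∃ i j, i ≤ t ∧ j ≤ D ∧ τ i j ≤ T ∧ a ∈ W i j)
  let P : ℕ → Finset (BF n) := fun T => (W t D).filter
    (fun a => IsVar a ∨ (∃ i j, i ≤ t ∧ j ≤ D ∧ τ i j + w ≤ T ∧ a ∈ W i j) ∨
      (∃ i j, i < t ∧ j < D ∧ τ i j + w + 1 ≤ T ∧ a ∈ W (i + 1) (j + 1) ∧ GNM m (W i j) a))
  have hM : ∀ T a, a ∈ M T ↔ a ∈ W t D ∧ ∃ i j, i ≤ t ∧ j ≤ D ∧ τ i j ≤ T ∧ a ∈ W i j := by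
    intro T a; exact Finset.mem_filter
  have hP : ∀ T a, a ∈ P T ↔ a ∈ W t D ∧ (IsVar a ∨
      (∃ i j, i ≤ t ∧ j ≤ D ∧ τ i j + w ≤ T ∧ a ∈ W i j) ∨
      (∃ i j, i < t ∧ j < D ∧ τ i j + w + 1 ≤ T ∧ a ∈ W (i + 1) (j + 1) ∧ GNM m (W i j) a)) := by
    intro T a; exact Finset.mem_filter
  refine ⟨P, M, fun _ => ∅, ⟨?_, ?_, fun _ _ _ => subset_refl _, ?_, ?_, rfl, ?_, ?_, ?_⟩, ?_, ?_⟩
  · intro T T' hT a ha
    rw [hP] at ha ⊢
    refine ⟨ha.1, ?_⟩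
    rcases ha.2 with h | ⟨i, j, h1, h2, h3, h4⟩ | ⟨i, j, h1, h2, h3, h4⟩
    · exact Or.inl h
    · exact Or.inr (Or.inl ⟨i, j, h1, h2, h3.trans hT, h4⟩)
    · exact Or.inr (Or.inr ⟨i, j, h1, h2, h3.trans hT, h4⟩)
  · intro T T' hT a ha
    rw [hM] at ha ⊢
    obtain ⟨h0, i, j, h1, h2, h3, h4⟩ := ha
    exact ⟨h0, i, j, h1, h2, h3.trans hT, h4⟩
  · intro a ha
    rw [hP] at ha
    rcases ha.2 with h | ⟨i, j, h1, h2, h3, h4⟩ | ⟨i, j, h1, h2, h3, h4⟩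
    · exact h
    · rw [hτ] at h3; omega
    · rw [hτ] at h3; omega
  · ext a
    rw [hM]
    simp only [Finset.notMem_empty, iff_false]
    rintro ⟨_, i, j, _, _, h3, _⟩
    rw [hτ] at h3
    omega
  · -- rule for `P`
    intro T a ha
    rw [hP] at ha
    obtain ⟨h0, h | ⟨i, j, h1, h2, h3, h4⟩ | ⟨i, j, h1, h2, h3, h4, h5⟩⟩ := ha
    · exact Or.inl ((hP T a).2 ⟨h0, Or.inl h⟩)
    · exact Or.inr (Or.inr ⟨τ i j, h3, Or.inl ((hM _ a).2 ⟨h0, i, j, h1, h2, le_rfl, h4⟩)⟩)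
    · refine Or.inr (Or.inl (h5.toG2 ?_))
      intro b hb
      exact (hP T b).2 ⟨hW i t j D h1.le h2.le hb,
        Or.inr (Or.inl ⟨i, j, h1.le, h2.le, by omega, hb⟩)⟩
  · -- rule for `M`
    intro T a ha
    rw [hM] at ha
    obtain ⟨h0, i, j, h1, h2, h3, h4⟩ := ha
    rcases Nat.lt_or_ge T (τ i j) with h5 | h5
    · have h6 : τ i j = T + 1 := by omega
      rcases j with _ | j
      · -- a variable
        exact Or.inr (Or.inl ((hP T a).2 ⟨h0, Or.inl (hW0 i a h4)⟩))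
      · have h7 : τ i j = T := by have := hτ1 i j; omega
        rcases hWs i j a h4 with h | ⟨l, hl, h⟩ | ⟨i', rfl, h⟩
        · exact Or.inl ((hM T a).2 ⟨h0, i, j, h1, by omega, h7.le, h⟩)
        · refine Or.inr (Or.inr ⟨l, fun b hb => ?_, h⟩)
          exact (hM T b).2 ⟨hW i t j D h1 (by omega) (hl b hb), i, j, h1, by omega, h7.le, hl b hb⟩
        · refine Or.inr (Or.inl ((hP T a).2 ⟨h0, Or.inr (Or.inr
            ⟨i', j, by omega, by omega, ?_, h4, h⟩)⟩))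
          have := hτ2 i' j
          omega
    · exact Or.inl ((hM T a).2 ⟨h0, i, j, h1, h2, h5, h4⟩)
  · intro T a ha
    exact absurd ha (Finset.notMem_empty _)
  · refine le_trans (Finset.card_le_card ?_) hWn
    intro a ha
    rw [Finset.union_empty] at ha
    rcases Finset.mem_union.1 ha with h | h
    · exact ((hP _ a).1 h).1
    · exact ((hM _ a).1 h).1
  · refine Finset.mem_union_left _ (Finset.mem_union_right _ ?_)
    exact (hM _ g).2 ⟨hg, t, D, le_rfl, le_rfl, le_rfl, hg⟩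

end C78
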