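import Mathlib

/-!
# C78/Binom: binomial sums just above the middle

* `central_sq`: `(centralBinom k)^2 * (3k+1) ≤ 16^k`: induction on `k` with
  `Nat.succ_mul_centralBinom_succ : (k+1) * centralBinom (k+1) = 2 * (2k+1) * centralBinom k`:
  `(k+1)^2 B'^2 (3k+4) = 4 (2k+1)^2 B^2 (3k+4)` and `4 (2k+1)^2 (3k+4) ≤ 16 (k+1)^2 (3k+1)`
  (difference `16(k+1)^2(3k+1) - 4(2k+1)^2(3k+4) = 4k ≥ 0`).
* `choose_mid`: for every `N` and `i`, `(N.choose i)^2 * (N + 1) ≤ 4 * 4 ^ N`... from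
  `Nat.choose_le_middle` and, for `N = 2k`, `central_sq` (`N + 1 = 2k+1 ≤ 3k+1`); for `N = 2k+1`,
  `N.choose k ≤ centralBinom (k+1) / 2`, or simply `N.choose i ≤ 2 * centralBinom k`
  (`Nat.choose_succ_succ` and `Nat.choose_le_centralBinom`), and `4 B^2 (2k + 2) ≤ 4 * 4^(2k) * 2
  ≤ 4 * 4 ^ (2k+1)` since `2k+2 ≤ 2 (3k + 1)`.
* `sum_half`: `∑_{i ≤ N/2 + d} C(N,i) ≤ 2^N / 2 + (d + 1) * M` where `M = max C(N, i)`: the sum over
  `i < (N+1)/2` (i.e. `2 i < N`) is at most `2^N / 2` by the symmetry `i ↦ N - i`; the remaining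
  indices `i ∈ [(N+1)/2, N/2 + d]` are at most `d + 1` many.  So `2 * ∑ ≤ 2^N + 2 (d+1) M`.
* `final`: with `(d+1)^2 * 400 ≤ N` : `M ≤ 2 * 2^N / √(N+1)`, `2(d+1) M ≤ 4 (d+1)/√(N+1) 2^N ≤
  (1/5) 2^N`.  In squares: `(10 (d+1) M)^2 = 100 (d+1)^2 M^2 ≤ (N/4) M^2 ≤ 4^N`, so
  `10 (d+1) M ≤ 2 ^ N` and `2 (d+1) M ≤ 2^N / 5`.
-/

namespace C78

open Finset

theorem central_sq (k : ℕ) : (Nat.centralBinom k) ^ 2 * (3 * k + 1) ≤ 16 ^ k := by
  induction k with
  | zero => simp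
  | succ k ih =>
    have h1 := Nat.succ_mul_centralBinom_succ k
    have h2 : ((k + 1) ^ 2) * ((Nat.centralBinom (k + 1)) ^ 2 * (3 * (k + 1) + 1)) ≤
        ((k + 1) ^ 2) * 16 ^ (k + 1) := by
      calc ((k + 1) ^ 2) * ((Nat.centralBinom (k + 1)) ^ 2 * (3 * (k + 1) + 1))
          = ((k + 1) * Nat.centralBinom (k + 1)) ^ 2 * (3 * k + 4) := by ring
        _ = (2 * (2 * k + 1) * Nat.centralBinom k) ^ 2 * (3 * k + 4) := by rw [h1]
        _ = (4 * (2 * k + 1) ^ 2 * (3 * k + 4)) * (Nat.centralBinom k) ^ 2 := by ring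
        _ ≤ (16 * (k + 1) ^ 2 * (3 * k + 1)) * (Nat.centralBinom k) ^ 2 := by
            refine Nat.mul_le_mul_right _ ?_
            nlinarith
        _ = 16 * (k + 1) ^ 2 * ((Nat.centralBinom k) ^ 2 * (3 * k + 1)) := by ring
        _ ≤ 16 * (k + 1) ^ 2 * 16 ^ k := Nat.mul_le_mul_left _ ih
        _ = ((k + 1) ^ 2) * 16 ^ (k + 1) := by ring
    exact Nat.le_of_mul_le_mul_left h2 (by positivity)

theorem choose_mid (N i : ℕ) : (N.choose i) ^ 2 * (N + 1) ≤ 4 * 4 ^ N := by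
  rcases Nat.even_or_odd' N with ⟨k, rfl | rfl⟩
  · have h1 := Nat.choose_le_centralBinom i k
    have h2 := central_sq k
    have h3 : (4 : ℕ) ^ (2 * k) = 16 ^ k := by rw [pow_mul]; norm_num
    rw [h3]
    calc ((2 * k).choose i) ^ 2 * (2 * k + 1)
        ≤ (Nat.centralBinom k) ^ 2 * (3 * k + 1) :=
          Nat.mul_le_mul (Nat.pow_le_pow_left h1 2) (by omega)
      _ ≤ 16 ^ k := h2
      _ ≤ 4 * 16 ^ k := by omega
  · have h2 := central_sq k
    have h1 : (2 * k + 1).choose i ≤ 2 * Nat.centralBinom k := by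
      cases i with
      | zero =>
        have := Nat.centralBinom_pos k
        rw [Nat.choose_zero_right]
        omega
      | succ i =>
        rw [Nat.choose_succ_succ]
        have a := Nat.choose_le_centralBinom i k
        have b := Nat.choose_le_centralBinom (i + 1) k
        have e : i.succ = i + 1 := rfl
        rw [e]
        omega
    have h3 : (4 : ℕ) ^ (2 * k + 1) = 4 * 16 ^ k := by
      rw [pow_succ, pow_mul]
      norm_num
      ring
    rw [h3]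
    calc ((2 * k + 1).choose i) ^ 2 * (2 * k + 1 + 1)
        ≤ (2 * Nat.centralBinom k) ^ 2 * (2 * (3 * k + 1)) :=
          Nat.mul_le_mul (Nat.pow_le_pow_left h1 2) (by omega)
      _ = 8 * ((Nat.centralBinom k) ^ 2 * (3 * k + 1)) := by ring
      _ ≤ 8 * 16 ^ k := Nat.mul_le_mul_left _ h2
      _ ≤ 4 * (4 * 16 ^ k) := by omega

theorem sum_half (N d M : ℕ) (hM : ∀ i, N.choose i ≤ M) :
    2 * ∑ i ∈ Finset.range (N / 2 + d + 1), N.choose i ≤ 2 ^ N + 2 * ((d + 1) * M) := by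
  have hm : (N + 1) / 2 ≤ N / 2 + d + 1 := by omega
  have h1 : ∑ i ∈ Finset.range (N / 2 + d + 1), N.choose i =
      ∑ i ∈ Finset.Ico 0 ((N + 1) / 2), N.choose i +
        ∑ i ∈ Finset.Ico ((N + 1) / 2) (N / 2 + d + 1), N.choose i := by
    rw [Finset.sum_Ico_consecutive _ (Nat.zero_le _) hm, Finset.range_eq_Ico]
  have h2 : ∑ i ∈ Finset.Ico ((N + 1) / 2) (N / 2 + d + 1), N.choose i ≤ (d + 1) * M := by
    refine le_trans (Finset.sum_le_card_nsmul _ _ M fun i _ => hM i) ?_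
    rw [Nat.card_Ico, smul_eq_mul]
    refine Nat.mul_le_mul_right _ ?_
    omega
  have h3 : 2 * ∑ i ∈ Finset.Ico 0 ((N + 1) / 2), N.choose i ≤ 2 ^ N := by
    have a1 : ∑ i ∈ Finset.Ico 0 ((N + 1) / 2), N.choose i =
        ∑ i ∈ Finset.Ico 0 ((N + 1) / 2), N.choose (N - i) := by
      refine Finset.sum_congr rfl fun i hi => ?_
      rw [Finset.mem_Ico] at hi
      rw [Nat.choose_symm (by omega)]
    have a2 := Finset.sum_Ico_reflect (fun i => N.choose i) 0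
      (show (N + 1) / 2 ≤ N + 1 by omega)
    have a3 : ∑ i ∈ Finset.Ico (N + 1 - (N + 1) / 2) (N + 1 - 0), N.choose i ≤
        ∑ i ∈ Finset.Ico ((N + 1) / 2) (N + 1), N.choose i := by
      refine Finset.sum_le_sum_of_subset ?_
      intro i hi
      rw [Finset.mem_Ico] at hi ⊢
      omega
    have a4 : ∑ i ∈ Finset.Ico 0 ((N + 1) / 2), N.choose i +
        ∑ i ∈ Finset.Ico ((N + 1) / 2) (N + 1), N.choose i = 2 ^ N := by
      rw [Finset.sum_Ico_consecutive _ (Nat.zero_le _) (by omega), ← Finset.range_eq_Ico,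
        Nat.sum_range_choose]
    rw [← a1] at a2
    omega
  rw [h1]
  omega

/-- the form used: the sum is at most `(3/5) 2^N` if `400 (d+1)^2 ≤ N` -/
theorem sum_small (N d : ℕ) (h : 400 * (d + 1) ^ 2 ≤ N) :
    5 * ∑ i ∈ Finset.range (N / 2 + d + 1), N.choose i ≤ 3 * 2 ^ N := by
  have h1 := sum_half N d (N.choose (N / 2)) (fun i => Nat.choose_le_middle i N)
  have h2 := choose_mid N (N / 2)
  have h3 : (10 * ((d + 1) * N.choose (N / 2))) ^ 2 ≤ (2 ^ N) ^ 2 := by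
    have e : ((2 : ℕ) ^ N) ^ 2 = 4 ^ N := by rw [← pow_mul, mul_comm, pow_mul]; norm_num
    rw [e]
    have : 4 * (10 * ((d + 1) * N.choose (N / 2))) ^ 2 ≤ 4 * 4 ^ N := by
      calc 4 * (10 * ((d + 1) * N.choose (N / 2))) ^ 2
          = (N.choose (N / 2)) ^ 2 * (400 * (d + 1) ^ 2) := by ring
        _ ≤ (N.choose (N / 2)) ^ 2 * (N + 1) := Nat.mul_le_mul_left _ (by omega)
        _ ≤ 4 * 4 ^ N := h2
    omega
  have h4 : 10 * ((d + 1) * N.choose (N / 2)) ≤ 2 ^ N :=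
    (Nat.pow_le_pow_iff_left (by norm_num)).1 h3
  omega

end C78
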