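import Pool.Agent.C78.Defs

/-!
# C78/Chain: circuits as chains of finite sets, local circuits

`Loc m V δ σ a`: the function `a` can be computed from the functions in `V` by a local `2-AC[m]`
circuit of depth `δ` with at most `σ` new functions.

Proof hints.
* `G2.mono`: trivial.
* `chain_union`, `chain_biUnion`: gates are monotone in `V`.
* `loc_mem`: `U = fun _ => ∅`.   `loc_mono`: enlarge `V`; for `δ ≤ δ'` truncate: replace `U` by
  `fun j => U (min j δ)` first (so that the cardinality at `δ'` is that at `δ`).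
* `loc_gate`: (a general gate) union of the (truncated) local chains of the members of `l` (a
  `Finset.biUnion` over `l.toFinset`, choose one chain for every member), and `a` is added at all
  levels `≥ δ + 1`.
* `loc_trans`: union (biUnion over `V'`) of the truncated chains of the members of `V'`, then from
  level `δ` on add the chain of `a` shifted by `δ`.
* `chain_ext`: `W' e = W e ∪ (if d ≤ e then U (min (e - d) δ) else ∅)`.
* `chain_ext_many`: induction on the finset `s`, using `chain_ext` and `loc_mono`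
  (`W (d i) ⊆ W' (d i)`).
-/

namespace C78

open Finset

variable {n : ℕ}

theorem G2.mono {m : ℕ} {V V' : Finset (BF n)} (h : V ⊆ V') {a : BF n} (ha : G2 m V a) :
    G2 m V' a := by
  rcases ha with ⟨b, hb, rfl⟩ | ⟨l, hl, hb, ha⟩ | ⟨l, hb, rfl⟩
  · exact Or.inl ⟨b, h hb, rfl⟩
  · exact Or.inr (Or.inl ⟨l, hl, fun b hbl => h (hb b hbl), ha⟩)
  · exact Or.inr (Or.inr ⟨l, fun b hbl => h (hb b hbl), rfl⟩)

theorem chain_union {m : ℕ} {W W' : ℕ → Finset (BF n)} (h : IsChain m W) (h' : IsChain m W') :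
    IsChain m (fun j => W j ∪ W' j) := by
  refine ⟨fun i j hij => union_subset_union (h.1 hij) (h'.1 hij), fun a ha => ?_,
    fun j a ha => ?_⟩
  · rcases mem_union.1 ha with ha | ha
    · exact h.2.1 a ha
    · exact h'.2.1 a ha
  · rcases mem_union.1 ha with ha | ha
    · rcases h.2.2 j a ha with h1 | h1
      · exact Or.inl (mem_union_left _ h1)
      · exact Or.inr (h1.mono subset_union_left)
    · rcases h'.2.2 j a ha with h1 | h1
      · exact Or.inl (mem_union_right _ h1)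
      · exact Or.inr (h1.mono subset_union_right)

theorem chain_biUnion {m : ℕ} {ι : Type} (s : Finset ι) (W : ι → ℕ → Finset (BF n))
    (h : ∀ i ∈ s, IsChain m (W i)) : IsChain m (fun j => s.biUnion (fun i => W i j)) := by
  refine ⟨fun j j' hj a ha => ?_, fun a ha => ?_, fun j a ha => ?_⟩
  · obtain ⟨i, hi, hai⟩ := mem_biUnion.1 ha
    exact mem_biUnion.2 ⟨i, hi, (h i hi).1 hj hai⟩
  · obtain ⟨i, hi, hai⟩ := mem_biUnion.1 ha
    exact (h i hi).2.1 a hai
  · obtain ⟨i, hi, hai⟩ := mem_biUnion.1 ha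
    rcases (h i hi).2.2 j a hai with h1 | h1
    · exact Or.inl (mem_biUnion.2 ⟨i, hi, h1⟩)
    · exact Or.inr (h1.mono (subset_biUnion_of_mem (fun i => W i j) hi))

/-- local circuits over `V` -/
def Loc (m : ℕ) (V : Finset (BF n)) (δ σ : ℕ) (a : BF n) : Prop :=
  ∃ U : ℕ → Finset (BF n), Monotone U ∧ U 0 = ∅ ∧
    (∀ j, ∀ b ∈ U (j + 1), b ∈ U j ∨ G2 m (V ∪ U j) b) ∧ (U δ).card ≤ σ ∧ (a ∈ V ∨ a ∈ U δ)

theorem loc_mem {m : ℕ} {V : Finset (BF n)} {a : BF n} (ha : a ∈ V) : Loc m V 0 0 a :=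
  ⟨fun _ => ∅, fun _ _ _ => subset_rfl, rfl, fun _ _ hb => absurd hb (notMem_empty _),
    le_rfl, Or.inl ha⟩

/-- truncated chains -/
private theorem loc_trunc {m : ℕ} {V : Finset (BF n)} {δ σ : ℕ} {a : BF n}
    (h : Loc m V δ σ a) : ∃ U : ℕ → Finset (BF n), Monotone U ∧ U 0 = ∅ ∧
      (∀ j, ∀ b ∈ U (j + 1), b ∈ U j ∨ G2 m (V ∪ U j) b) ∧ (∀ j, (U j).card ≤ σ) ∧
      (a ∈ V ∨ ∀ j, δ ≤ j → a ∈ U j) := by
  obtain ⟨U, h1, h2, h3, h4, h5⟩ := h
  refine ⟨fun j => U (min j δ), fun i j hij => h1 (min_le_min_right δ hij), ?_, ?_, ?_, ?_⟩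
  · show U (min 0 δ) = ∅
    rw [Nat.zero_min, h2]
  · intro j b hb
    show b ∈ U (min j δ) ∨ G2 m (V ∪ U (min j δ)) b
    have hb' : b ∈ U (min (j + 1) δ) := hb
    rcases Nat.lt_or_ge j δ with hj | hj
    · rw [min_eq_left (by omega : j ≤ δ)]
      rw [min_eq_left (by omega : j + 1 ≤ δ)] at hb'
      exact h3 j b hb'
    · rw [min_eq_right hj]
      rw [min_eq_right (by omega : δ ≤ j + 1)] at hb'
      exact Or.inl hb'
  · intro j
    exact (card_le_card (h1 (min_le_right j δ))).trans h4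
  · rcases h5 with h5 | h5
    · exact Or.inl h5
    · refine Or.inr fun j hj => ?_
      show a ∈ U (min j δ)
      rw [min_eq_right hj]
      exact h5

theorem loc_mono {m : ℕ} {V V' : Finset (BF n)} {δ δ' σ σ' : ℕ} {a : BF n} (hV : V ⊆ V')
    (hδ : δ ≤ δ') (hσ : σ ≤ σ') (h : Loc m V δ σ a) : Loc m V' δ' σ' a := by
  obtain ⟨U, h1, h2, h3, h4, h5⟩ := loc_trunc h
  refine ⟨U, h1, h2, fun j b hb => ?_, (h4 δ').trans hσ, ?_⟩
  · rcases h3 j b hb with h6 | h6
    · exact Or.inl h6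
    · exact Or.inr (h6.mono (union_subset_union hV subset_rfl))
  · rcases h5 with h5 | h5
    · exact Or.inl (hV h5)
    · exact Or.inr (h5 δ' hδ)

/-- chains for all members of a set -/
private theorem loc_family {m : ℕ} {V : Finset (BF n)} {δ σ : ℕ} (s : Finset (BF n))
    (h : ∀ b ∈ s, Loc m V δ σ b) : ∃ B : ℕ → Finset (BF n), Monotone B ∧ B 0 = ∅ ∧
      (∀ j, ∀ b ∈ B (j + 1), b ∈ B j ∨ G2 m (V ∪ B j) b) ∧ (∀ j, (B j).card ≤ s.card * σ) ∧
      ∀ j, δ ≤ j → s ⊆ V ∪ B j := by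
  have hex : ∀ b : BF n, ∃ U : ℕ → Finset (BF n), b ∈ s → (Monotone U ∧ U 0 = ∅ ∧
      (∀ j, ∀ c ∈ U (j + 1), c ∈ U j ∨ G2 m (V ∪ U j) c) ∧ (∀ j, (U j).card ≤ σ) ∧
      (b ∈ V ∨ ∀ j, δ ≤ j → b ∈ U j)) := by
    intro b
    by_cases hb : b ∈ s
    · obtain ⟨U, hU⟩ := loc_trunc (h b hb)
      exact ⟨U, fun _ => hU⟩
    · exact ⟨fun _ => ∅, fun hb' => absurd hb' hb⟩
  choose U hU using hex
  refine ⟨fun j => s.biUnion (fun b => U b j), ?_, ?_, ?_, ?_, ?_⟩
  · intro j j' hj a ha
    obtain ⟨b, hb, hab⟩ := mem_biUnion.1 ha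
    exact mem_biUnion.2 ⟨b, hb, (hU b hb).1 hj hab⟩
  · rw [eq_empty_iff_forall_notMem]
    intro a ha
    obtain ⟨b, hb, hab⟩ := mem_biUnion.1 ha
    rw [(hU b hb).2.1] at hab
    exact notMem_empty _ hab
  · intro j a ha
    obtain ⟨b, hb, hab⟩ := mem_biUnion.1 ha
    rcases (hU b hb).2.2.1 j a hab with h1 | h1
    · exact Or.inl (mem_biUnion.2 ⟨b, hb, h1⟩)
    · exact Or.inr (h1.mono (union_subset_union subset_rfl
        (subset_biUnion_of_mem (fun b => U b j) hb)))
  · intro j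
    exact card_biUnion_le_card_mul s _ σ (fun b hb => (hU b hb).2.2.2.1 j)
  · intro j hj b hb
    rcases (hU b hb).2.2.2.2 with h1 | h1
    · exact mem_union_left _ h1
    · exact mem_union_right _ (mem_biUnion.2 ⟨b, hb, h1 j hj⟩)

/-- A gate on top of local circuits. -/
private theorem loc_gate {m : ℕ} {V : Finset (BF n)} {δ σ : ℕ} (s : Finset (BF n))
    (h : ∀ b ∈ s, Loc m V δ σ b) {a : BF n} (hg : ∀ X : Finset (BF n), s ⊆ X → G2 m X a) :
    Loc m V (δ + 1) (s.card * σ + 1) a := by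
  obtain ⟨B, b1, b2, b3, b4, b5⟩ := loc_family s h
  refine ⟨fun j => B j ∪ (if δ + 1 ≤ j then {a} else ∅), ?_, ?_, ?_, ?_, ?_⟩
  · intro i j hij
    refine union_subset_union (b1 hij) ?_
    by_cases hi : δ + 1 ≤ i
    · rw [if_pos hi, if_pos (hi.trans hij)]
    · rw [if_neg hi]
      exact empty_subset _
  · show B 0 ∪ (if δ + 1 ≤ 0 then {a} else ∅) = ∅
    rw [b2, if_neg (by omega), union_empty]
  · intro j c hc
    rcases mem_union.1 hc with hc | hc
    · rcases b3 j c hc with h1 | h1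
      · exact Or.inl (mem_union_left _ h1)
      · exact Or.inr (h1.mono (union_subset_union subset_rfl subset_union_left))
    · by_cases hj : δ + 1 ≤ j + 1
      · rw [if_pos hj, mem_singleton] at hc
        subst hc
        refine Or.inr (hg _ ((b5 j (by omega)).trans
          (union_subset_union subset_rfl subset_union_left)))
      · rw [if_neg hj] at hc
        exact absurd hc (notMem_empty _)
  · refine (card_union_le _ _).trans (add_le_add (b4 _) ?_)
    rw [if_pos le_rfl, card_singleton]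
  · refine Or.inr (mem_union_right _ ?_)
    rw [if_pos le_rfl]
    exact mem_singleton_self a

/-- `MOD_m` gate on top of local circuits. -/
theorem loc_gMod {m : ℕ} {V : Finset (BF n)} {δ σ : ℕ} (l : List (BF n))
    (h : ∀ b ∈ l, Loc m V δ σ b) : Loc m V (δ + 1) (l.toFinset.card * σ + 1) (gMod m l) :=
  loc_gate l.toFinset (fun b hb => h b (List.mem_toFinset.1 hb)) fun _ hX =>
    Or.inr (Or.inr ⟨l, fun _ hb => hX (List.mem_toFinset.2 hb), rfl⟩)

theorem loc_gNot {m : ℕ} {V : Finset (BF n)} {δ σ : ℕ} {b : BF n} (h : Loc m V δ σ b) :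
    Loc m V (δ + 1) (σ + 1) (gNot b) := by
  have h1 := loc_gate (m := m) (V := V) (δ := δ) (σ := σ) {b}
    (fun c hc => by rw [mem_singleton.1 hc]; exact h) (a := gNot b)
    (fun X hX => Or.inl ⟨b, hX (mem_singleton_self b), rfl⟩)
  rwa [card_singleton, one_mul] at h1

theorem loc_gAnd {m : ℕ} {V : Finset (BF n)} {δ σ : ℕ} (l : List (BF n)) (hl : l.length ≤ 2)
    (h : ∀ b ∈ l, Loc m V δ σ b) : Loc m V (δ + 1) (l.length * σ + 1) (gAnd l) :=
  loc_mono subset_rfl le_rfl
    (Nat.add_le_add_right (Nat.mul_le_mul_right σ (List.toFinset_card_le l)) 1)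
    (loc_gate l.toFinset (fun b hb => h b (List.mem_toFinset.1 hb)) fun _ hX =>
      Or.inr (Or.inl ⟨l, hl, fun _ hb => hX (List.mem_toFinset.2 hb), Or.inl rfl⟩))

theorem loc_gOr {m : ℕ} {V : Finset (BF n)} {δ σ : ℕ} (l : List (BF n)) (hl : l.length ≤ 2)
    (h : ∀ b ∈ l, Loc m V δ σ b) : Loc m V (δ + 1) (l.length * σ + 1) (gOr l) :=
  loc_mono subset_rfl le_rfl
    (Nat.add_le_add_right (Nat.mul_le_mul_right σ (List.toFinset_card_le l)) 1)
    (loc_gate l.toFinset (fun b hb => h b (List.mem_toFinset.1 hb)) fun _ hX =>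
      Or.inr (Or.inl ⟨l, hl, fun _ hb => hX (List.mem_toFinset.2 hb), Or.inr rfl⟩))

theorem loc_trans {m : ℕ} {V V' : Finset (BF n)} {δ σ δ' σ' : ℕ} {a : BF n}
    (h : ∀ b ∈ V', Loc m V δ σ b) (h' : Loc m V' δ' σ' a) :
    Loc m V (δ + δ') (V'.card * σ + σ') a := by
  obtain ⟨B, b1, b2, b3, b4, b5⟩ := loc_family V' h
  obtain ⟨U, u1, u2, u3, u4, u5⟩ := loc_trunc h'
  refine ⟨fun j => B j ∪ U (j - δ), ?_, ?_, ?_, ?_, ?_⟩
  · intro i j hij
    exact union_subset_union (b1 hij) (u1 (Nat.sub_le_sub_right hij δ))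
  · show B 0 ∪ U (0 - δ) = ∅
    rw [Nat.zero_sub, b2, u2, union_empty]
  · intro j c hc
    rcases mem_union.1 hc with hc | hc
    · rcases b3 j c hc with h1 | h1
      · exact Or.inl (mem_union_left _ h1)
      · exact Or.inr (h1.mono (union_subset_union subset_rfl subset_union_left))
    · rcases Nat.lt_or_ge j δ with hj | hj
      · rw [show j + 1 - δ = 0 by omega, u2] at hc
        exact absurd hc (notMem_empty _)
      · rw [show j + 1 - δ = (j - δ) + 1 by omega] at hc
        rcases u3 _ c hc with h1 | h1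
        · exact Or.inl (mem_union_right _ h1)
        · refine Or.inr (h1.mono (union_subset ?_ ?_))
          · exact (b5 j hj).trans (union_subset_union subset_rfl subset_union_left)
          · exact subset_union_right.trans subset_union_right
  · exact (card_union_le _ _).trans (add_le_add (b4 _) (u4 _))
  · show a ∈ V ∨ a ∈ B (δ + δ') ∪ U (δ + δ' - δ)
    rcases u5 with h1 | h1
    · rcases mem_union.1 (b5 (δ + δ') (Nat.le_add_right δ δ') h1) with h2 | h2
      · exact Or.inl h2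
      · exact Or.inr (mem_union_left _ h2)
    · exact Or.inr (mem_union_right _ (h1 _ (by omega)))

theorem chain_ext {m : ℕ} {W : ℕ → Finset (BF n)} (hW : IsChain m W) {d δ σ : ℕ} {a : BF n}
    (h : Loc m (W d) δ σ a) :
    ∃ W' : ℕ → Finset (BF n), IsChain m W' ∧ (∀ e, W e ⊆ W' e) ∧
      (∀ e, (W' e).card ≤ (W e).card + σ) ∧ a ∈ W' (d + δ) := by
  obtain ⟨U, u1, u2, u3, u4, u5⟩ := loc_trunc h
  refine ⟨fun e => W e ∪ U (e - d), ⟨?_, ?_, ?_⟩, fun e => subset_union_left,
    fun e => (card_union_le _ _).trans (add_le_add le_rfl (u4 _)), ?_⟩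
  · intro i j hij
    exact union_subset_union (hW.1 hij) (u1 (Nat.sub_le_sub_right hij d))
  · intro c hc
    have hc' : c ∈ W 0 ∪ U (0 - d) := hc
    rw [show W 0 ∪ U (0 - d) = W 0 by rw [Nat.zero_sub, u2, union_empty]] at hc'
    exact hW.2.1 c hc'
  · intro j c hc
    rcases mem_union.1 hc with hc | hc
    · rcases hW.2.2 j c hc with h1 | h1
      · exact Or.inl (mem_union_left _ h1)
      · exact Or.inr (h1.mono subset_union_left)
    · rcases Nat.lt_or_ge j d with hj | hj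
      · rw [show j + 1 - d = 0 by omega, u2] at hc
        exact absurd hc (notMem_empty _)
      · rw [show j + 1 - d = (j - d) + 1 by omega] at hc
        rcases u3 _ c hc with h1 | h1
        · exact Or.inl (mem_union_right _ h1)
        · exact Or.inr (h1.mono (union_subset_union (hW.1 hj) subset_rfl))
  · show a ∈ W (d + δ) ∪ U (d + δ - d)
    rcases u5 with h1 | h1
    · exact mem_union_left _ (hW.1 (Nat.le_add_right d δ) h1)
    · exact mem_union_right _ (h1 _ (by omega))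

theorem chain_ext_many {m : ℕ} {W : ℕ → Finset (BF n)} (hW : IsChain m W) {ι : Type}
    (s : Finset ι) (d δ : ι → ℕ) (σ : ℕ) (a : ι → BF n)
    (h : ∀ i ∈ s, Loc m (W (d i)) (δ i) σ (a i)) :
    ∃ W' : ℕ → Finset (BF n), IsChain m W' ∧ (∀ e, W e ⊆ W' e) ∧
      (∀ e, (W' e).card ≤ (W e).card + s.card * σ) ∧ ∀ i ∈ s, a i ∈ W' (d i + δ i) := by
  classical
  induction s using Finset.induction_on with
  | empty =>
    exact ⟨W, hW, fun _ => subset_rfl, fun e => by simp, fun i hi => absurd hi (notMem_empty i)⟩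
  | insert i s his ih =>
    obtain ⟨W1, w1, w2, w3, w4⟩ := ih (fun j hj => h j (mem_insert_of_mem hj))
    obtain ⟨W2, v1, v2, v3, v4⟩ := chain_ext w1 (d := d i) (δ := δ i) (σ := σ) (a := a i)
      (loc_mono (w2 (d i)) le_rfl le_rfl (h i (mem_insert_self i s)))
    refine ⟨W2, v1, fun e => (w2 e).trans (v2 e), fun e => ?_, fun j hj => ?_⟩
    · rw [card_insert_of_notMem his, Nat.add_mul, Nat.one_mul]
      have := w3 e
      have := v3 e
      omega
    · rcases mem_insert.1 hj with rfl | hj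
      · exact v4
      · exact v2 _ (w4 j hj)

end C78
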