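import Mathlib

/-!
# C78: a cost calculus for non-uniform `2-AC[m]` circuits (MP_38232e_lc)

Boolean functions of `n` variables, gates, circuits.  A circuit is given by the increasing family
`W 0 ⊆ W 1 ⊆ ...` of finite sets of Boolean functions: `W j` is the set of functions computed at
the gates of depth at most `j`.
-/

namespace C78

open Finset

/-- Boolean functions of `n` variables. -/
abbrev BF (n : ℕ) := (Fin n → Bool) → Bool

variable {n : ℕ}

/-- NOT gate. -/
def gNot (a : BF n) : BF n := fun x => !(a x)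

/-- AND gate with the list of inputs `l` (fan-in `l.length`). -/
def gAnd (l : List (BF n)) : BF n := fun x => l.all (fun a => a x)

/-- OR gate with the list of inputs `l`. -/
def gOr (l : List (BF n)) : BF n := fun x => l.any (fun a => a x)

/-- `MOD_m` gate: true iff the number of true inputs is not divisible by `m`. -/
def gMod (m : ℕ) (l : List (BF n)) : BF n := fun x => decide (¬ m ∣ l.countP (fun a => a x))

/-- `a` is one of the variables. -/
def IsVar (a : BF n) : Prop := ∃ i : Fin n, a = fun x => x i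

/-- One gate of a `2-AC[m]` circuit, applied to functions of `V`: NOT, AND and OR of fan-in at most
2, `MOD_m` of arbitrary fan-in. -/
def G2 (m : ℕ) (V : Finset (BF n)) (a : BF n) : Prop :=
  (∃ b ∈ V, a = gNot b) ∨
  (∃ l : List (BF n), l.length ≤ 2 ∧ (∀ b ∈ l, b ∈ V) ∧ (a = gAnd l ∨ a = gOr l)) ∨
  (∃ l : List (BF n), (∀ b ∈ l, b ∈ V) ∧ a = gMod m l)

/-- `W` is a `2-AC[m]` circuit: `W j` = functions computed at depth at most `j`. -/
def IsChain (m : ℕ) (W : ℕ → Finset (BF n)) : Prop :=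
  Monotone W ∧ (∀ a ∈ W 0, IsVar a) ∧ (∀ j, ∀ a ∈ W (j + 1), a ∈ W j ∨ G2 m (W j) a)

/-- `g` is computed by a `2-AC[m]` circuit of depth at most `D` and size at most `S`. -/
def AC2 (m D S : ℕ) (g : BF n) : Prop :=
  ∃ W : ℕ → Finset (BF n), IsChain m W ∧ (W D).card ≤ S ∧ g ∈ W D

/-- `lg k` is about `log₂ log₂ k`, and at least `1`. -/
def lg (k : ℕ) : ℕ := Nat.log 2 (Nat.log 2 (k + 4))

/-- The cost calculus.  `P j`, `M j`, `L j` are sets of functions with (weighted) cost at most `j`,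
in three modes:
* mode `P` (precise): variables are free; NOT, AND/OR of fan-in at most 2 and `MOD_m` of ANY
  fan-in, applied to functions of mode `P`, cost `1`; a function of mode `M` or `L` can be made
  precise at cost `lg S`;
* mode `M` (monotone): functions of mode `P` enter at cost `1`; OR gates of ANY fan-in and AND
  gates of fan-in at most 2 cost `1`;
* mode `L` (low precision): functions of modes `P` and `M` enter at cost `1`; NOT costs `1`;
  AND, OR and `MOD_m` gates of fan-in `k` cost `lg k`.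
`S` bounds the total number of functions. -/
def IsCalc (m S : ℕ) (P M L : ℕ → Finset (BF n)) : Prop :=
  Monotone P ∧ Monotone M ∧ Monotone L ∧
  (∀ a ∈ P 0, IsVar a) ∧ M 0 = ∅ ∧ L 0 = ∅ ∧
  (∀ j, ∀ a ∈ P (j + 1), a ∈ P j ∨ G2 m (P j) a ∨
    ∃ i, i + lg S ≤ j + 1 ∧ (a ∈ M i ∨ a ∈ L i)) ∧
  (∀ j, ∀ a ∈ M (j + 1), a ∈ M j ∨ a ∈ P j ∨
    ∃ l : List (BF n), (∀ b ∈ l, b ∈ M j) ∧ (a = gOr l ∨ (a = gAnd l ∧ l.length ≤ 2))) ∧
  (∀ j, ∀ a ∈ L (j + 1), a ∈ L j ∨ a ∈ P j ∨ a ∈ M j ∨ (∃ b ∈ L j, a = gNot b) ∨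
    ∃ i, ∃ l : List (BF n), i + lg l.length ≤ j + 1 ∧ (∀ b ∈ l, b ∈ L i) ∧
      (a = gAnd l ∨ a = gOr l ∨ a = gMod m l))

/-- `g` has weighted cost at most `D` with at most `S` functions in total. -/
def Calc (m D S : ℕ) (g : BF n) : Prop :=
  ∃ P M L : ℕ → Finset (BF n), IsCalc m S P M L ∧ (P D ∪ M D ∪ L D).card ≤ S ∧
    g ∈ P D ∪ M D ∪ L D

/-- One gate of a circuit with AND gates of fan-in at most `φ` and `MOD_m` gates of fan-in at
most `ψ`. -/
def GB (m φ ψ : ℕ) (V : Finset (BF n)) (a : BF n) : Prop :=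
  (∃ b ∈ V, a = gNot b) ∨
  (∃ l : List (BF n), l.length ≤ φ ∧ (∀ b ∈ l, b ∈ V) ∧ a = gAnd l) ∨
  (∃ l : List (BF n), l.length ≤ ψ ∧ (∀ b ∈ l, b ∈ V) ∧ a = gMod m l)

/-- `g` is computed by a circuit of depth at most `D` and size at most `S` with NOT gates, AND
gates of fan-in at most `φ` and `MOD_m` gates of fan-in at most `ψ`. -/
def BddC (m φ ψ D S : ℕ) (g : BF n) : Prop :=
  ∃ W : ℕ → Finset (BF n), Monotone W ∧ (∀ a ∈ W 0, IsVar a) ∧
    (∀ j, ∀ a ∈ W (j + 1), a ∈ W j ∨ GB m φ ψ (W j) a) ∧ (W D).card ≤ S ∧ g ∈ W D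

end C78
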