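import Pool.Agent.C78.Defs

/-!
# C78/Deg: `2-AC[p^k]` circuits of depth `D` have degree at most `(p^k)^D` in characteristic `p`

`Dg K N d` = functions `{0,1}^N → K` that are polynomials of degree at most `d` = span of the
products `x ↦ ∏_{i ∈ A} [x i]` with `A.card ≤ d`.
* `dg_mono`, `dg_one`: span monotone; `A = ∅`.
* `dg_mul`: `Submodule.span_induction` twice (or `Submodule.mul`-free: `Submodule.span_le`):
  the product of the monomials of `A` and `B` is the monomial of `A ∪ B`.
* `dg_choose`: for a list `l` of Boolean functions with indicators in `Dg d`, the function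
  `x ↦ ((l.countP (· x)).choose j : K)` is in `Dg (j * d)`: induction on `l` (generalising `j`), with
  `Nat.choose_succ_succ`: for `b :: l`, `j + 1`: if `b x` then `C(c+1, j+1) = C(c, j) + C(c, j+1)`,
  i.e. the function is `[b] * C(count l, j) + C(count l, j + 1)`.
* `pow_dvd_iff_choose`: `p ^ k ∣ c ↔ ∀ i < k, p ∣ c.choose (p ^ i)`: by Lucas
  (`Choose.choose_modEq_choose_mod_mul_choose_div_nat`), `c.choose (p^(i+1)) ≡
  (c / p).choose (p ^ i) [MOD p]` (as `p^(i+1) % p = 0`, `p^(i+1)/p = p^i`), `c.choose (p^0) = c`;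
  induction on `k`: `p^(k+1) ∣ c ↔ p ∣ c ∧ p^k ∣ c / p`.
* `dg_gMod`: `[p^k ∣ c] = ∏ i ∈ range k, (1 - (c.choose (p^i) : K)^(p-1))` in characteristic `p`
  (Fermat for the cast `ZMod p → K`; the cast of a natural number `c` into `K` is `0` iff `p ∣ c`
  (`CharP.cast_eq_zero_iff`) and otherwise its `(p-1)`-st power is `1`: map from `ZMod p`,
  `ZMod.pow_card_sub_one_eq_one`).  Degree `∑ i<k, (p-1) * (p^i * d) = (p^k - 1) * d`
  (`Nat.geomSum_eq` or an induction on `k`: prove by induction on `k` that the product is in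
  `Dg ((p^k - 1) * d)`).
* `dg_of_chain`: induction on `j`: every `a ∈ W j` has indicator in `Dg ((p^k)^j)`; `2 ≤ p^k`.
-/

namespace C78

open Finset

variable (K : Type) [Field K] (N : ℕ)

/-- functions of degree at most `d` -/
def Dg (d : ℕ) : Submodule K ((Fin N → Bool) → K) :=
  Submodule.span K {f | ∃ A : Finset (Fin N), A.card ≤ d ∧
    f = fun x => ∏ i ∈ A, (if x i then (1 : K) else 0)}

variable {K N}

/-- indicator with values in `K` -/
def ind (K : Type) [Field K] {N : ℕ} (a : BF N) : (Fin N → Bool) → K :=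
  fun x => if a x then 1 else 0

theorem dg_mono {d e : ℕ} (h : d ≤ e) : Dg K N d ≤ Dg K N e := by
  unfold Dg
  apply Submodule.span_mono
  rintro f ⟨A, hA, rfl⟩
  exact ⟨A, hA.trans h, rfl⟩

theorem dg_one (d : ℕ) : (fun _ => (1 : K)) ∈ Dg K N d := by
  apply Submodule.subset_span
  exact ⟨∅, by simp, by simp⟩

theorem dg_var (i : Fin N) : ind K (fun x : Fin N → Bool => x i) ∈ Dg K N 1 := by
  apply Submodule.subset_span
  refine ⟨{i}, by simp, ?_⟩
  funext x
  simp [ind]

private theorem mono_mul (A B : Finset (Fin N)) (x : Fin N → Bool) :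
    (∏ i ∈ A, (if x i then (1 : K) else 0)) * (∏ i ∈ B, (if x i then (1 : K) else 0)) =
      ∏ i ∈ A ∪ B, (if x i then (1 : K) else 0) := by
  rw [Finset.prod_ite_zero, Finset.prod_ite_zero, Finset.prod_ite_zero]
  simp only [Finset.prod_const_one]
  by_cases hA : ∀ i ∈ A, x i = true
  · by_cases hB : ∀ i ∈ B, x i = true
    · rw [if_pos hA, if_pos hB, if_pos, mul_one]
      intro i hi
      rcases Finset.mem_union.1 hi with h | h
      · exact hA i h
      · exact hB i h
    · have h3 : ¬ ∀ i ∈ A ∪ B, x i = true := fun h => hB fun i hi => h i (Finset.mem_union_right _ hi)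
      rw [if_neg hB, if_neg h3, mul_zero]
  · have h3 : ¬ ∀ i ∈ A ∪ B, x i = true := fun h => hA fun i hi => h i (Finset.mem_union_left _ hi)
    rw [if_neg hA, if_neg h3, zero_mul]

theorem dg_mul {d e : ℕ} {f g : (Fin N → Bool) → K} (hf : f ∈ Dg K N d) (hg : g ∈ Dg K N e) :
    (fun x => f x * g x) ∈ Dg K N (d + e) := by
  unfold Dg at hf
  induction hf using Submodule.span_induction with
  | mem f hf =>
    obtain ⟨A, hA, rfl⟩ := hf
    unfold Dg at hg
    induction hg using Submodule.span_induction with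
    | mem g hg =>
      obtain ⟨B, hB, rfl⟩ := hg
      apply Submodule.subset_span
      refine ⟨A ∪ B, (Finset.card_union_le A B).trans (by omega), ?_⟩
      funext x
      exact mono_mul A B x
    | zero =>
      have e : (fun x => (∏ i ∈ A, (if x i then (1 : K) else 0)) * (0 : (Fin N → Bool) → K) x) = 0 := by
        funext x
        simp
      rw [e]
      exact Submodule.zero_mem _
    | add g g' _ _ h1 h2 =>
      have e : (fun x => (∏ i ∈ A, (if x i then (1 : K) else 0)) * (g + g') x) =
          (fun x => (∏ i ∈ A, (if x i then (1 : K) else 0)) * g x) +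
          (fun x => (∏ i ∈ A, (if x i then (1 : K) else 0)) * g' x) := by
        funext x
        simp only [Pi.add_apply]
        ring
      rw [e]
      exact Submodule.add_mem _ h1 h2
    | smul c g _ h1 =>
      have e : (fun x => (∏ i ∈ A, (if x i then (1 : K) else 0)) * (c • g) x) =
          c • (fun x => (∏ i ∈ A, (if x i then (1 : K) else 0)) * g x) := by
        funext x
        simp only [Pi.smul_apply, smul_eq_mul]
        ring
      rw [e]
      exact Submodule.smul_mem _ _ h1
  | zero =>
    have e : (fun x => (0 : (Fin N → Bool) → K) x * g x) = 0 := by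
      funext x
      simp
    rw [e]
    exact Submodule.zero_mem _
  | add f f' _ _ h1 h2 =>
    have e : (fun x => (f + f') x * g x) = (fun x => f x * g x) + (fun x => f' x * g x) := by
      funext x
      simp only [Pi.add_apply]
      ring
    rw [e]
    exact Submodule.add_mem _ h1 h2
  | smul c f _ h1 =>
    have e : (fun x => (c • f) x * g x) = c • (fun x => f x * g x) := by
      funext x
      simp only [Pi.smul_apply, smul_eq_mul]
      ring
    rw [e]
    exact Submodule.smul_mem _ _ h1

theorem dg_choose {d : ℕ} (l : List (BF N)) (hl : ∀ b ∈ l, ind K b ∈ Dg K N d) (j : ℕ) :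
    (fun x => (((l.countP (fun a => a x)).choose j : ℕ) : K)) ∈ Dg K N (j * d) := by
  induction l generalizing j with
  | nil =>
    cases j with
    | zero =>
      simp only [List.countP_nil, Nat.choose_self, Nat.cast_one]
      exact dg_one _
    | succ j =>
      simp only [List.countP_nil, Nat.choose_zero_succ, Nat.cast_zero]
      exact Submodule.zero_mem _
  | cons b l ih =>
    have hb := hl b (List.mem_cons_self)
    have ih' := fun j => ih (fun b' hb' => hl b' (List.mem_cons_of_mem _ hb')) j
    cases j with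
    | zero =>
      simp only [Nat.choose_zero_right, Nat.cast_one]
      exact dg_one _
    | succ j =>
      have h1 := dg_mono (K := K) (N := N) (show d + j * d ≤ (j + 1) * d by ring_nf; exact le_rfl) (dg_mul hb (ih' j))
      have h2 := Submodule.add_mem _ h1 (ih' (j + 1))
      have e : (fun x => ((((b :: l).countP (fun a => a x)).choose (j + 1) : ℕ) : K)) =
          (fun x => ind K b x * (((l.countP (fun a => a x)).choose j : ℕ) : K)) +
          (fun x => (((l.countP (fun a => a x)).choose (j + 1) : ℕ) : K)) := by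
        funext x
        rw [Pi.add_apply, List.countP_cons]
        by_cases hx : b x = true
        · rw [if_pos hx, Nat.choose_succ_succ]
          simp only [ind, hx, if_true, one_mul]
          push_cast
          ring
        · rw [if_neg hx]
          simp only [ind, if_neg hx, zero_mul, zero_add, add_zero]
      rw [e]
      exact h2

theorem pow_dvd_iff_choose {p : ℕ} (hp : p.Prime) (k c : ℕ) :
    p ^ k ∣ c ↔ ∀ i < k, p ∣ c.choose (p ^ i) := by
  have : Fact p.Prime := ⟨hp⟩
  induction k generalizing c with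
  | zero => simp
  | succ k ih =>
    have h1 : p ^ (k + 1) ∣ c ↔ p ∣ c ∧ p ^ k ∣ c / p := by
      constructor
      · intro h
        have h2 : p ∣ c := (dvd_pow_self p (Nat.succ_ne_zero k)).trans h
        refine ⟨h2, ?_⟩
        obtain ⟨m, hm⟩ := h
        refine ⟨m, ?_⟩
        rw [hm, pow_succ, mul_comm (p ^ k) p, mul_assoc, Nat.mul_div_cancel_left _ hp.pos]
      · rintro ⟨h2, h3⟩
        rw [← Nat.mul_div_cancel' h2, pow_succ, mul_comm (p ^ k) p]
        exact mul_dvd_mul_left p h3
    have h2 : ∀ i : ℕ, p ∣ c.choose (p ^ (i + 1)) ↔ p ∣ (c / p).choose (p ^ i) := by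
      intro i
      have h3 : c.choose (p ^ (i + 1)) ≡ (c % p).choose (p ^ (i + 1) % p) * (c / p).choose (p ^ (i + 1) / p) [MOD p] :=
        Choose.choose_modEq_choose_mod_mul_choose_div_nat
      have h4 : p ^ (i + 1) % p = 0 := Nat.mod_eq_zero_of_dvd (dvd_pow_self p (Nat.succ_ne_zero i))
      have h5 : p ^ (i + 1) / p = p ^ i := by
        rw [pow_succ, Nat.mul_div_cancel _ hp.pos]
      rw [h4, h5, Nat.choose_zero_right, one_mul] at h3
      exact h3.dvd_iff dvd_rfl
    have h5 := ih (c / p)
    rw [h1]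
    constructor
    · rintro ⟨h3, h4⟩ i hi
      cases i with
      | zero => simpa using h3
      | succ i =>
        rw [h2]
        exact h5.1 h4 i (by omega)
    · intro h3
      refine ⟨by simpa using h3 0 (by omega), h5.2 fun i hi => ?_⟩
      rw [← h2]
      exact h3 (i + 1) (by omega)

private theorem dg_pow {d : ℕ} {f : (Fin N → Bool) → K} (hf : f ∈ Dg K N d) (n : ℕ) :
    (fun x => f x ^ n) ∈ Dg K N (n * d) := by
  induction n with
  | zero =>
    simp only [pow_zero]
    exact dg_one _
  | succ n ih =>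
    have h := dg_mul ih hf
    simp only [pow_succ]
    rw [Nat.succ_mul]
    exact h

private theorem dg_oneSub {d : ℕ} {f : (Fin N → Bool) → K} (hf : f ∈ Dg K N d) :
    (fun x => 1 - f x) ∈ Dg K N d := by
  have h := Submodule.sub_mem _ (dg_one (K := K) (N := N) d) hf
  exact h

private theorem dg_add {d : ℕ} {f g : (Fin N → Bool) → K} (hf : f ∈ Dg K N d) (hg : g ∈ Dg K N d) :
    (fun x => f x + g x) ∈ Dg K N d := Submodule.add_mem _ hf hg

private theorem dg_sub {d : ℕ} {f g : (Fin N → Bool) → K} (hf : f ∈ Dg K N d) (hg : g ∈ Dg K N d) :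
    (fun x => f x - g x) ∈ Dg K N d := Submodule.sub_mem _ hf hg

private theorem fermat {p : ℕ} (hp : p.Prime) [CharP K p] (c : ℕ) :
    (c : K) ^ (p - 1) = if p ∣ c then 0 else 1 := by
  have : Fact p.Prime := ⟨hp⟩
  by_cases h : p ∣ c
  · rw [if_pos h, (CharP.cast_eq_zero_iff K p c).2 h, zero_pow]
    have := hp.two_le
    omega
  · rw [if_neg h]
    have h1 : (c : ZMod p) ≠ 0 := by
      rw [Ne, ZMod.natCast_eq_zero_iff]
      exact h
    have h2 := ZMod.pow_card_sub_one_eq_one h1
    have h3 := congrArg (ZMod.castHom (dvd_refl p) K) h2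
    rw [map_pow, map_natCast, map_one] at h3
    exact h3

private theorem ind_dvd {p : ℕ} (hp : p.Prime) [CharP K p] (k c : ℕ) :
    (if p ^ k ∣ c then (1 : K) else 0) = ∏ i ∈ range k, (1 - ((c.choose (p ^ i) : ℕ) : K) ^ (p - 1)) := by
  have h1 : ∀ i ∈ range k, (1 - ((c.choose (p ^ i) : ℕ) : K) ^ (p - 1)) =
      if p ∣ c.choose (p ^ i) then 1 else 0 := by
    intro i _
    rw [fermat hp]
    by_cases h : p ∣ c.choose (p ^ i)
    · rw [if_pos h, if_pos h, sub_zero]
    · rw [if_neg h, if_neg h, sub_self]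
  rw [Finset.prod_congr rfl h1, Finset.prod_ite_zero, Finset.prod_const_one]
  by_cases h : p ^ k ∣ c
  · rw [if_pos h, if_pos]
    intro i hi
    exact (pow_dvd_iff_choose hp k c).1 h i (Finset.mem_range.1 hi)
  · rw [if_neg h, if_neg]
    intro h2
    exact h ((pow_dvd_iff_choose hp k c).2 fun i hi => h2 i (Finset.mem_range.2 hi))

private theorem dg_prodk {p : ℕ} (hp : p.Prime) [CharP K p] {d : ℕ} (l : List (BF N))
    (hl : ∀ b ∈ l, ind K b ∈ Dg K N d) (k : ℕ) :
    (fun x => ∏ i ∈ range k, (1 - (((l.countP (fun a => a x)).choose (p ^ i) : ℕ) : K) ^ (p - 1))) ∈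
      Dg K N ((p ^ k - 1) * d) := by
  induction k with
  | zero =>
    simp only [Finset.range_zero, Finset.prod_empty]
    exact dg_one _
  | succ k ih =>
    simp only [Finset.prod_range_succ]
    have h1 := dg_oneSub (dg_pow (dg_choose l hl (p ^ k)) (p - 1))
    have h2 := dg_mul ih h1
    have e : (p ^ k - 1) * d + (p - 1) * (p ^ k * d) = (p ^ (k + 1) - 1) * d := by
      obtain ⟨r, hr⟩ : ∃ r, p = r + 1 := ⟨p - 1, by have := hp.pos; omega⟩
      have hpk : 1 ≤ p ^ k := Nat.one_le_pow _ _ hp.pos
      obtain ⟨s, hs⟩ : ∃ s, p ^ k = s + 1 := ⟨p ^ k - 1, by omega⟩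
      rw [pow_succ, hs, hr]
      have h3 : (s + 1) * (r + 1) - 1 = s + (s + 1) * r := by
        have : (s + 1) * (r + 1) = s + (s + 1) * r + 1 := by ring
        omega
      rw [h3, Nat.add_sub_cancel, Nat.add_sub_cancel]
      ring
    rw [e] at h2
    exact h2

theorem dg_gMod {p : ℕ} (hp : p.Prime) [CharP K p] {k d : ℕ} (l : List (BF N))
    (hl : ∀ b ∈ l, ind K b ∈ Dg K N d) : ind K (gMod (p ^ k) l) ∈ Dg K N ((p ^ k - 1) * d) := by
  have h := dg_oneSub (dg_prodk (K := K) hp l hl k)
  have e : ind K (gMod (p ^ k) l) = fun x => 1 - ∏ i ∈ range k,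
      (1 - (((l.countP (fun a => a x)).choose (p ^ i) : ℕ) : K) ^ (p - 1)) := by
    funext x
    rw [← ind_dvd hp]
    unfold ind gMod
    by_cases hx : p ^ k ∣ l.countP (fun a => a x)
    · simp [hx]
    · simp [hx]
  rw [e]
  exact h

private theorem dg_gNot {d : ℕ} {b : BF N} (hb : ind K b ∈ Dg K N d) : ind K (gNot b) ∈ Dg K N d := by
  have h := dg_oneSub hb
  have e : ind K (gNot b) = fun x => 1 - ind K b x := by
    funext x
    unfold ind gNot
    by_cases hx : b x = true
    · simp [hx]
    · simp [hx]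
  rw [e]
  exact h

private theorem dg_gAnd {d : ℕ} (l : List (BF N)) (hl : ∀ b ∈ l, ind K b ∈ Dg K N d) :
    ind K (gAnd l) ∈ Dg K N (l.length * d) := by
  induction l with
  | nil =>
    have e : ind K (gAnd ([] : List (BF N))) = fun _ => 1 := by
      funext x
      simp [ind, gAnd]
    rw [e]
    exact dg_one _
  | cons b l ih =>
    have h := dg_mul (hl b List.mem_cons_self) (ih (fun b' hb' => hl b' (List.mem_cons_of_mem _ hb')))
    have e : ind K (gAnd (b :: l)) = fun x => ind K b x * ind K (gAnd l) x := by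
      funext x
      unfold ind gAnd
      rw [List.all_cons]
      by_cases hx : b x = true
      · simp [hx]
      · simp [hx]
    rw [e, List.length_cons, Nat.succ_mul, add_comm]
    exact h

private theorem dg_gOr {d : ℕ} (l : List (BF N)) (hl : ∀ b ∈ l, ind K b ∈ Dg K N d) :
    ind K (gOr l) ∈ Dg K N (l.length * d) := by
  induction l with
  | nil =>
    have e : ind K (gOr ([] : List (BF N))) = 0 := by
      funext x
      simp [ind, gOr]
    rw [e]
    exact Submodule.zero_mem _
  | cons b l ih =>
    have ih' := ih (fun b' hb' => hl b' (List.mem_cons_of_mem _ hb'))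
    have hb := hl b List.mem_cons_self
    have h := dg_mul hb ih'
    have h1 : d ≤ d + l.length * d := Nat.le_add_right _ _
    have h2 : l.length * d ≤ d + l.length * d := Nat.le_add_left _ _
    have h3 := dg_sub (dg_add (dg_mono h1 hb) (dg_mono h2 ih')) h
    have e : ind K (gOr (b :: l)) = fun x => ind K b x + ind K (gOr l) x - ind K b x * ind K (gOr l) x := by
      funext x
      unfold ind gOr
      rw [List.any_cons]
      by_cases hx : b x = true
      · simp [hx]
      · simp [hx]
    rw [e, List.length_cons, Nat.succ_mul, add_comm]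
    exact h3

theorem dg_of_chain {p : ℕ} (hp : p.Prime) [CharP K p] {k : ℕ} (hk : 1 ≤ k)
    (W : ℕ → Finset (BF N)) (hW : IsChain (p ^ k) W) (j : ℕ) (a : BF N) (ha : a ∈ W j) :
    ind K a ∈ Dg K N ((p ^ k) ^ j) := by
  have hq : 2 ≤ p ^ k := hp.two_le.trans (Nat.le_self_pow (by omega) p)
  induction j generalizing a with
  | zero =>
    obtain ⟨i, hi⟩ := hW.2.1 a ha
    rw [hi, pow_zero]
    exact dg_var i
  | succ j ih =>
    have hle : (p ^ k) ^ j ≤ (p ^ k) ^ (j + 1) := Nat.pow_le_pow_right (by omega) (by omega)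
    have hle2 : 2 * (p ^ k) ^ j ≤ (p ^ k) ^ (j + 1) := by
      rw [pow_succ, mul_comm]
      exact Nat.mul_le_mul_left _ hq
    rcases hW.2.2 j a ha with h | ⟨b, hb, rfl⟩ | ⟨l, hl2, hl, h⟩ | ⟨l, hl, rfl⟩
    · exact dg_mono hle (ih a h)
    · exact dg_mono hle (dg_gNot (ih b hb))
    · have hlen : l.length * (p ^ k) ^ j ≤ (p ^ k) ^ (j + 1) :=
        (Nat.mul_le_mul_right _ hl2).trans hle2
      rcases h with rfl | rfl
      · exact dg_mono hlen (dg_gAnd l (fun b hb => ih b (hl b hb)))
      · exact dg_mono hlen (dg_gOr l (fun b hb => ih b (hl b hb)))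
    · refine dg_mono ?_ (dg_gMod hp l (fun b hb => ih b (hl b hb)))
      rw [pow_succ, mul_comm]
      exact Nat.mul_le_mul_left _ (Nat.sub_le _ _)

end C78
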