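import Pool.Agent.C78.Deg

/-!
# C78/Smol: Smolensky's dimension argument

Let `ω ∈ K`, `ω ≠ 0, 1`, and let the function `u x = ω ^ |x|` agree on the set `G` of inputs with
a function `P` of degree at most `d`.  Then every function on `G` is (the restriction of a function)
of degree at most `N/2 + d`, so `|G| ≤ ∑_{i ≤ N/2 + d} C(N, i)`.

Proof.  `y_i x = 1 + (ω - 1) [x i] ∈ {1, ω}`, `yinv_i x = 1 + (ω⁻¹ - 1) [x i]`, `y_i * yinv_i = 1`,
`∏_i y_i x = ω ^ |x| = u x`.  Since `[x i] = (y_i x - 1) / (ω - 1)`, every monomial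
`∏_{i ∈ A} [x i]` is a linear combination of the `y_B = ∏_{i ∈ B} y_i`, `B ⊆ A`
(`Finset.prod_add` or induction on `A`), so the `y_B` span all functions (the monomials do: the
indicator of a point `c` is `∏_i (if c i then [x i] else 1 - [x i])`; `dg_top`).
If `B.card ≤ N/2`, `y_B ∈ Dg (N/2)`.  If `B.card > N / 2`: `y_B x = u x * ∏_{i ∉ B} yinv_i x`, on
`G` equal to `P x * ∏_{i ∉ B} yinv_i x`, of degree `≤ d + (N - B.card) ≤ d + N/2`
(`N - B.card ≤ N / 2`).
Restriction `ρ : ((Fin N → Bool) → K) →ₗ (G → K)` is surjective, and by the above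
`ρ (Dg (N/2 + d)) = ⊤`.  `finrank (G → K) = G.card`, and `finrank (Dg e) ≤ #{A | A.card ≤ e} =
∑_{i ∈ range (e+1)} C(N, i)` (`finrank_span_le_card` / `finrank_span_finset_le_card`).
-/

namespace C78

open Finset

variable {K : Type} [Field K] {N : ℕ}

private theorem dg_lin (i : Fin N) (a b : K) :
    (fun x : Fin N → Bool => if x i then a else b) ∈ Dg K N 1 := by
  have h1 := (Dg K N 1).smul_mem b (dg_one (K := K) (N := N) 1)
  have h2 := (Dg K N 1).smul_mem (a - b) (dg_var (K := K) i)
  have h3 := (Dg K N 1).add_mem h1 h2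
  have e : (b • (fun _ : Fin N → Bool => (1 : K)) + (a - b) • ind K (fun x : Fin N → Bool => x i)) =
      (fun x : Fin N → Bool => if x i then a else b) := by
    funext x
    simp only [Pi.add_apply, Pi.smul_apply, smul_eq_mul, mul_one, ind]
    by_cases hx : x i = true
    · rw [if_pos hx, if_pos hx]
      ring
    · rw [if_neg hx, if_neg hx]
      ring
  rwa [e] at h3

private theorem dg_prod (A : Finset (Fin N)) (a b : Fin N → K) :
    (fun x : Fin N → Bool => ∏ i ∈ A, (if x i then a i else b i)) ∈ Dg K N A.card := by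
  classical
  induction A using Finset.induction_on with
  | empty =>
    simp only [Finset.prod_empty]
    exact dg_one _
  | insert i A hi ih =>
    have h1 := dg_mul (dg_lin i (a i) (b i)) ih
    rw [Finset.card_insert_of_notMem hi, add_comm A.card 1]
    simp only [Finset.prod_insert hi]
    exact h1

private theorem ind_point (c x : Fin N → Bool) :
    (∏ i, (if x i then (if c i then (1 : K) else 0) else (if c i then 0 else 1))) =
      if x = c then 1 else 0 := by
  by_cases h : x = c
  · rw [if_pos h, h]
    apply Finset.prod_eq_one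
    intro i _
    by_cases hc : c i = true
    · simp [hc]
    · simp [hc]
  · rw [if_neg h]
    obtain ⟨i, hi⟩ : ∃ i, x i ≠ c i := by
      by_contra hc
      push Not at hc
      exact h (funext hc)
    apply Finset.prod_eq_zero (Finset.mem_univ i)
    cases hx : x i <;> cases hc : c i <;> simp_all

private theorem sum_point (f : (Fin N → Bool) → K) :
    f = ∑ c : Fin N → Bool, f c • (fun x : Fin N → Bool =>
      ∏ i, (if x i then (if c i then (1 : K) else 0) else (if c i then 0 else 1))) := by
  funext x
  rw [Finset.sum_apply]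
  simp only [Pi.smul_apply, smul_eq_mul, ind_point]
  simp

theorem dg_top (f : (Fin N → Bool) → K) : f ∈ Dg K N N := by
  rw [sum_point f]
  refine Submodule.sum_mem _ fun c _ => Submodule.smul_mem _ _ ?_
  have h := dg_prod (K := K) (Finset.univ : Finset (Fin N)) (fun i => if c i then (1 : K) else 0)
    (fun i => if c i then 0 else 1)
  rwa [Finset.card_univ, Fintype.card_fin] at h

private theorem finrank_dg (e : ℕ) :
    Module.finrank K (Dg K N e) ≤ ∑ i ∈ Finset.range (e + 1), N.choose i := by
  classical
  set m : Finset (Fin N) → ((Fin N → Bool) → K) := fun A x => ∏ i ∈ A, (if x i then (1 : K) else 0) with hm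
  set S : Finset (Finset (Fin N)) := Finset.univ.filter (fun A => A.card ≤ e) with hS
  have e1 : Dg K N e = Submodule.span K ((S.image m : Finset _) : Set ((Fin N → Bool) → K)) := by
    unfold Dg
    congr 1
    ext f
    rw [Finset.mem_coe, Finset.mem_image]
    constructor
    · rintro ⟨A, hA, rfl⟩
      exact ⟨A, by rw [hS, Finset.mem_filter]; exact ⟨Finset.mem_univ _, hA⟩, rfl⟩
    · rintro ⟨A, hA, rfl⟩
      rw [hS, Finset.mem_filter] at hA
      exact ⟨A, hA.2, rfl⟩
  rw [e1]
  refine (finrank_span_finset_le_card _).trans (Finset.card_image_le.trans ?_)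
  rw [Finset.card_eq_sum_card_fiberwise (f := Finset.card) (t := Finset.range (e + 1)) (by
    intro A hA
    rw [Finset.mem_coe, hS, Finset.mem_filter] at hA
    rw [Finset.mem_coe, Finset.mem_range]
    omega)]
  refine Finset.sum_le_sum fun i _ => ?_
  have h1 : (S.filter (fun A => A.card = i)) ⊆ Finset.powersetCard i (Finset.univ : Finset (Fin N)) := by
    intro A hA
    rw [Finset.mem_filter] at hA
    rw [Finset.mem_powersetCard]
    exact ⟨Finset.subset_univ _, hA.2⟩
  refine (Finset.card_le_card h1).trans (le_of_eq ?_)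
  rw [Finset.card_powersetCard, Finset.card_univ, Fintype.card_fin]

theorem smolensky (ω : K) (h0 : ω ≠ 0) (h1 : ω ≠ 1) {d : ℕ} (P : (Fin N → Bool) → K)
    (hP : P ∈ Dg K N d) (G : Finset (Fin N → Bool))
    (hG : ∀ x ∈ G, P x = ω ^ (Finset.univ.filter (fun i => x i = true)).card) :
    G.card ≤ ∑ i ∈ Finset.range (N / 2 + d + 1), N.choose i := by
  classical
  set e := N / 2 + d with he
  -- functions which agree on `G` with a function of degree at most `e`
  let SS : Submodule K ((Fin N → Bool) → K) :=
    { carrier := {f | ∃ g ∈ Dg K N e, ∀ x ∈ G, f x = g x}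
      add_mem' := by
        rintro f f' ⟨g, hg, h⟩ ⟨g', hg', h'⟩
        refine ⟨g + g', (Dg K N e).add_mem hg hg', fun x hx => ?_⟩
        rw [Pi.add_apply, Pi.add_apply, h x hx, h' x hx]
      zero_mem' := ⟨0, (Dg K N e).zero_mem, fun x _ => rfl⟩
      smul_mem' := by
        rintro c f ⟨g, hg, h⟩
        refine ⟨c • g, (Dg K N e).smul_mem c hg, fun x hx => ?_⟩
        rw [Pi.smul_apply, Pi.smul_apply, h x hx] }
  have hω1 : ω - 1 ≠ 0 := sub_ne_zero.2 h1
  have hu : ∀ x : Fin N → Bool, ω ^ (Finset.univ.filter (fun i => x i = true)).card =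
      ∏ i, (if x i then ω else 1) := by
    intro x
    rw [Finset.prod_ite, Finset.prod_const, Finset.prod_const_one, mul_one]
  have hy : ∀ B : Finset (Fin N), (fun x : Fin N → Bool => ∏ i ∈ B, (if x i then ω else 1)) ∈ SS := by
    intro B
    by_cases hB : B.card ≤ N / 2
    · exact ⟨_, dg_mono (by omega) (dg_prod B (fun _ => ω) (fun _ => 1)), fun x _ => rfl⟩
    · have hc : Bᶜ.card ≤ N / 2 := by
        rw [Finset.card_compl, Fintype.card_fin]
        omega
      refine ⟨fun x => P x * ∏ i ∈ Bᶜ, (if x i then ω⁻¹ else 1), ?_, ?_⟩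
      · exact dg_mono (by omega) (dg_mul hP (dg_prod Bᶜ (fun _ => ω⁻¹) (fun _ => 1)))
      · intro x hx
        show ∏ i ∈ B, (if x i then ω else 1) = P x * ∏ i ∈ Bᶜ, (if x i then ω⁻¹ else 1)
        rw [hG x hx, hu, ← Finset.prod_mul_prod_compl B (fun i => if x i then ω else 1), mul_assoc,
          ← Finset.prod_mul_distrib]
        rw [Finset.prod_eq_one (s := Bᶜ), mul_one]
        intro i _
        by_cases hxi : x i = true
        · rw [if_pos hxi, if_pos hxi, mul_inv_cancel₀ h0]
        · rw [if_neg hxi, if_neg hxi, mul_one]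
  have hall : ∀ f : (Fin N → Bool) → K, f ∈ SS := by
    intro f
    rw [sum_point f]
    refine Submodule.sum_mem _ fun c _ => Submodule.smul_mem _ _ ?_
    -- coefficients
    set α : Fin N → K := fun i => if c i then (ω - 1)⁻¹ else - (ω - 1)⁻¹ with hα
    set β : Fin N → K := fun i => if c i then - (ω - 1)⁻¹ else 1 + (ω - 1)⁻¹ with hβ
    have hfac : ∀ (x : Fin N → Bool) (i : Fin N),
        (if x i then (if c i then (1 : K) else 0) else (if c i then 0 else 1)) =
          α i * (if x i then ω else 1) + β i := by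
      intro x i
      simp only [hα, hβ]
      by_cases hxi : x i = true
      · by_cases hci : c i = true
        · rw [if_pos hxi, if_pos hci, if_pos hci, if_pos hxi, if_pos hci]
          field_simp
          ring
        · rw [if_pos hxi, if_neg hci, if_neg hci, if_pos hxi, if_neg hci]
          field_simp
          ring
      · by_cases hci : c i = true
        · rw [if_neg hxi, if_pos hci, if_pos hci, if_neg hxi, if_pos hci]
          ring
        · rw [if_neg hxi, if_neg hci, if_neg hci, if_neg hxi, if_neg hci]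
          ring
    have hexp : (fun x : Fin N → Bool =>
        ∏ i, (if x i then (if c i then (1 : K) else 0) else (if c i then 0 else 1))) =
        ∑ t ∈ (Finset.univ : Finset (Fin N)).powerset, ((∏ i ∈ t, α i) * ∏ i ∈ Finset.univ \ t, β i) •
          (fun x : Fin N → Bool => ∏ i ∈ t, (if x i then ω else 1)) := by
      funext x
      rw [Finset.sum_apply, Finset.prod_congr rfl (fun i _ => hfac x i), Finset.prod_add]
      refine Finset.sum_congr rfl fun t _ => ?_
      rw [Pi.smul_apply, smul_eq_mul, Finset.prod_mul_distrib]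
      ring
    rw [hexp]
    exact Submodule.sum_mem _ fun t _ => Submodule.smul_mem _ _ (hy t)
  let ρ : (Dg K N e) →ₗ[K] (G → K) :=
    (LinearMap.funLeft K K (Subtype.val : G → (Fin N → Bool))).comp (Dg K N e).subtype
  have hsurj : Function.Surjective ρ := by
    intro f
    obtain ⟨g, hg, hgf⟩ := hall (fun x => if h : x ∈ G then f ⟨x, h⟩ else 0)
    refine ⟨⟨g, hg⟩, ?_⟩
    funext x
    show g x.1 = f x
    rw [← hgf x.1 x.2]
    exact dif_pos x.2
  have h2 : Module.finrank K (G → K) ≤ Module.finrank K (Dg K N e) := by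
    have h3 := LinearMap.finrank_range_le ρ
    rwa [LinearMap.range_eq_top.2 hsurj, finrank_top] at h3
  rw [Module.finrank_fintype_fun_eq_card, Fintype.card_coe] at h2
  exact h2.trans (finrank_dg e)

end C78
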