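import Pool.Agent.C78.TreeC
import Pool.Agent.C78.Smol
import Pool.Agent.C78.Binom

/-!
# C78/Low: the lower bound

Proof.  `q := if p = 2 then 3 else 2`, `g x = decide (q ∣ |x|)` (`treeC` with `q ≤ 3`, enlarge
`q ^ L ≤ 3 ^ L` in `BddC`).  `K = AlgebraicClosure (ZMod p)`, `ω ∈ K` with `ω ^ q = 1`, `ω ≠ 0, 1`:
`ω = -1` for `q = 2` (`p` odd, `CharP.neg_one_ne_one`), a root of `X^2 + X + 1` for `p = 2, q = 3`
(`IsAlgClosed.exists_root` / `IsAlgClosed.exists_aeval_eq_zero`; it is not `1` because `3 ≠ 0`,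
and `ω^3 - 1 = (ω - 1)(ω^2 + ω + 1) = 0`).
Put `m = p ^ k`, `C = 2 * m + 12`.  Let `h` be computed in depth `D` and `C (D+1) ≤ t log₂ L`.
`d = m ^ D`; `ind K h ∈ Dg K (L^t) d` (`dg_of_chain`).  `L ^ t ≥ 2 ^ (t * Nat.log 2 L) ≥
2 ^ (C (D+1))`, so `L ^ t = N' + 2` with `400 (d + 1)^2 ≤ N'`
(`(d+1)^2 ≤ 4 m^(2D) ≤ 4 * 2^(2 m D)`, `1600 * 2^(2mD) + 2 ≤ 2^(11 + 2mD) ≤ 2 ^ (C (D+1))`).
For `e : Fin 2 → Bool`, `x ↦ h (append x e)` has degree `≤ d` on `N'` variables (`dg_restrict`).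
For `s < q ≤ 3` let `e s` be a pattern with `s` ones (`s ≤ 2`).  `G = {x | ∀ s < q, h (x, e s) =
g (x, e s)}`.  `g (x, e s) = true ↔ q ∣ |x| + s`, so on `G`
`ω ^ |x| = ∑_{s<q} (if h (x, e s) then ω⁻¹ ^ s else 0)` (exactly one `s < q` has `q ∣ |x| + s`, and
then `ω^(|x| + s) = 1`), a function of degree `≤ d`.  `smolensky` and `sum_small`:
`5 |G| ≤ 3 * 2^N'`.  If `11 * #{h ≠ g} < 2^(N'+2)`: the `x ∉ G` inject into the disagreements
(choose a bad `s`; the points `append x (e s)` are distinct), so `11 (2^N' - |G|) < 4 * 2^N'`,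
`11 |G| > 7 * 2^N'`, and `55 |G| ≤ 33 * 2^N' < 35 * 2^N' < 55 |G|`, contradiction.
-/

namespace C78

open Finset

variable {K : Type} [Field K]

theorem dg_restrict {N' d : ℕ} {f : (Fin (N' + 2) → Bool) → K} (hf : f ∈ Dg K (N' + 2) d)
    (e : Fin 2 → Bool) : (fun x : Fin N' → Bool => f (Fin.append x e)) ∈ Dg K N' d := by
  classical
  set Λ : ((Fin (N' + 2) → Bool) → K) →ₗ[K] ((Fin N' → Bool) → K) :=
    LinearMap.funLeft K K (fun x : Fin N' → Bool => Fin.append x e) with hΛ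
  have h1 : Submodule.map Λ (Dg K (N' + 2) d) ≤ Dg K N' d := by
    unfold Dg
    rw [Submodule.map_span_le]
    rintro f ⟨A, hA, rfl⟩
    set A' : Finset (Fin N') := Finset.univ.filter (fun i => Fin.castAdd 2 i ∈ A) with hA'
    have hcard : A'.card ≤ d := by
      refine le_trans ?_ hA
      refine Finset.card_le_card_of_injOn (fun i => Fin.castAdd 2 i) ?_ ?_
      · intro i hi
        rw [Finset.mem_coe, hA', Finset.mem_filter] at hi
        exact hi.2
      · intro i _ j _ hij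
        exact Fin.castAdd_injective N' 2 hij
    have e2 : Λ (fun x => ∏ i ∈ A, (if x i then (1 : K) else 0)) =
        (∏ j : Fin 2, if Fin.natAdd N' j ∈ A then (if e j then (1 : K) else 0) else 1) •
          (fun x : Fin N' → Bool => ∏ i ∈ A', (if x i then (1 : K) else 0)) := by
      funext x
      rw [Pi.smul_apply, smul_eq_mul]
      have e3 : ∏ i ∈ A, (if (Fin.append x e) i then (1 : K) else 0) =
          ∏ i, if i ∈ A then (if (Fin.append x e) i then (1 : K) else 0) else 1 := by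
        rw [Finset.prod_ite_mem, Finset.univ_inter]
      show ∏ i ∈ A, (if (Fin.append x e) i then (1 : K) else 0) = _
      rw [e3, Fin.prod_univ_add, mul_comm]
      congr 1
      · refine Finset.prod_congr rfl fun j _ => ?_
        rw [Fin.append_right]
      · rw [hA', Finset.prod_filter]
        refine Finset.prod_congr rfl fun j _ => ?_
        rw [Fin.append_left]
    rw [e2]
    exact Submodule.smul_mem _ _ (Submodule.subset_span ⟨A', hcard, rfl⟩)
  exact h1 (Submodule.mem_map_of_mem hf)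

/-- the number of ones -/
private def wt {n : ℕ} (x : Fin n → Bool) : ℕ := (Finset.univ.filter (fun i => x i = true)).card

/-- a pattern with `s` ones, `s ≤ 2` -/
private def pat (s : ℕ) : Fin 2 → Bool := fun j => decide (j.val < s)

private theorem wt_append {N' : ℕ} (x : Fin N' → Bool) (e : Fin 2 → Bool) :
    wt (Fin.append x e) = wt x + wt e := by
  unfold wt
  rw [Finset.card_filter, Fin.sum_univ_add, Finset.card_filter, Finset.card_filter]
  congr 1
  · refine Finset.sum_congr rfl fun i _ => ?_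
    rw [Fin.append_left]
  · refine Finset.sum_congr rfl fun i _ => ?_
    rw [Fin.append_right]

private theorem wt_pat {s : ℕ} (hs : s ≤ 2) : wt (pat s) = s := by
  interval_cases s <;> decide

private theorem core {q : ℕ} (hq : q = 2 ∨ q = 3) (ω : K) (hω : ω ^ q = 1) (h0 : ω ≠ 0)
    (h1 : ω ≠ 1) {N' d : ℕ} (hN : 400 * (d + 1) ^ 2 ≤ N') (h : BF (N' + 2))
    (hh : ind K h ∈ Dg K (N' + 2) d) :
    2 ^ (N' + 2) ≤ 11 * (Finset.univ.filter (fun x => h x ≠ decide (q ∣ wt x))).card := by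
  classical
  have hq0 : 0 < q := by omega
  set G : Finset (Fin N' → Bool) := Finset.univ.filter (fun x => ∀ s ∈ range q,
    h (Fin.append x (pat s)) = decide (q ∣ wt (Fin.append x (pat s)))) with hG
  set P : (Fin N' → Bool) → K := ∑ s ∈ range q,
    (ω⁻¹ ^ s) • (fun x : Fin N' → Bool => ind K h (Fin.append x (pat s))) with hP
  have hPD : P ∈ Dg K N' d :=
    Submodule.sum_mem _ fun s _ => Submodule.smul_mem _ _ (dg_restrict hh (pat s))
  have hPG : ∀ x ∈ G, P x = ω ^ (Finset.univ.filter (fun i => x i = true)).card := by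
    intro x hx
    rw [hG, Finset.mem_filter] at hx
    have hx2 := hx.2
    have hw : (Finset.univ.filter (fun i => x i = true)).card = wt x := rfl
    rw [hw]
    set w := wt x with hwdef
    have hterm : ∀ s ∈ range q, ((ω⁻¹ ^ s) • (fun x : Fin N' → Bool =>
        ind K h (Fin.append x (pat s)))) x = if q ∣ w + s then ω⁻¹ ^ s else 0 := by
      intro s hs
      have hs' : s < q := Finset.mem_range.1 hs
      rw [Pi.smul_apply, smul_eq_mul]
      have h3 := hx2 s hs
      rw [wt_append, wt_pat (by omega), ← hwdef] at h3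
      unfold ind
      rw [h3]
      by_cases hd : q ∣ w + s
      · rw [if_pos hd, if_pos (by exact decide_eq_true hd), mul_one]
      · rw [if_neg hd, if_neg (by simpa using hd), mul_zero]
    rw [hP, Finset.sum_apply, Finset.sum_congr rfl hterm]
    -- the unique `s`
    obtain ⟨s0, hs0, hd0⟩ : ∃ s0 < q, q ∣ w + s0 := by
      refine ⟨(q - w % q) % q, Nat.mod_lt _ hq0, ?_⟩
      have hlt : w % q < q := Nat.mod_lt _ hq0
      rcases Nat.eq_zero_or_pos (w % q) with h4 | h4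
      · rw [h4, Nat.sub_zero, Nat.mod_self, add_zero]
        exact Nat.dvd_of_mod_eq_zero h4
      · rw [Nat.mod_eq_of_lt (by omega : q - w % q < q)]
        have h5 : w = q * (w / q) + w % q := (Nat.div_add_mod w q).symm
        refine ⟨w / q + 1, ?_⟩
        have h6 : q * (w / q + 1) = q * (w / q) + q := by ring
        rw [h6]
        omega
    rw [Finset.sum_eq_single s0]
    · rw [if_pos hd0]
      obtain ⟨r, hr⟩ := hd0
      have h5 : ω ^ w * ω ^ s0 = 1 := by
        rw [← pow_add, hr, pow_mul, hω, one_pow]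
      rw [inv_pow]
      exact (eq_inv_of_mul_eq_one_left h5).symm
    · intro s hs hne
      rw [if_neg]
      intro hd
      apply hne
      have hs' : s < q := Finset.mem_range.1 hs
      have h6 : (w + s) % q = (w + s0) % q := by
        rw [Nat.mod_eq_zero_of_dvd hd, Nat.mod_eq_zero_of_dvd hd0]
      have h7 : s ≡ s0 [MOD q] := Nat.ModEq.add_left_cancel' w h6
      exact Nat.ModEq.eq_of_lt_of_lt h7 hs' hs0
    · intro h8
      exact absurd (Finset.mem_range.2 hs0) h8
  have h2 := smolensky ω h0 h1 P hPD G hPG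
  have h3 := sum_small N' d hN
  -- the complement of `G`
  set E := Finset.univ.filter (fun x : Fin (N' + 2) → Bool => h x ≠ decide (q ∣ wt x)) with hE
  have hbad : ∀ x : Fin N' → Bool, ∃ y : Fin (N' + 2) → Bool, x ∈ Gᶜ → (y ∈ E ∧
      ∀ i : Fin N', y (Fin.castAdd 2 i) = x i) := by
    intro x
    by_cases hx : x ∈ Gᶜ
    · rw [Finset.mem_compl, hG, Finset.mem_filter, not_and] at hx
      have h4 := hx (Finset.mem_univ x)
      push Not at h4
      obtain ⟨s, _, hs2⟩ := h4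
      refine ⟨Fin.append x (pat s), fun _ => ⟨?_, fun i => Fin.append_left _ _ i⟩⟩
      rw [hE, Finset.mem_filter]
      exact ⟨Finset.mem_univ _, hs2⟩
    · exact ⟨fun _ => true, fun h => absurd h hx⟩
  choose Y hY using hbad
  have h4 : Gᶜ.card ≤ E.card := by
    refine Finset.card_le_card_of_injOn Y ?_ ?_
    · intro x hx
      exact (hY x hx).1
    · intro x hx x' hx' hxx
      funext i
      rw [← (hY x hx).2 i, ← (hY x' hx').2 i, hxx]
  have h5 : G.card + Gᶜ.card = 2 ^ N' := by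
    rw [Finset.card_add_card_compl, Fintype.card_fun, Fintype.card_bool, Fintype.card_fin]
  have h6 : 2 ^ (N' + 2) = 4 * 2 ^ N' := by rw [pow_add]; ring
  rw [h6]
  omega

private theorem exists_omega (p : ℕ) (hp : p.Prime) (F : Type) [Field F] [CharP F p]
    [IsAlgClosed F] : ∃ q : ℕ, (q = 2 ∨ q = 3) ∧ ∃ ω : F, ω ^ q = 1 ∧ ω ≠ 0 ∧ ω ≠ 1 := by
  by_cases h2 : p = 2
  · obtain ⟨ω, hω⟩ := IsAlgClosed.exists_root (Polynomial.X ^ 2 + Polynomial.X + 1 : Polynomial F)
      (by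
        have : (Polynomial.X ^ 2 + Polynomial.X + 1 : Polynomial F).degree = 2 := by compute_degree!
        rw [this]
        norm_num)
    have e : ω ^ 2 + ω + 1 = 0 := by
      have h3 : Polynomial.eval ω (Polynomial.X ^ 2 + Polynomial.X + 1 : Polynomial F) = 0 := hω
      simpa using h3
    refine ⟨3, Or.inr rfl, ω, ?_, ?_, ?_⟩
    · linear_combination (ω - 1) * e
    · rintro rfl
      simp at e
    · rintro rfl
      have h4 : ((2 : ℕ) : F) = 0 := (CharP.cast_eq_zero_iff F p 2).2 (by rw [h2])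
      have h5 : (1 : F) = 0 := by
        push_cast at h4
        linear_combination e - h4
      exact one_ne_zero h5
  · refine ⟨2, Or.inl rfl, -1, by ring, neg_ne_zero.2 one_ne_zero, ?_⟩
    intro h3
    have h4 : ((2 : ℕ) : F) = 0 := by
      push_cast
      linear_combination -h3
    have h5 : p ∣ 2 := (CharP.cast_eq_zero_iff F p 2).1 h4
    exact h2 ((Nat.prime_dvd_prime_iff_eq hp Nat.prime_two).1 h5)

private theorem bddC_mono {n m φ ψ ψ' D S S' : ℕ} {g : BF n} (h : BddC m φ ψ D S g)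
    (hψ : ψ ≤ ψ') (hS : S ≤ S') : BddC m φ ψ' D S' g := by
  obtain ⟨W, h1, h2, h3, h4, h5⟩ := h
  refine ⟨W, h1, h2, fun j a ha => ?_, h4.trans hS, h5⟩
  rcases h3 j a ha with h | h | h | ⟨l, hl, hl2, hl3⟩
  · exact Or.inl h
  · exact Or.inr (Or.inl h)
  · exact Or.inr (Or.inr (Or.inl h))
  · exact Or.inr (Or.inr (Or.inr ⟨l, hl.trans hψ, hl2, hl3⟩))

private theorem size_bound {m D N : ℕ} (hm : 1 ≤ m) (h : 2 ^ ((2 * m + 12) * (D + 1)) ≤ N) :
    400 * (m ^ D + 1) ^ 2 + 2 ≤ N := by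
  refine le_trans ?_ h
  have h1 : m ^ D + 1 ≤ 2 * m ^ D := by
    have : 1 ≤ m ^ D := Nat.one_le_pow _ _ hm
    omega
  have h2 : (m ^ D + 1) ^ 2 ≤ 4 * 2 ^ (2 * m * D) := by
    calc (m ^ D + 1) ^ 2 ≤ (2 * m ^ D) ^ 2 := Nat.pow_le_pow_left h1 2
      _ = 4 * (m ^ (2 * D)) := by rw [mul_pow, ← pow_mul, mul_comm D 2]; norm_num
      _ ≤ 4 * ((2 ^ m) ^ (2 * D)) :=
          Nat.mul_le_mul_left 4 (Nat.pow_le_pow_left (Nat.lt_two_pow_self).le _)
      _ = 4 * 2 ^ (2 * m * D) := by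
          rw [← pow_mul]
          congr 2
          ring
  have h3 : 2 ^ (11 + 2 * m * D) ≤ 2 ^ ((2 * m + 12) * (D + 1)) := by
    apply Nat.pow_le_pow_right (by norm_num)
    have : (2 * m + 12) * (D + 1) = 2 * m * D + 2 * m + 12 * D + 12 := by ring
    omega
  refine le_trans ?_ h3
  have h4 : 2 ^ (11 + 2 * m * D) = 2048 * 2 ^ (2 * m * D) := by
    rw [pow_add]
    norm_num
  have h5 : 1 ≤ 2 ^ (2 * m * D) := Nat.one_le_two_pow
  rw [h4]
  omega

theorem lower (p k : ℕ) (hp : p.Prime) (hk : 1 ≤ k) :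
    ∃ C : ℕ, ∀ L t : ℕ, 1 ≤ L → ∃ g : BF (L ^ t),
      BddC (p ^ k) L (3 ^ L) (2 * t + 1) (4 * (t + 1) * L ^ t * 3 ^ L) g ∧
      ∀ (D S : ℕ) (h : BF (L ^ t)), AC2 (p ^ k) D S h → C * (D + 1) ≤ t * Nat.log 2 L →
        2 ^ (L ^ t) ≤ 11 * (Finset.univ.filter (fun x => h x ≠ g x)).card := by
  have : Fact p.Prime := ⟨hp⟩
  obtain ⟨q, hq, ω, hω, h0, h1⟩ := exists_omega p hp (AlgebraicClosure (ZMod p))
  have hm2 : 2 ≤ p ^ k := hp.two_le.trans (Nat.le_self_pow (by omega) p)
  refine ⟨2 * p ^ k + 12, fun L t hL => ⟨fun x => decide (q ∣ wt x), ?_, ?_⟩⟩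
  · have hqL : q ^ L ≤ 3 ^ L := Nat.pow_le_pow_left (by omega) L
    exact bddC_mono (treeC (p ^ k) q L t hm2 (by omega) hL) hqL (Nat.mul_le_mul_left _ hqL)
  · rintro D S h ⟨W, hW, -, hmem⟩ hC
    have hdeg := dg_of_chain (K := AlgebraicClosure (ZMod p)) hp hk W hW D h hmem
    have hL0 : L ≠ 0 := by omega
    have hN : 2 ^ ((2 * p ^ k + 12) * (D + 1)) ≤ L ^ t := by
      calc 2 ^ ((2 * p ^ k + 12) * (D + 1)) ≤ 2 ^ (t * Nat.log 2 L) :=
            Nat.pow_le_pow_right (by norm_num) hC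
        _ = (2 ^ Nat.log 2 L) ^ t := by rw [← pow_mul, mul_comm]
        _ ≤ L ^ t := Nat.pow_le_pow_left (Nat.pow_log_le_self 2 hL0) t
    have hN2 := size_bound (by omega : 1 ≤ p ^ k) hN
    clear hN hC hmem hW
    revert h
    generalize L ^ t = N at hN2 ⊢
    intro h hdeg
    obtain ⟨N', rfl⟩ : ∃ N', N = N' + 2 := ⟨N - 2, by omega⟩
    exact core hq ω hω h0 h1 (by omega) h hdeg

end C78
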