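import Pool.Agent.C78.Upper
import Pool.Agent.C78.Low

/-!
# C78/Fan: circuits in which all gates have fan-in at most `f`
-/

namespace C78

open Finset

variable {n : ℕ}

/-- One gate of a circuit in which all gates have fan-in at most `f`. -/
def GF (m f : ℕ) (V : Finset (BF n)) (a : BF n) : Prop :=
  (∃ b ∈ V, a = gNot b) ∨
  (∃ l : List (BF n), l.length ≤ f ∧ (∀ b ∈ l, b ∈ V) ∧ (a = gAnd l ∨ a = gOr l ∨ a = gMod m l))

/-- `g` is computed by a circuit of depth at most `D` and size at most `S` with NOT gates and AND,
OR and `MOD_m` gates of fan-in at most `f`. -/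
def FC (m f D S : ℕ) (g : BF n) : Prop :=
  ∃ W : ℕ → Finset (BF n), Monotone W ∧ (∀ a ∈ W 0, IsVar a) ∧
    (∀ j, ∀ a ∈ W (j + 1), a ∈ W j ∨ GF m f (W j) a) ∧ (W D).card ≤ S ∧ g ∈ W D

theorem calc_of_FC {m f D S : ℕ} {g : BF n} (h : FC m f D S g) :
    Calc m (D * lg f + 1) S g := by
  classical
  obtain ⟨W, hW, hW0, hWs, hWn, hg⟩ := h
  have hf := lg_pos f
  have hf0 : 0 < lg f := hf
  refine ⟨fun _ => W 0, fun _ => ∅, fun j => if j = 0 then ∅ else W ((j - 1) / lg f),
    ⟨fun _ _ _ => subset_refl _, fun _ _ _ => subset_refl _, ?_, hW0, rfl, rfl, ?_, ?_, ?_⟩, ?_, ?_⟩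
  · intro i j hij
    simp only
    by_cases hi : i = 0
    · simp [hi]
    · have hj : j ≠ 0 := by omega
      simp only [hi, hj, if_false]
      exact hW (Nat.div_le_div_right (by omega))
  · intro j a ha
    exact Or.inl ha
  · intro j a ha
    exact absurd ha (Finset.notMem_empty _)
  · intro j a ha
    simp only [Nat.succ_ne_zero, if_false, Nat.add_sub_cancel] at ha
    by_cases hj : j = 0
    · subst hj
      simp only [Nat.zero_div] at ha
      exact Or.inr (Or.inl ha)
    · -- `j ≥ 1`
      set q := j / lg f with hq
      by_cases hq' : (j - 1) / lg f = q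
      · left
        simp only [hj, if_false, hq']
        exact ha
      · -- `q = (j-1)/lg f + 1`, so `lg f ∣ j`
        have hqpos : q ≠ 0 := by
          intro h0
          apply hq'
          have h1 : (j - 1) / lg f ≤ q := Nat.div_le_div_right (Nat.sub_le j 1)
          rw [h0] at h1 ⊢
          exact Nat.le_zero.1 h1
        obtain ⟨r, hr⟩ : ∃ r, q = r + 1 := Nat.exists_eq_succ_of_ne_zero hqpos
        rw [hr] at ha
        have hle : (r + 1) * lg f ≤ j := by
          rw [← hr, hq]
          exact Nat.div_mul_le_self j (lg f)
        rcases hWs r a ha with h | h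
        · -- already at `r`
          left
          simp only [hj, if_false]
          refine hW ?_ h
          rw [Nat.le_div_iff_mul_le hf0]
          have : r * lg f + lg f ≤ j := by rw [← Nat.succ_mul]; exact hle
          omega
        · -- a gate over `W r`; available at time `r * lg f + 1`
          have ht : r * lg f + 1 + lg f ≤ j + 1 := by
            have : r * lg f + lg f ≤ j := by rw [← Nat.succ_mul]; exact hle
            omega
          have hWr : (if r * lg f + 1 = 0 then (∅ : Finset (BF n)) else
              W ((r * lg f + 1 - 1) / lg f)) = W r := by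
            simp only [Nat.succ_ne_zero, if_false, Nat.add_sub_cancel]
            rw [Nat.mul_div_cancel _ hf0]
          rcases h with ⟨b, hb, rfl⟩ | ⟨l, hl1, hl2, hl3⟩
          · right; right; right; left
            refine ⟨b, ?_, rfl⟩
            simp only [hj, if_false]
            refine hW ?_ hb
            rw [Nat.le_div_iff_mul_le hf0]
            have : r * lg f + lg f ≤ j := by rw [← Nat.succ_mul]; exact hle
            omega
          · right; right; right; right
            refine ⟨r * lg f + 1, l, ?_, ?_, hl3⟩
            · have := lg_mono hl1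
              omega
            · intro b hb
              simp only
              rw [hWr]
              exact hl2 b hb
  · have e : (D * lg f + 1 - 1) / lg f = D := by
      rw [Nat.add_sub_cancel, Nat.mul_div_cancel _ hf0]
    simp only [Nat.succ_ne_zero, if_false, e, Finset.union_empty]
    rw [Finset.union_eq_right.2 (hW (Nat.zero_le D))]
    exact hWn
  · have e : (D * lg f + 1 - 1) / lg f = D := by
      rw [Nat.add_sub_cancel, Nat.mul_div_cancel _ hf0]
    simp only [Nat.succ_ne_zero, if_false, e]
    exact Finset.mem_union_right _ hg

end C78
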