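import Pool.Agent.C78.Alt
import Pool.Agent.C78.Fan

/-!
# C78/Final: assembly
-/

namespace C78

open Finset

variable {n : ℕ}

theorem AC2.mono {m D D' S S' : ℕ} {g : BF n} (h : AC2 m D S g) (hD : D ≤ D') (hS : S ≤ S') :
    AC2 m D' S' g := by
  obtain ⟨W, ⟨h1, h2, h3⟩, h4, h5⟩ := h
  refine ⟨fun j => W (min j D), ⟨fun i j hij => h1 (by omega), ?_, fun j a ha => ?_⟩, ?_, ?_⟩
  · simpa using h2
  · simp only at ha ⊢
    rcases Nat.lt_or_ge j D with hj | hj
    · have e1 : min (j + 1) D = j + 1 := by omega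
      have e2 : min j D = j := by omega
      rw [e1] at ha
      rw [e2]
      exact h3 j a ha
    · have e1 : min (j + 1) D = D := by omega
      have e2 : min j D = D := by omega
      rw [e1] at ha
      rw [e2]
      exact Or.inl ha
  · simp only [min_eq_right hD]
    exact h4.trans hS
  · simp only [min_eq_right hD]
    exact h5

theorem final1 (m : ℕ) (hm : 2 ≤ m) : ∃ C : ℕ,
    (∀ (n D S : ℕ) (g : BF n), Calc m D S g →
      AC2 m (C * (D + Nat.log 2 (n + 1) + 1)) ((S + n + D + 2) ^ C) g) ∧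
    (∀ (n f D S : ℕ) (g : BF n), FC m f D S g →
      AC2 m (C * (D * lg f + Nat.log 2 (n + 1) + 1)) ((S + n + D * lg f + 2) ^ C) g) ∧
    (∀ (n t D S : ℕ) (g : BF n), AltC m t D S g →
      AC2 m (C * (D + t * lg S + Nat.log 2 (n + 1) + 1)) ((S + n + D + t * lg S + 2) ^ C) g) := by
  obtain ⟨C, hC⟩ := upper m hm
  have sq : ∀ X Y : ℕ, 3 ≤ X → Y ≤ 3 * X → Y ^ C ≤ X ^ (4 * C) := by
    intro X Y hX hY
    have h1 : Y ≤ X ^ 2 := by nlinarith
    calc Y ^ C ≤ (X ^ 2) ^ C := Nat.pow_le_pow_left h1 C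
      _ = X ^ (2 * C) := by rw [← pow_mul]
      _ ≤ X ^ (4 * C) := Nat.pow_le_pow_right (by omega) (by omega)
  refine ⟨4 * C, fun n D S g hg => ?_, fun n f D S g hg => ?_, fun n t D S g hg => ?_⟩
  · refine (hC n D S g hg).mono ?_ ?_
    · have : C * (D + Nat.log 2 (n + 1) + 1) ≤ 4 * (C * (D + Nat.log 2 (n + 1) + 1)) := by omega
      rw [mul_assoc]
      exact this
    · exact Nat.pow_le_pow_right (by omega) (by omega)
  · have hS : 1 ≤ S := by
      obtain ⟨W, _, _, _, h4, h5⟩ := hg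
      exact le_trans (Finset.card_pos.2 ⟨g, h5⟩) h4
    refine (hC n (D * lg f + 1) S g (calc_of_FC hg)).mono ?_ ?_
    · rw [mul_assoc, mul_comm 4, mul_assoc]
      apply Nat.mul_le_mul_left
      omega
    · exact sq _ _ (by omega) (by omega)
  · have hS : 1 ≤ S := by
      obtain ⟨W, _, _, _, h4, h5⟩ := hg
      exact le_trans (Finset.card_pos.2 ⟨g, h5⟩) h4
    have h1 : t * (lg S + 2) ≤ 3 * (t * lg S) := by
      have := lg_pos S
      calc t * (lg S + 2) ≤ t * (3 * lg S) := Nat.mul_le_mul_left _ (by omega)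
        _ = 3 * (t * lg S) := by ring
    refine (hC n (D + t * (lg S + 2) + 1) S g (calc_of_AltC hg)).mono ?_ ?_
    · rw [mul_assoc, mul_comm 4, mul_assoc]
      apply Nat.mul_le_mul_left
      omega
    · exact sq _ _ (by omega) (by omega)

end C78
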