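import Pool.Agent.C78.Pr

/-!
# C78/PrLin: random linear combinations

* `pr_lin`: let `v j ≠ 0`.  The map `ρ ↦ (∑ i, ρ i * v i, ρ restricted to i ≠ j)` is injective, so
  `card {ρ | ∑ = 0} * card K ≤ card (ι → K)`: concretely the map
  `{ρ | ∑ ρ i v i = 0} × K → (ι → K)`, `(ρ, c) ↦ Function.update ρ j (ρ j + c)` is injective
  (`c` is recovered from `∑ ρ' i v i = c * v j`).
* `pr_lin8`: `u : Fin 8 → ι → ZMod p`; the 8 events are independent and equal: `pr_pi_all` with
  `s = univ` gives `(pr ...) ^ 8 ≤ (1 / p) ^ 8 ≤ (1 / 2) ^ 8`.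
* `pr_fun8`: apply `pr_lin8` to `v t = b.repr z t`, not all zero since `z ≠ 0`.
-/

namespace C78

open Finset

theorem pr_lin {K : Type*} [Field K] [Fintype K] {ι : Type*} [Fintype ι] [DecidableEq ι]
    (v : ι → K) (hv : ∃ i, v i ≠ 0) :
    pr (fun ρ : ι → K => ∑ i, ρ i * v i = 0) ≤ 1 / (Fintype.card K : ℝ) := by
  classical
  obtain ⟨j, hj⟩ := hv
  have hsum : ∀ (ρ : ι → K) (c : K),
      ∑ i, Function.update ρ j (ρ j + c) i * v i = ∑ i, ρ i * v i + c * v j := by
    intro ρ c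
    rw [← Finset.add_sum_erase _ _ (mem_univ j), ← Finset.add_sum_erase _ (fun i => ρ i * v i)
      (mem_univ j), Function.update_self]
    have h1 : ∑ i ∈ univ.erase j, Function.update ρ j (ρ j + c) i * v i =
        ∑ i ∈ univ.erase j, ρ i * v i := by
      refine sum_congr rfl fun i hi => ?_
      rw [Function.update_of_ne (ne_of_mem_erase hi)]
    rw [h1]
    ring
  rw [pr]
  set A : Finset (ι → K) := univ.filter (fun ρ : ι → K => ∑ i, ρ i * v i = 0) with hA
  have h1 : (A ×ˢ (univ : Finset K)).card ≤ (univ : Finset (ι → K)).card := by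
    refine card_le_card_of_injOn (fun x => Function.update x.1 j (x.1 j + x.2))
      (fun x _ => mem_coe.2 (mem_univ _)) ?_
    rintro ⟨ρ, c⟩ hx ⟨ρ', c'⟩ hx' h
    have hρ : ∑ i, ρ i * v i = 0 := (mem_filter.1 (mem_product.1 (mem_coe.1 hx)).1).2
    have hρ' : ∑ i, ρ' i * v i = 0 := (mem_filter.1 (mem_product.1 (mem_coe.1 hx')).1).2
    simp only at h
    have h2 := hsum ρ c
    have h3 := hsum ρ' c'
    rw [h, h3, hρ, hρ', zero_add, zero_add] at h2
    have hc : c = c' := (mul_right_cancel₀ hj h2).symm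
    subst hc
    refine Prod.ext (funext fun i => ?_) rfl
    have h4 := congrFun h i
    by_cases hi : i = j
    · subst hi
      rw [Function.update_self, Function.update_self] at h4
      exact add_right_cancel h4
    · rw [Function.update_of_ne hi, Function.update_of_ne hi] at h4
      exact h4
  rw [card_product, card_univ, card_univ] at h1
  have h2 : (A.card : ℝ) * (Fintype.card K : ℝ) ≤ (Fintype.card (ι → K) : ℝ) := by
    exact_mod_cast h1
  have h3 : (0 : ℝ) < (Fintype.card K : ℝ) := by exact_mod_cast Fintype.card_pos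
  have h4 : (0 : ℝ) < (Fintype.card (ι → K) : ℝ) := by exact_mod_cast Fintype.card_pos
  rw [div_le_div_iff₀ h4 h3]
  linarith

theorem pr_lin8 {p : ℕ} [Fact p.Prime] {ι : Type*} [Fintype ι] [DecidableEq ι]
    (v : ι → ZMod p) (hv : ∃ i, v i ≠ 0) :
    pr (fun u : Fin 8 → ι → ZMod p => ∀ k, ∑ i, u k i * v i = 0) ≤ 1 / 256 := by
  have h1 := pr_pi_all (Ω := ι → ZMod p) (univ : Finset (Fin 8))
    (fun ρ => ∑ i, ρ i * v i = 0)
  have h2 : pr (fun ρ : ι → ZMod p => ∑ i, ρ i * v i = 0) ≤ 1 / 2 := by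
    refine (pr_lin v hv).trans ?_
    rw [ZMod.card]
    have hp : (2 : ℝ) ≤ (p : ℝ) := by exact_mod_cast (Fact.out : p.Prime).two_le
    exact one_div_le_one_div_of_le (by norm_num) hp
  have h3 : pr (fun u : Fin 8 → ι → ZMod p => ∀ k, ∑ i, u k i * v i = 0) =
      pr (fun ρ : ι → ZMod p => ∑ i, ρ i * v i = 0) ^ 8 := by
    rw [card_univ, Fintype.card_fin] at h1
    rw [← h1]
    congr 1
    funext u
    simp
  rw [h3]
  calc pr (fun ρ : ι → ZMod p => ∑ i, ρ i * v i = 0) ^ 8 ≤ (1 / 2 : ℝ) ^ 8 :=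
        pow_le_pow_left₀ (pr_nonneg _) h2 8
    _ = 1 / 256 := by norm_num

end C78
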