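import Pool.Agent.C78.Pr
import Pool.Agent.C78.Chain

/-!
# C78/PrMaj: trees of majorities of three

`Tr ι h` = ternary trees of height `h` with leaves in `ι` (as a nested product).
* `pr_tree`: induction on `h`.  `h = 0`: `(1/3) * (3 e)^1 = e`.  Step: if the majority of three
  values is wrong, two of them are wrong; the three subtrees are independent, so with
  `q = (1/3)(3e)^(2^h)` the probability is at most `3 q^2 = (1/3) (3 q)^2 = (1/3) (3e)^(2^(h+1))`
  (`pr_or_le`, `pr_and_prod`, `pr_fst`, `pr_snd`, `pr_mono`).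
* `loc_tree`: induction on `h`: `maj a b c = (a && b) || ((a || b) && c)` with 4 gates in depth 3:
  sizes `3 * (4 * 3^h) + 4`?  Use the sharper inductive statement size `2 * 3 ^ h - 2`
  (`h = 0`: size 0; step: `3 * (2 * 3^h - 2) + 4 = 2 * 3^(h+1) - 2`).
* numerical lemmas: with `ℓ = Nat.log 2 (u + 4) ≥ 2`, `u + 4 < 2 ^ (ℓ + 1)`,
  `2 ^ (lg u) ≤ ℓ < 2 ^ (lg u + 1)`.  `num1`: `2 ^ (lg u + 3) = 8 * 2 ^ lg u > 4 * ℓ`,
  `(3/16)^(4ℓ) ≤ (1/4)^(4ℓ) = 2^(-8ℓ)` and `100 u ≤ 2 ^ (ℓ + 8) ≤ 2 ^ (8 ℓ)` since `7ℓ ≥ 14 ≥ 8`.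
  `num2`: `2^(lg S + 4) > 8 ℓ`, `(3/16)^(8ℓ) ≤ 2^(-16 ℓ)`, `1000 S ≤ 2^(10 + ℓ + 1) ≤ 2^(16 ℓ)`.
  `num3`: `2 ^ (Nat.log 2 (n + 1) + 1) > n + 1`, `(3/16)^(n+1) ≤ (1/4)^(n+1)`.
-/

namespace C78

open Finset

/-- ternary trees of height `h` with leaves in `ι` -/
def Tr (ι : Type) : ℕ → Type
  | 0 => ι
  | h + 1 => Tr ι h × Tr ι h × Tr ι h

noncomputable instance trFintype {ι : Type} [Fintype ι] : (h : ℕ) → Fintype (Tr ι h)
  | 0 => inferInstanceAs (Fintype ι)
  | h + 1 => by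
    haveI := trFintype (ι := ι) h
    exact inferInstanceAs (Fintype (Tr ι h × Tr ι h × Tr ι h))

instance trNonempty {ι : Type} [Nonempty ι] : (h : ℕ) → Nonempty (Tr ι h)
  | 0 => inferInstanceAs (Nonempty ι)
  | h + 1 => by
    have := trNonempty (ι := ι) h
    exact inferInstanceAs (Nonempty (Tr ι h × Tr ι h × Tr ι h))

/-- majority of three bits -/
def maj3 (a b c : Bool) : Bool := (a && b) || ((a || b) && c)

/-- value of a tree of majorities -/
def evB {ι : Type} (f : ι → Bool) : (h : ℕ) → Tr ι h → Bool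
  | 0, t => f t
  | h + 1, t => maj3 (evB f h t.1) (evB f h t.2.1) (evB f h t.2.2)

/-- the corresponding operation on Boolean functions -/
def evT {n : ℕ} {ι : Type} (β : ι → BF n) (h : ℕ) (τ : Tr ι h) : BF n :=
  fun x => evB (fun i => β i x) h τ

private theorem maj3_ne {a b c t : Bool} (h : maj3 a b c ≠ t) :
    (a ≠ t ∧ b ≠ t) ∨ ((a ≠ t ∧ c ≠ t) ∨ (b ≠ t ∧ c ≠ t)) := by
  revert h
  revert a b c t
  decide

theorem pr_tree {ι : Type} [Fintype ι] [Nonempty ι] (f : ι → Bool) (t : Bool) (h : ℕ) (e : ℝ)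
    (he : pr (fun i => f i ≠ t) ≤ e) :
    pr (fun τ : Tr ι h => evB f h τ ≠ t) ≤ (1 / 3) * (3 * e) ^ (2 ^ h) := by
  induction h with
  | zero =>
    have h1 : pr (fun τ : Tr ι 0 => evB f 0 τ ≠ t) ≤ e := he
    simpa using h1
  | succ h ih =>
    set q : Tr ι h → Prop := fun τ => evB f h τ ≠ t with hq
    have h0 : 0 ≤ pr q := pr_nonneg q
    have h1 : pr (fun τ : Tr ι h × Tr ι h × Tr ι h => evB f (h + 1) τ ≠ t) ≤
        pr (fun τ : Tr ι h × Tr ι h × Tr ι h => (q τ.1 ∧ q τ.2.1) ∨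
          ((q τ.1 ∧ q τ.2.2) ∨ (q τ.2.1 ∧ q τ.2.2))) :=
      pr_mono fun τ hτ => maj3_ne hτ
    have h2 : pr (fun τ : Tr ι h × Tr ι h × Tr ι h => q τ.1 ∧ q τ.2.1) = pr q * pr q := by
      rw [pr_and_prod q (fun w : Tr ι h × Tr ι h => q w.1), pr_fst]
    have h3 : pr (fun τ : Tr ι h × Tr ι h × Tr ι h => q τ.1 ∧ q τ.2.2) = pr q * pr q := by
      rw [pr_and_prod q (fun w : Tr ι h × Tr ι h => q w.2), pr_snd]
    have h4 : pr (fun τ : Tr ι h × Tr ι h × Tr ι h => q τ.2.1 ∧ q τ.2.2) = pr q * pr q := by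
      rw [pr_snd (fun w : Tr ι h × Tr ι h => q w.1 ∧ q w.2), pr_and_prod]
    have h5 := pr_or_le (fun τ : Tr ι h × Tr ι h × Tr ι h => q τ.1 ∧ q τ.2.1)
      (fun τ => (q τ.1 ∧ q τ.2.2) ∨ (q τ.2.1 ∧ q τ.2.2))
    have h6 := pr_or_le (fun τ : Tr ι h × Tr ι h × Tr ι h => q τ.1 ∧ q τ.2.2)
      (fun τ => q τ.2.1 ∧ q τ.2.2)
    have h7 : pr q * pr q ≤ ((1 / 3) * (3 * e) ^ (2 ^ h)) * ((1 / 3) * (3 * e) ^ (2 ^ h)) :=
      mul_le_mul ih ih h0 (h0.trans ih)
    have h8 : (3 * e) ^ (2 ^ (h + 1)) = (3 * e) ^ (2 ^ h) * (3 * e) ^ (2 ^ h) := by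
      rw [← pow_add]
      congr 1
      ring
    show pr (fun τ : Tr ι h × Tr ι h × Tr ι h => evB f (h + 1) τ ≠ t) ≤ _
    rw [h8]
    linarith

private theorem loc_two {n m : ℕ} {V : Finset (BF n)} {δ σ : ℕ} {a b : BF n}
    (ha : Loc m V δ σ a) (hb : Loc m V δ σ b) : ∀ c ∈ [a, b], Loc m V δ σ c := by
  intro c hc
  rcases List.mem_cons.1 hc with rfl | hc
  · exact ha
  · rw [List.mem_singleton.1 hc]
    exact hb

/-- five new functions computed from three -/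
private def ch5 {n : ℕ} (a b c : BF n) : ℕ → Finset (BF n)
  | 0 => ∅
  | 1 => {gAnd [a, b], gOr [a, b]}
  | 2 => {gAnd [a, b], gOr [a, b], gAnd [gOr [a, b], c]}
  | _ + 3 => {gAnd [a, b], gOr [a, b], gAnd [gOr [a, b], c],
      gOr [gAnd [a, b], gAnd [gOr [a, b], c]]}

private theorem loc_maj {n m : ℕ} (V : Finset (BF n)) (a b c : BF n) (ha : a ∈ V) (hb : b ∈ V)
    (hc : c ∈ V) : Loc m V 3 4 (fun x => maj3 (a x) (b x) (c x)) := by
  have e : (fun x => maj3 (a x) (b x) (c x)) = gOr [gAnd [a, b], gAnd [gOr [a, b], c]] := by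
    funext x
    simp [maj3, gOr, gAnd]
  rw [e]
  have g1 : ∀ U : Finset (BF n), G2 m (V ∪ U) (gAnd [a, b]) := fun U =>
    Or.inr (Or.inl ⟨[a, b], by simp, by
      intro d hd
      rcases List.mem_cons.1 hd with rfl | hd
      · exact mem_union_left _ ha
      · rw [List.mem_singleton.1 hd]
        exact mem_union_left _ hb, Or.inl rfl⟩)
  have g2 : ∀ U : Finset (BF n), G2 m (V ∪ U) (gOr [a, b]) := fun U =>
    Or.inr (Or.inl ⟨[a, b], by simp, by
      intro d hd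
      rcases List.mem_cons.1 hd with rfl | hd
      · exact mem_union_left _ ha
      · rw [List.mem_singleton.1 hd]
        exact mem_union_left _ hb, Or.inr rfl⟩)
  have g3 : ∀ U : Finset (BF n), gOr [a, b] ∈ U → G2 m (V ∪ U) (gAnd [gOr [a, b], c]) :=
    fun U hU => Or.inr (Or.inl ⟨[gOr [a, b], c], by simp, by
      intro d hd
      rcases List.mem_cons.1 hd with rfl | hd
      · exact mem_union_right _ hU
      · rw [List.mem_singleton.1 hd]
        exact mem_union_left _ hc, Or.inl rfl⟩)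
  have g4 : ∀ U : Finset (BF n), gAnd [a, b] ∈ U → gAnd [gOr [a, b], c] ∈ U →
      G2 m (V ∪ U) (gOr [gAnd [a, b], gAnd [gOr [a, b], c]]) :=
    fun U hU hU' => Or.inr (Or.inl ⟨[gAnd [a, b], gAnd [gOr [a, b], c]], by simp, by
      intro d hd
      rcases List.mem_cons.1 hd with rfl | hd
      · exact mem_union_right _ hU
      · rw [List.mem_singleton.1 hd]
        exact mem_union_right _ hU', Or.inr rfl⟩)
  refine ⟨ch5 a b c, monotone_nat_of_le_succ ?_, rfl, ?_, card_le_four, Or.inr ?_⟩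
  · intro j
    match j with
    | 0 => exact empty_subset _
    | 1 =>
      intro d hd
      simp only [ch5, mem_singleton, mem_insert] at hd ⊢
      tauto
    | 2 =>
      intro d hd
      simp only [ch5, mem_singleton, mem_insert] at hd ⊢
      tauto
    | j + 3 => exact Subset.refl _
  · intro j
    match j with
    | 0 =>
      intro d hd
      simp only [ch5, mem_singleton, mem_insert] at hd
      rcases hd with rfl | rfl
      · exact Or.inr (g1 _)
      · exact Or.inr (g2 _)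
    | 1 =>
      intro d hd
      simp only [ch5, mem_singleton, mem_insert] at hd
      rcases hd with rfl | rfl | rfl
      · exact Or.inr (g1 _)
      · exact Or.inr (g2 _)
      · exact Or.inr (g3 _ (by simp [ch5]))
    | 2 =>
      intro d hd
      simp only [ch5, mem_singleton, mem_insert] at hd
      rcases hd with rfl | rfl | rfl | rfl
      · exact Or.inr (g1 _)
      · exact Or.inr (g2 _)
      · exact Or.inr (g3 _ (by simp [ch5]))
      · exact Or.inr (g4 _ (by simp [ch5]) (by simp [ch5]))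
    | j + 3 =>
      intro d hd
      exact Or.inl hd
  · simp [ch5]

private theorem loc_tree' {n m : ℕ} {ι : Type} (V : Finset (BF n)) (β : ι → BF n)
    (hβ : ∀ i, β i ∈ V) (h : ℕ) (τ : Tr ι h) :
    Loc m V (3 * h) (2 * 3 ^ h - 2) (evT β h τ) := by
  induction h with
  | zero => exact loc_mem (hβ τ)
  | succ h ih =>
    have hpos : 1 ≤ 3 ^ h := Nat.one_le_pow _ _ (by norm_num)
    have h1 : ∀ b ∈ ({evT β h τ.1, evT β h τ.2.1, evT β h τ.2.2} : Finset (BF n)),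
        Loc m V (3 * h) (2 * 3 ^ h - 2) b := by
      intro b hb
      simp only [mem_insert, mem_singleton] at hb
      rcases hb with rfl | rfl | rfl
      · exact ih _
      · exact ih _
      · exact ih _
    have h2 := loc_maj (m := m) ({evT β h τ.1, evT β h τ.2.1, evT β h τ.2.2} : Finset (BF n))
      (evT β h τ.1) (evT β h τ.2.1) (evT β h τ.2.2) (by simp) (by simp) (by simp)
    have h3 := loc_trans h1 h2
    have h4 : ({evT β h τ.1, evT β h τ.2.1, evT β h τ.2.2} : Finset (BF n)).card *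
        (2 * 3 ^ h - 2) ≤ 3 * (2 * 3 ^ h - 2) := Nat.mul_le_mul_right _ card_le_three
    have h5 : 3 ^ (h + 1) = 3 * 3 ^ h := by ring
    exact loc_mono (Subset.refl _) (by omega) (by omega) h3

theorem loc_tree {n m : ℕ} {ι : Type} (V : Finset (BF n)) (β : ι → BF n) (hβ : ∀ i, β i ∈ V)
    (h : ℕ) (τ : Tr ι h) : Loc m V (3 * h) (4 * 3 ^ h) (evT β h τ) :=
  loc_mono (Subset.refl _) le_rfl (by omega) (loc_tree' V β hβ h τ)

private theorem log_ge_two (u : ℕ) : 2 ≤ Nat.log 2 (u + 4) := by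
  have h : Nat.log 2 (2 ^ 2) ≤ Nat.log 2 (u + 4) := Nat.log_mono_right (by omega)
  rwa [Nat.log_pow (by norm_num)] at h

private theorem lg_lt (u : ℕ) : Nat.log 2 (u + 4) < 2 ^ (lg u + 1) :=
  Nat.lt_pow_succ_log_self (by norm_num) _

private theorem lt_two (u : ℕ) : u + 4 < 2 ^ (Nat.log 2 (u + 4) + 1) :=
  Nat.lt_pow_succ_log_self (by norm_num) _

private theorem quarter (k : ℕ) : ((3 : ℝ) / 16) ^ k ≤ 1 / 4 ^ k := by
  rw [← one_div_pow]
  exact pow_le_pow_left₀ (by norm_num) (by norm_num) _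

private theorem num_gen (u C e b : ℕ) (hC : C ≤ 2 ^ e)
    (he : e + Nat.log 2 (u + 4) + 1 ≤ 2 * b) :
    ((C * u : ℕ) : ℝ) * (3 / 16) ^ b ≤ 1 := by
  have h1 : C * u ≤ 2 ^ e * 2 ^ (Nat.log 2 (u + 4) + 1) :=
    Nat.mul_le_mul hC (by
      have := lt_two u
      omega)
  have h2 : C * u ≤ 4 ^ b := by
    refine h1.trans ?_
    rw [← pow_add, show (4 : ℕ) = 2 ^ 2 by norm_num, ← pow_mul]
    exact Nat.pow_le_pow_right (by norm_num) (by omega)
  have h3 : ((C * u : ℕ) : ℝ) ≤ 4 ^ b := by exact_mod_cast h2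
  have h4 : (0 : ℝ) < 4 ^ b := by positivity
  calc ((C * u : ℕ) : ℝ) * (3 / 16) ^ b ≤ 4 ^ b * (1 / 4 ^ b) := by
        apply mul_le_mul h3 (quarter b) (by positivity) h4.le
    _ = 1 := by field_simp

theorem num1 (u : ℕ) : (100 * u : ℝ) * (3 / 16) ^ (2 ^ (lg u + 3)) ≤ 1 := by
  have h1 := log_ge_two u
  have h2 := lg_lt u
  have h3 : 2 ^ (lg u + 3) = 4 * 2 ^ (lg u + 1) := by ring
  have h := num_gen u 100 7 (2 ^ (lg u + 3)) (by norm_num) (by omega)
  push_cast at h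
  exact h

theorem num2 (S : ℕ) : (1000 * S : ℝ) * (3 / 16) ^ (2 ^ (lg S + 4)) ≤ 1 := by
  have h1 := log_ge_two S
  have h2 := lg_lt S
  have h3 : 2 ^ (lg S + 4) = 8 * 2 ^ (lg S + 1) := by ring
  have h := num_gen S 1000 10 (2 ^ (lg S + 4)) (by norm_num) (by omega)
  push_cast at h
  exact h

theorem num3 (n : ℕ) : (2 : ℝ) ^ n * (3 / 16) ^ (2 ^ (Nat.log 2 (n + 1) + 1)) < 1 := by
  have h1 : n + 1 < 2 ^ (Nat.log 2 (n + 1) + 1) := Nat.lt_pow_succ_log_self (by norm_num) _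
  set b := 2 ^ (Nat.log 2 (n + 1) + 1) with hb
  have h2 : (2 : ℝ) ^ n < 4 ^ b := by
    have h3 : (2 : ℝ) ^ n < 2 ^ b := pow_lt_pow_right₀ (by norm_num) (by omega)
    exact h3.trans_le (pow_le_pow_left₀ (by norm_num) (by norm_num) _)
  have h4 : (0 : ℝ) < 4 ^ b := by positivity
  calc (2 : ℝ) ^ n * (3 / 16) ^ b ≤ 2 ^ n * (1 / 4 ^ b) :=
        mul_le_mul_of_nonneg_left (quarter b) (by positivity)
    _ < 4 ^ b * (1 / 4 ^ b) := mul_lt_mul_of_pos_right h2 (by positivity)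
    _ = 1 := by field_simp

theorem lg_pos (k : ℕ) : 1 ≤ lg k := by
  have h1 := log_ge_two k
  have h : Nat.log 2 2 ≤ Nat.log 2 (Nat.log 2 (k + 4)) := Nat.log_mono_right h1
  have h2 : Nat.log 2 2 = 1 := by norm_num
  rw [h2] at h
  exact h

theorem lg_mono : Monotone lg := fun _ _ h =>
  Nat.log_mono_right (Nat.log_mono_right (by omega))

/-- `3 ^ lg k` is small -/
theorem pow_lg_le (k : ℕ) : 3 ^ lg k ≤ (k + 4) ^ 2 := by
  have h1 := log_ge_two k
  have h2 : 2 ^ lg k ≤ Nat.log 2 (k + 4) := Nat.pow_log_le_self 2 (by omega)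
  have h3 : Nat.log 2 (k + 4) < k + 4 := Nat.log_lt_self 2 (by omega)
  calc 3 ^ lg k ≤ 4 ^ lg k := Nat.pow_le_pow_left (by norm_num) _
    _ = (2 ^ lg k) ^ 2 := by
        rw [show (4 : ℕ) = 2 ^ 2 by norm_num, ← pow_mul, ← pow_mul, mul_comm]
    _ ≤ (k + 4) ^ 2 := Nat.pow_le_pow_left (by omega) 2

end C78
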