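import Pool.Agent.C78.Pr

/-!
# C78/Sample: few good samples

Proof.  Let `k = n + 1`, `R = 16 k`.  Fix `x`.  If more than `k` indices are bad, some set `T` of
`k + 1` indices consists of bad indices: by `pr_exists_le` over `T ∈ powersetCard (k+1) univ` and
`pr_pi_all`, the probability over `s : Fin R → Ω` is at most
`(R choose (k+1)) * (1/100)^(k+1)`.  Now `R choose (k+1) ≤ R^(k+1) / (k+1)!`
(`Nat.choose_le_pow_div`) and `(j / 3)^j ≤ j!` (induction: `((j+1)/3)^(j+1) =
((j+1)/3) (j/3)^j (1+1/j)^j ≤ (j+1) j!` as `(1+1/j)^j ≤ 3`, e.g. from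
`Real.add_one_le_exp`/`Real.exp_one_lt_d9`; or prove `j^j ≤ 3^j * j!` in another way).  So the
probability is at most `(3 * 16 k / (100 (k+1)))^(k+1) ≤ (48/100)^(k+1) ≤ (1/2)^(n+2)`.
Union bound over the `2^n` inputs `x`: total `≤ 2^n / 2^(n+2) < 1`; take `s` outside
(`exists_of_pr_lt_one`).
-/

namespace C78

open Finset

private theorem choose_bound (k : ℕ) (hk : 1 ≤ k) :
    (16 * k).choose (k + 1) * 15 ^ (15 * k) ≤ 15 * 16 ^ (16 * k) := by
  have h1 : 15 ^ (15 * k - 1) * 1 ^ (16 * k - (15 * k - 1)) * (16 * k).choose (15 * k - 1) ≤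
      ∑ m ∈ range (16 * k + 1), 15 ^ m * 1 ^ (16 * k - m) * (16 * k).choose m :=
    single_le_sum (f := fun m => 15 ^ m * 1 ^ (16 * k - m) * (16 * k).choose m)
      (fun _ _ => Nat.zero_le _) (mem_range.2 (by omega))
  have h2 : (15 + 1) ^ (16 * k) =
      ∑ m ∈ range (16 * k + 1), 15 ^ m * 1 ^ (16 * k - m) * (16 * k).choose m :=
    add_pow 15 1 (16 * k)
  rw [← h2, one_pow, mul_one] at h1
  have h3 : (16 * k).choose (15 * k - 1) = (16 * k).choose (k + 1) := by
    rw [← Nat.choose_symm (show k + 1 ≤ 16 * k by omega)]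
    congr 1
    omega
  rw [h3] at h1
  have h4 : 15 ^ (15 * k) = 15 * 15 ^ (15 * k - 1) := by
    rw [← pow_succ']
    congr 1
    omega
  calc (16 * k).choose (k + 1) * 15 ^ (15 * k)
      = 15 * (15 ^ (15 * k - 1) * (16 * k).choose (k + 1)) := by
        rw [h4]
        ring
    _ ≤ 15 * (15 + 1) ^ (16 * k) := Nat.mul_le_mul_left _ h1
    _ = 15 * 16 ^ (16 * k) := by norm_num

private theorem total_bound (k : ℕ) (hk : 1 ≤ k) :
    2 ^ k * (16 * k).choose (k + 1) ≤ 15 * 100 ^ k := by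
  have h1 := choose_bound k hk
  have h2 : (2 * 16 ^ 16) ^ k ≤ (100 * 15 ^ 15) ^ k := Nat.pow_le_pow_left (by norm_num) k
  have h3 : 0 < 15 ^ (15 * k) := by positivity
  refine Nat.le_of_mul_le_mul_right ?_ h3
  calc 2 ^ k * (16 * k).choose (k + 1) * 15 ^ (15 * k)
      = 2 ^ k * ((16 * k).choose (k + 1) * 15 ^ (15 * k)) := by ring
    _ ≤ 2 ^ k * (15 * 16 ^ (16 * k)) := Nat.mul_le_mul_left _ h1
    _ = 15 * (2 * 16 ^ 16) ^ k := by
        rw [mul_pow, ← pow_mul]
        ring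
    _ ≤ 15 * (100 * 15 ^ 15) ^ k := Nat.mul_le_mul_left _ h2
    _ = 15 * 100 ^ k * 15 ^ (15 * k) := by
        rw [mul_pow, ← pow_mul]
        ring

private theorem real_num (A C D : ℝ) (hD : 0 < D) (h : 2 * A * C ≤ 15 * D) :
    A * (C * (1 / (100 * D))) < 1 := by
  have h1 : A * (C * (1 / (100 * D))) = (A * C) / (100 * D) := by ring
  rw [h1, div_lt_one (by positivity)]
  linarith

private theorem fin_num (n : ℕ) :
    (2 : ℝ) ^ n * (((16 * (n + 1)).choose (n + 2) : ℝ) * (1 / 100) ^ (n + 2)) < 1 := by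
  have h4 := total_bound (n + 1) (by omega)
  have h5 : ((2 : ℝ) ^ (n + 1)) * ((16 * (n + 1)).choose (n + 1 + 1) : ℝ) ≤
      15 * 100 ^ (n + 1) := by exact_mod_cast h4
  have h6 : (1 / 100 : ℝ) ^ (n + 2) = 1 / (100 * 100 ^ (n + 1)) := by
    rw [one_div_pow, pow_succ' (100 : ℝ) (n + 1)]
  rw [h6]
  refine real_num _ _ _ (by positivity) ?_
  rw [← pow_succ']
  exact h5

open Classical in
theorem sample {n : ℕ} {Ω : Type} [Fintype Ω] [Nonempty Ω] (bad : Ω → (Fin n → Bool) → Prop)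
    (h : ∀ x, pr (fun ω => bad ω x) ≤ 1 / 100) :
    ∃ s : Fin (16 * (n + 1)) → Ω, ∀ x,
      16 * (Finset.univ.filter (fun k => bad (s k) x)).card ≤ 16 * (n + 1) := by
  have hx : ∀ x, pr (fun s : Fin (16 * (n + 1)) → Ω =>
      n + 1 < (Finset.univ.filter (fun k => bad (s k) x)).card) ≤
      ((16 * (n + 1)).choose (n + 2) : ℝ) * (1 / 100) ^ (n + 2) := by
    intro x
    have h1 : pr (fun s : Fin (16 * (n + 1)) → Ω =>
        n + 1 < (Finset.univ.filter (fun k => bad (s k) x)).card) ≤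
        pr (fun s : Fin (16 * (n + 1)) → Ω =>
          ∃ T ∈ powersetCard (n + 2) (univ : Finset (Fin (16 * (n + 1)))),
            ∀ i ∈ T, bad (s i) x) := by
      apply pr_mono
      intro s hs
      obtain ⟨T, hT, hTc⟩ := exists_subset_card_eq (show n + 2 ≤ _ from hs)
      exact ⟨T, mem_powersetCard.2 ⟨subset_univ _, hTc⟩, fun i hi => (mem_filter.1 (hT hi)).2⟩
    refine h1.trans ((pr_exists_le _ (fun (T : Finset (Fin (16 * (n + 1))))
      (s : Fin (16 * (n + 1)) → Ω) => ∀ i ∈ T, bad (s i) x)).trans ?_)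
    have h2 : ∀ T ∈ powersetCard (n + 2) (univ : Finset (Fin (16 * (n + 1)))),
        pr (fun s : Fin (16 * (n + 1)) → Ω => ∀ i ∈ T, bad (s i) x) ≤ (1 / 100) ^ (n + 2) := by
      intro T hT
      rw [pr_pi_all T (fun ω => bad ω x), (mem_powersetCard.1 hT).2]
      exact pow_le_pow_left₀ (pr_nonneg _) (h x) _
    refine (sum_le_sum h2).trans (le_of_eq ?_)
    rw [sum_const, card_powersetCard, card_univ, Fintype.card_fin, nsmul_eq_mul]
  have htot : pr (fun s : Fin (16 * (n + 1)) → Ω => ∃ x ∈ (univ : Finset (Fin n → Bool)),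
      n + 1 < (Finset.univ.filter (fun k => bad (s k) x)).card) < 1 := by
    refine lt_of_le_of_lt (pr_exists_le _ (fun (x : Fin n → Bool)
      (s : Fin (16 * (n + 1)) → Ω) =>
      n + 1 < (Finset.univ.filter (fun k => bad (s k) x)).card)) ?_
    refine lt_of_le_of_lt (sum_le_sum fun x _ => hx x) ?_
    rw [sum_const, card_univ, nsmul_eq_mul]
    have h3 : (Fintype.card (Fin n → Bool) : ℝ) = 2 ^ n := by
      rw [Fintype.card_fun, Fintype.card_bool, Fintype.card_fin]
      push_cast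
      rfl
    rw [h3]
    exact fin_num n
  obtain ⟨s, hs⟩ := exists_of_pr_lt_one htot
  refine ⟨s, fun x => ?_⟩
  push Not at hs
  have := hs x (mem_univ x)
  omega

end C78
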