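import Pool.Agent.C78.LocField
import Pool.Agent.C78.PrLin
import Pool.Agent.C78.PrMaj
import Pool.Agent.C78.Sample

/-!
# C78/LConv: from modes `P` and `M` (random seeds) to mode `L` (bundles)

`pToL`: `sample` with `bad ω x := y ω x ≠ a x` gives seeds `s k`; `c k = y (s k)`;
`W' e = W e ∪ univ.biUnion (fun k => V (s k) e)` (`chain_union`, `chain_biUnion`); cardinality:
`W' e = W e ∪ ⋃ k, (V (s k) e \ W e)` and `(V ω e \ W e).card = (V ω e).card - (W e).card ≤ E`.

`mToL`: seeds `Ω × (Fin 8 → Fin N → ZMod p)`, `F (ω, u) x = decide (∃ k, ∑ t, u k t *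
b.repr (z ω x) t ≠ 0)`.  Fix `x`; bad event `F x ≠ a x` is contained in
`¬ (z ω x ≠ 0 ↔ a x = true)` (probability `≤ 1/500`) or, `z ω x ≠ 0` and all 8 sums vanish
(probability `≤ 1/256` for every fixed `ω`, `pr_lin8`, as some coordinate is not `0`); total
`≤ 1/100`.  `sample` gives `(ω_k, u_k)`; `V' k` = `chain_ext` of `V ω_k` by the request
`loc_fun8` (size 110, depth 9); then the union as in `pToL`, with `E + 110` in place of `E`.
-/

namespace C78

open Finset

variable {n : ℕ}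

private theorem union_all {m R : ℕ} (W : ℕ → Finset (BF n)) (hW : IsChain m W)
    (V : Fin R → ℕ → Finset (BF n)) (hV : ∀ k, IsChain m (V k)) (E : ℕ)
    (hWV : ∀ k e, W e ⊆ V k e) (hE : ∀ k e, (V k e).card ≤ (W e).card + E) :
    ∃ W' : ℕ → Finset (BF n), IsChain m W' ∧ (∀ e, W e ⊆ W' e) ∧
      (∀ e, (W' e).card ≤ (W e).card + R * E) ∧ ∀ k e, V k e ⊆ W' e := by
  refine ⟨fun e => W e ∪ univ.biUnion (fun k => V k e),
    chain_union hW (chain_biUnion univ V fun k _ => hV k), fun e => subset_union_left, ?_, ?_⟩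
  · intro e
    have h1 : W e ∪ univ.biUnion (fun k => V k e) ⊆
        W e ∪ univ.biUnion (fun k => V k e \ W e) := by
      intro f hf
      rcases mem_union.1 hf with h | h
      · exact mem_union_left _ h
      · obtain ⟨k, hk, hfk⟩ := mem_biUnion.1 h
        by_cases hfW : f ∈ W e
        · exact mem_union_left _ hfW
        · exact mem_union_right _ (mem_biUnion.2 ⟨k, hk, mem_sdiff.2 ⟨hfk, hfW⟩⟩)
    have h2 : (univ.biUnion (fun k => V k e \ W e)).card ≤ R * E := by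
      refine card_biUnion_le.trans ?_
      refine (sum_le_sum (g := fun _ => E) fun k _ => ?_).trans (by
        rw [sum_const, card_univ, Fintype.card_fin, smul_eq_mul])
      rw [card_sdiff_of_subset (hWV k e)]
      have := hE k e
      omega
    exact (card_le_card h1).trans ((card_union_le _ _).trans (Nat.add_le_add_left h2 _))
  · intro k e f hf
    exact mem_union_right _ (mem_biUnion.2 ⟨k, mem_univ k, hf⟩)

theorem pToL {m : ℕ} {Ω : Type} [Fintype Ω] [Nonempty Ω] (W : ℕ → Finset (BF n))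
    (hW : IsChain m W) (V : Ω → ℕ → Finset (BF n)) (hV : ∀ ω, IsChain m (V ω)) (E d : ℕ)
    (hWV : ∀ ω e, W e ⊆ V ω e) (hE : ∀ ω e, (V ω e).card ≤ (W e).card + E)
    (y : Ω → BF n) (hy : ∀ ω, y ω ∈ V ω d) (a : BF n)
    (hpr : ∀ x, pr (fun ω => y ω x ≠ a x) ≤ 1 / 100) :
    ∃ (W' : ℕ → Finset (BF n)) (c : Fin (16 * (n + 1)) → BF n), IsChain m W' ∧
      (∀ e, W e ⊆ W' e) ∧ (∀ e, (W' e).card ≤ (W e).card + 16 * (n + 1) * E) ∧
      (∀ k, c k ∈ W' d) ∧
      ∀ x, 16 * (Finset.univ.filter (fun k => c k x ≠ a x)).card ≤ 16 * (n + 1) := by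
  obtain ⟨s, hs⟩ := sample (fun ω x => y ω x ≠ a x) hpr
  obtain ⟨W', h1, h2, h3, h4⟩ := union_all W hW (fun k => V (s k)) (fun k => hV (s k)) E
    (fun k => hWV (s k)) (fun k => hE (s k))
  refine ⟨W', fun k => y (s k), h1, h2, h3, fun k => h4 k d (hy (s k)), fun x => ?_⟩
  have := hs x
  convert this

theorem mToL {m p N : ℕ} (hm : m ≠ 0) [Fact p.Prime] (hpm : p ∣ m) {K : Type} [Field K]
    [Algebra (ZMod p) K] (b : Module.Basis (Fin N) (ZMod p) K)
    {Ω : Type} [Fintype Ω] [Nonempty Ω] (W : ℕ → Finset (BF n))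
    (hW : IsChain m W) (V : Ω → ℕ → Finset (BF n)) (hV : ∀ ω, IsChain m (V ω)) (E d : ℕ)
    (hWV : ∀ ω e, W e ⊆ V ω e) (hE : ∀ ω e, (V ω e).card ≤ (W e).card + E)
    (z : Ω → (Fin n → Bool) → K) (hz : ∀ ω t r, bit b (z ω) t r ∈ V ω d) (a : BF n)
    (hpr : ∀ x, pr (fun ω => ¬ (z ω x ≠ 0 ↔ a x = true)) ≤ 1 / 500) :
    ∃ (W' : ℕ → Finset (BF n)) (c : Fin (16 * (n + 1)) → BF n), IsChain m W' ∧
      (∀ e, W e ⊆ W' e) ∧ (∀ e, (W' e).card ≤ (W e).card + 16 * (n + 1) * (E + 110)) ∧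
      (∀ k, c k ∈ W' (d + 9)) ∧
      ∀ x, 16 * (Finset.univ.filter (fun k => c k x ≠ a x)).card ≤ 16 * (n + 1) := by
  set F : Ω × (Fin 8 → Fin N → ZMod p) → BF n :=
    fun w x => decide (∃ k, ∑ t, w.2 k t * b.repr (z w.1 x) t ≠ 0) with hF
  have hprF : ∀ x, pr (fun w : Ω × (Fin 8 → Fin N → ZMod p) => F w x ≠ a x) ≤ 1 / 100 := by
    intro x
    have h1 : pr (fun w : Ω × (Fin 8 → Fin N → ZMod p) => F w x ≠ a x) ≤
        pr (fun w : Ω × (Fin 8 → Fin N → ZMod p) => ¬ (z w.1 x ≠ 0 ↔ a x = true) ∨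
          (z w.1 x ≠ 0 ∧ ∀ k, ∑ t, w.2 k t * b.repr (z w.1 x) t = 0)) := by
      apply pr_mono
      intro w hw
      by_contra hcon
      push Not at hcon
      obtain ⟨hiff, hB⟩ := hcon
      apply hw
      by_cases ha : a x = true
      · obtain ⟨k, hk⟩ := hB (hiff.2 ha)
        rw [ha, hF]
        exact decide_eq_true ⟨k, hk⟩
      · have hz0 : z w.1 x = 0 := by
          by_contra h
          exact ha (hiff.1 h)
        have ha' : a x = false := by simpa using ha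
        rw [ha', hF]
        apply decide_eq_false
        rintro ⟨k, hk⟩
        apply hk
        rw [hz0]
        simp
    have h2 : pr (fun w : Ω × (Fin 8 → Fin N → ZMod p) => ¬ (z w.1 x ≠ 0 ↔ a x = true)) ≤
        1 / 500 := by
      rw [pr_fst (Ω' := Fin 8 → Fin N → ZMod p) (fun ω => ¬ (z ω x ≠ 0 ↔ a x = true))]
      exact hpr x
    have h3 : pr (fun w : Ω × (Fin 8 → Fin N → ZMod p) => z w.1 x ≠ 0 ∧
        ∀ k, ∑ t, w.2 k t * b.repr (z w.1 x) t = 0) ≤ 1 / 256 := by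
      apply pr_prod_le (by norm_num)
      intro ω
      by_cases hzω : z ω x = 0
      · have h4 : pr (fun u : Fin 8 → Fin N → ZMod p => z ω x ≠ 0 ∧
            ∀ k, ∑ t, u k t * b.repr (z ω x) t = 0) ≤
            pr (fun _ : Fin 8 → Fin N → ZMod p => False) :=
          pr_mono fun u hu => hu.1 hzω
        rw [pr_false] at h4
        exact h4.trans (by norm_num)
      · refine (pr_mono fun u hu => hu.2).trans (pr_lin8 (fun t => b.repr (z ω x) t) ?_)
        by_contra hcon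
        push Not at hcon
        exact hzω (b.repr.map_eq_zero_iff.1 (Finsupp.ext hcon))
    have h5 := pr_or_le (fun w : Ω × (Fin 8 → Fin N → ZMod p) => ¬ (z w.1 x ≠ 0 ↔ a x = true))
      (fun w => z w.1 x ≠ 0 ∧ ∀ k, ∑ t, w.2 k t * b.repr (z w.1 x) t = 0)
    have h6 : (1 : ℝ) / 500 + 1 / 256 ≤ 1 / 100 := by norm_num
    linarith
  obtain ⟨s, hs⟩ := sample (fun w x => F w x ≠ a x) hprF
  have hext : ∀ k, ∃ U : ℕ → Finset (BF n), IsChain m U ∧ (∀ e, V (s k).1 e ⊆ U e) ∧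
      (∀ e, (U e).card ≤ (V (s k).1 e).card + 110) ∧ F (s k) ∈ U (d + 9) := fun k =>
    chain_ext (hV (s k).1) (loc_fun8 b hm hpm (V (s k).1 d) (z (s k).1) (hz (s k).1) (s k).2)
  choose U hU1 hU2 hU3 hU4 using hext
  obtain ⟨W', h1, h2, h3, h4⟩ := union_all W hW U hU1 (E + 110)
    (fun k e => (hWV (s k).1 e).trans (hU2 k e)) (fun k e => by
      have h5 := hU3 k e
      have h6 := hE (s k).1 e
      omega)
  refine ⟨W', fun k => F (s k), h1, h2, h3, fun k => h4 k (d + 9) (hU4 k), fun x => ?_⟩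
  have := hs x
  convert this

end C78
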