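import Pool.Agent.C78.LocField
import Pool.Agent.C78.PrLin
import Pool.Agent.C78.PrMaj
import Pool.Agent.C78.Sample

/-!
# C78/LGate: one AND / OR / MOD gate in mode `L`

Every function `b ∈ l` has a bundle `β b : Fin R → BF n`, `R = 16 (n + 1)`, wrong on at most `R/16`
indices for every input `x`.  Let `U = l.toFinset`, `h = lg U.card + 3`.

Seeds: `Ω = (BF n → Tr (Fin R) h) × (Fin 8 → BF n → ZMod p)` (`BF n` is a finite type).  For a seed
`(τ, u)` put `f b = evT (β b) h (τ b)` and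
* `a = gMod m l`: `F = gMod m (l.map f)`;
* `a = gOr l`: `F x = decide (∃ k, ∑ b ∈ U, (if f b x then u k b else 0) ≠ 0)`;
* `a = gAnd l`: `F x = decide (∀ k, ∑ b ∈ U, (if f b x then 0 else u k b) = 0)`.
Fix `x`.  Bad event `F x ≠ a x` is contained in `(∃ b ∈ U, f b x ≠ b x) ∨ E`.  The first has
probability at most `∑ b ∈ U, (1/3)(3/16)^(2^h) ≤ 1/300` (`pr_fst`, `pr_coord`, `pr_tree` with
`e = 1/16`, `num1`).  If all `f b x = b x`: for `gMod` nothing is wrong; for `gOr`: if all `b x` are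
false then `F x = false`, correct; otherwise `F x = false` has probability `≤ 1/256` over `u`
(`pr_lin8` with `v b = if b ∈ U ∧ b x then 1 else 0`, `pr_prod_le`); the same for `gAnd` with
`v b = if b ∈ U ∧ ¬ b x then 1 else 0`.  Total `≤ 1/300 + 1/256 ≤ 1/100`.

`sample` gives `R` seeds `s k`; `c k = F (s k)`.  Circuit: requests (`chain_ext_many` with index
set `univ : Finset (Fin R)`) `Loc m (W d) (3 h + 9) (U.card * (4 * 3 ^ h) + 110) (c k)`:
`loc_tree` for the functions `f b`, `b ∈ U`, then `loc_test8`, `loc_test8'`, or one gate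
(`loc_gMod`), combined by `loc_trans` with `V' = U.image f`.
-/

namespace C78

open Finset

variable {n : ℕ}

private theorem lg_core {m : ℕ} {Ω : Type} [Fintype Ω] [Nonempty Ω]
    (W : ℕ → Finset (BF n)) (hW : IsChain m W) (d δ σ : ℕ) (a : BF n) (F : Ω → BF n)
    (hL : ∀ ω, Loc m (W d) δ σ (F ω)) (hP : ∀ x, pr (fun ω => F ω x ≠ a x) ≤ 1 / 100) :
    ∃ (W' : ℕ → Finset (BF n)) (c : Fin (16 * (n + 1)) → BF n), IsChain m W' ∧
      (∀ e, W e ⊆ W' e) ∧ (∀ e, (W' e).card ≤ (W e).card + 16 * (n + 1) * σ) ∧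
      (∀ k, c k ∈ W' (d + δ)) ∧
      ∀ x, 16 * (Finset.univ.filter (fun k => c k x ≠ a x)).card ≤ 16 * (n + 1) := by
  obtain ⟨s, hs⟩ := sample (fun ω x => F ω x ≠ a x) hP
  obtain ⟨W', h1, h2, h3, h4⟩ := chain_ext_many hW (Finset.univ : Finset (Fin (16 * (n + 1))))
    (fun _ => d) (fun _ => δ) σ (fun k => F (s k)) (fun k _ => hL (s k))
  refine ⟨W', fun k => F (s k), h1, h2, fun e => ?_, fun k => h4 k (Finset.mem_univ k),
    fun x => ?_⟩
  · have := h3 e
    rwa [Finset.card_univ, Fintype.card_fin] at this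
  · have := hs x
    convert this

private theorem lg_err (β : BF n → Fin (16 * (n + 1)) → BF n) (b : BF n) (x : Fin n → Bool)
    (herr : 16 * (Finset.univ.filter (fun k => β b k x ≠ b x)).card ≤ 16 * (n + 1)) :
    pr (fun k : Fin (16 * (n + 1)) => β b k x ≠ b x) ≤ 1 / 16 := by
  unfold pr
  rw [Fintype.card_fin]
  have h1 : (0 : ℝ) < ((16 * (n + 1) : ℕ) : ℝ) := by positivity
  rw [div_le_div_iff₀ h1 (by norm_num)]
  have h2 : (16 : ℝ) * ((Finset.univ.filter (fun k => β b k x ≠ b x)).card : ℝ) ≤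
      ((16 * (n + 1) : ℕ) : ℝ) := by exact_mod_cast herr
  have h3 : ((@Finset.filter _ (fun k => β b k x ≠ b x) (fun _ => Classical.propDecidable _)
      Finset.univ).card : ℝ) = ((Finset.univ.filter (fun k => β b k x ≠ b x)).card : ℝ) := by
    congr
  have h4 : ((@Finset.filter _ (fun k => β b k x ≠ b x) (fun _ => Classical.propDecidable _)
      Finset.univ).card : ℝ) * 16 ≤ 1 * ((16 * (n + 1) : ℕ) : ℝ) := by
    rw [h3]
    linarith
  convert h4

private theorem lg_p1 (β : BF n → Fin (16 * (n + 1)) → BF n) (U : Finset (BF n))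
    (x : Fin n → Bool) (herr : ∀ b ∈ U,
      16 * (Finset.univ.filter (fun k => β b k x ≠ b x)).card ≤ 16 * (n + 1))
    {Ω' : Type} [Fintype Ω'] [Nonempty Ω'] :
    pr (fun ω : (BF n → Tr (Fin (16 * (n + 1))) (lg U.card + 3)) × Ω' =>
      ∃ b ∈ U, evT (β b) (lg U.card + 3) (ω.1 b) x ≠ b x) ≤ 1 / 300 := by
  refine (pr_exists_le U _).trans ?_
  have h1 : ∀ b ∈ U, pr (fun ω : (BF n → Tr (Fin (16 * (n + 1))) (lg U.card + 3)) × Ω' =>
      evT (β b) (lg U.card + 3) (ω.1 b) x ≠ b x) ≤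
        1 / 3 * (3 / 16) ^ (2 ^ (lg U.card + 3)) := by
    intro b hb
    have e1 := pr_fst (Ω' := Ω') (fun w : BF n → Tr (Fin (16 * (n + 1))) (lg U.card + 3) =>
      evT (β b) (lg U.card + 3) (w b) x ≠ b x)
    have e2 := pr_coord (Ω := Tr (Fin (16 * (n + 1))) (lg U.card + 3)) b
      (fun t => evT (β b) (lg U.card + 3) t x ≠ b x)
    rw [e1, e2]
    have e3 := pr_tree (fun i => β b i x) (b x) (lg U.card + 3) (1 / 16)
      (lg_err β b x (herr b hb))
    have e4 : (3 : ℝ) * (1 / 16) = 3 / 16 := by norm_num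
    rw [e4] at e3
    exact e3
  refine (Finset.sum_le_sum h1).trans ?_
  rw [Finset.sum_const, nsmul_eq_mul]
  have h2 := num1 U.card
  linarith

private theorem lg_sum {p : ℕ} [Fact p.Prime] (U : Finset (BF n)) (g : BF n → Prop)
    [DecidablePred g] (u : BF n → ZMod p) :
    ∑ b ∈ U, (if g b then u b else 0) = ∑ b, u b * (if b ∈ U ∧ g b then 1 else 0) := by
  rw [← Finset.sum_filter]
  have h1 : ∀ b, u b * (if b ∈ U ∧ g b then (1 : ZMod p) else 0) =
      if b ∈ U.filter g then u b else 0 := by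
    intro b
    by_cases h : b ∈ U ∧ g b
    · rw [if_pos h, if_pos (Finset.mem_filter.2 h), mul_one]
    · rw [if_neg h, if_neg (fun h' => h (Finset.mem_filter.1 h')), mul_zero]
  rw [Finset.sum_congr rfl (fun b _ => h1 b), Finset.sum_ite_mem, Finset.univ_inter]

private theorem lg_p2 {p : ℕ} [Fact p.Prime] (U : Finset (BF n)) (g : BF n → Prop)
    [DecidablePred g] {Ω : Type} [Fintype Ω] [Nonempty Ω] :
    pr (fun ω : Ω × (Fin 8 → BF n → ZMod p) => (∃ b ∈ U, g b) ∧
      ∀ k, ∑ b ∈ U, (if g b then ω.2 k b else 0) = 0) ≤ 1 / 256 := by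
  have e1 := pr_snd (Ω := Ω) (fun u : Fin 8 → BF n → ZMod p => (∃ b ∈ U, g b) ∧
      ∀ k, ∑ b ∈ U, (if g b then u k b else 0) = 0)
  rw [e1]
  by_cases hex : ∃ b ∈ U, g b
  · have h1 := pr_lin8 (p := p) (fun b : BF n => if b ∈ U ∧ g b then (1 : ZMod p) else 0) (by
      obtain ⟨b, hb, hg⟩ := hex
      exact ⟨b, by rw [if_pos ⟨hb, hg⟩]; exact one_ne_zero⟩)
    refine (pr_mono fun u hu k => ?_).trans h1
    rw [← lg_sum U g (u k)]
    exact hu.2 k
  · refine (pr_mono (q' := fun _ => False) fun u hu => hex hu.1).trans ?_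
    rw [pr_false]
    norm_num

theorem lgate {m p : ℕ} (hm : m ≠ 0) [Fact p.Prime] (hpm : p ∣ m)
    (W : ℕ → Finset (BF n)) (hW : IsChain m W) (β : BF n → Fin (16 * (n + 1)) → BF n) (d : ℕ)
    (l : List (BF n)) (hβ : ∀ b ∈ l, ∀ k, β b k ∈ W d)
    (herr : ∀ b ∈ l, ∀ x,
      16 * (Finset.univ.filter (fun k => β b k x ≠ b x)).card ≤ 16 * (n + 1))
    (a : BF n) (ha : a = gAnd l ∨ a = gOr l ∨ a = gMod m l) :
    ∃ (W' : ℕ → Finset (BF n)) (c : Fin (16 * (n + 1)) → BF n), IsChain m W' ∧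
      (∀ e, W e ⊆ W' e) ∧
      (∀ e, (W' e).card ≤ (W e).card +
        16 * (n + 1) * (l.toFinset.card * (4 * 3 ^ (lg l.toFinset.card + 3)) + 110)) ∧
      (∀ k, c k ∈ W' (d + (3 * (lg l.toFinset.card + 3) + 9))) ∧
      ∀ x, 16 * (Finset.univ.filter (fun k => c k x ≠ a x)).card ≤ 16 * (n + 1) := by
  classical
  have hpp : p.Prime := Fact.out
  obtain ⟨U, hU⟩ : ∃ U : Finset (BF n), U = l.toFinset := ⟨_, rfl⟩
  have hUl : ∀ b, b ∈ U ↔ b ∈ l := by
    intro b
    rw [hU, List.mem_toFinset]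
  rw [← hU]
  obtain ⟨f, hf⟩ : ∃ f : (BF n → Tr (Fin (16 * (n + 1))) (lg U.card + 3)) → BF n → BF n,
      ∀ τ b, f τ b = evT (β b) (lg U.card + 3) (τ b) := ⟨_, fun _ _ => rfl⟩
  have hloc : ∀ τ, ∀ c ∈ U.image (f τ), Loc m (W d) (3 * (lg U.card + 3))
      (4 * 3 ^ (lg U.card + 3)) c := by
    intro τ c hc
    obtain ⟨b, hb, rfl⟩ := Finset.mem_image.1 hc
    rw [hf]
    exact loc_tree (W d) (β b) (hβ b ((hUl b).1 hb)) (lg U.card + 3) (τ b)
  have hlift : ∀ τ (c : BF n), Loc m (U.image (f τ)) 9 110 c →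
      Loc m (W d) (3 * (lg U.card + 3) + 9) (U.card * (4 * 3 ^ (lg U.card + 3)) + 110) c := by
    intro τ c hc
    refine loc_mono (Finset.Subset.refl _) le_rfl ?_ (loc_trans (hloc τ) hc)
    exact Nat.add_le_add_right (Nat.mul_le_mul_right _ Finset.card_image_le) _
  have hp1 : ∀ x, pr (fun ω : (BF n → Tr (Fin (16 * (n + 1))) (lg U.card + 3)) ×
      (Fin 8 → BF n → ZMod p) => ∃ b ∈ U, f ω.1 b x ≠ b x) ≤ 1 / 300 := by
    intro x
    have h1 := lg_p1 β U x (fun b hb => herr b ((hUl b).1 hb) x)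
      (Ω' := Fin 8 → BF n → ZMod p)
    simp only [hf]
    exact h1
  rcases ha with rfl | rfl | rfl
  · -- AND
    refine lg_core W hW d _ _ _
      (fun ω : (BF n → Tr (Fin (16 * (n + 1))) (lg U.card + 3)) × (Fin 8 → BF n → ZMod p) =>
        fun x => decide (∀ k, ∑ b ∈ U, (if f ω.1 b x then 0 else ω.2 k b) = 0))
      (fun ω => hlift ω.1 _ (loc_test8' hm hpp hpm U ω.2 (f ω.1) _
        (fun i hi => Finset.mem_image_of_mem _ hi))) (fun x => ?_)
    have h2 := lg_p2 (p := p) U (fun b => b x = false)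
      (Ω := BF n → Tr (Fin (16 * (n + 1))) (lg U.card + 3))
    refine (pr_mono (fun ω hω => ?_)).trans ((pr_or_le _ _).trans
      ((add_le_add (hp1 x) h2).trans (by norm_num)))
    by_contra hcon
    rw [not_or, not_exists] at hcon
    obtain ⟨hc1, hc2⟩ := hcon
    have hc1' : ∀ b ∈ U, f ω.1 b x = b x := by
      intro b hb
      by_contra h
      exact hc1 b ⟨hb, h⟩
    have hsum : ∀ k, ∑ b ∈ U, (if f ω.1 b x then 0 else ω.2 k b) =
        ∑ b ∈ U, (if b x = false then ω.2 k b else 0) := by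
      intro k
      refine Finset.sum_congr rfl fun b hb => ?_
      rw [hc1' b hb]
      cases b x <;> simp
    apply hω
    simp only [hsum]
    by_cases hex : ∃ b ∈ U, b x = false
    · have h3 : ¬ ∀ k, ∑ b ∈ U, (if b x = false then ω.2 k b else 0) = 0 :=
        fun h => hc2 ⟨hex, h⟩
      rw [decide_eq_false h3]
      symm
      obtain ⟨b, hb, hbx⟩ := hex
      unfold gAnd
      rw [List.all_eq_false]
      exact ⟨b, (hUl b).1 hb, by rw [hbx]; exact Bool.false_ne_true⟩
    · push Not at hex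
      have h3 : ∀ k, ∑ b ∈ U, (if b x = false then ω.2 k b else 0) = 0 := by
        intro k
        refine Finset.sum_eq_zero fun b hb => ?_
        rw [if_neg (hex b hb)]
      rw [decide_eq_true h3]
      symm
      unfold gAnd
      rw [List.all_eq_true]
      intro b hb
      have := hex b ((hUl b).2 hb)
      revert this
      cases b x <;> simp
  · -- OR
    refine lg_core W hW d _ _ _
      (fun ω : (BF n → Tr (Fin (16 * (n + 1))) (lg U.card + 3)) × (Fin 8 → BF n → ZMod p) =>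
        fun x => decide (∃ k, ∑ b ∈ U, (if f ω.1 b x then ω.2 k b else 0) ≠ 0))
      (fun ω => hlift ω.1 _ (loc_test8 hm hpp hpm U ω.2 (f ω.1) _
        (fun i hi => Finset.mem_image_of_mem _ hi))) (fun x => ?_)
    have h2 := lg_p2 (p := p) U (fun b => b x = true)
      (Ω := BF n → Tr (Fin (16 * (n + 1))) (lg U.card + 3))
    refine (pr_mono (fun ω hω => ?_)).trans ((pr_or_le _ _).trans
      ((add_le_add (hp1 x) h2).trans (by norm_num)))
    by_contra hcon
    rw [not_or, not_exists] at hcon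
    obtain ⟨hc1, hc2⟩ := hcon
    have hc1' : ∀ b ∈ U, f ω.1 b x = b x := by
      intro b hb
      by_contra h
      exact hc1 b ⟨hb, h⟩
    have hsum : ∀ k, ∑ b ∈ U, (if f ω.1 b x then ω.2 k b else 0) =
        ∑ b ∈ U, (if b x = true then ω.2 k b else 0) := by
      intro k
      refine Finset.sum_congr rfl fun b hb => ?_
      rw [hc1' b hb]
    apply hω
    simp only [hsum]
    by_cases hex : ∃ b ∈ U, b x = true
    · have h3 : ∃ k, ∑ b ∈ U, (if b x = true then ω.2 k b else 0) ≠ 0 := by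
        by_contra h
        push Not at h
        exact hc2 ⟨hex, h⟩
      rw [decide_eq_true h3]
      symm
      obtain ⟨b, hb, hbx⟩ := hex
      unfold gOr
      rw [List.any_eq_true]
      exact ⟨b, (hUl b).1 hb, hbx⟩
    · push Not at hex
      have h3 : ¬ ∃ k, ∑ b ∈ U, (if b x = true then ω.2 k b else 0) ≠ 0 := by
        push Not
        intro k
        refine Finset.sum_eq_zero fun b hb => ?_
        rw [if_neg (hex b hb)]
      rw [decide_eq_false h3]
      symm
      unfold gOr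
      rw [List.any_eq_false]
      intro b hb
      exact hex b ((hUl b).2 hb)
  · -- MOD
    refine lg_core W hW d _ _ _
      (fun ω : (BF n → Tr (Fin (16 * (n + 1))) (lg U.card + 3)) × (Fin 8 → BF n → ZMod p) =>
        gMod m (l.map (f ω.1)))
      (fun ω => hlift ω.1 _ ?_) (fun x => ?_)
    · refine loc_mono (Finset.Subset.refl _) (by norm_num : 0 + 1 ≤ 9)
        (by omega : ((l.map (f ω.1)).toFinset.card * 0 + 1) ≤ 110) (loc_gMod _ (fun b hb => ?_))
      obtain ⟨b', hb', rfl⟩ := List.mem_map.1 hb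
      exact loc_mem (Finset.mem_image_of_mem _ ((hUl b').2 hb'))
    · refine (pr_mono (fun ω hω => ?_)).trans ((hp1 x).trans (by norm_num))
      by_contra hcon
      push Not at hcon
      apply hω
      unfold gMod
      have h1 : (l.map (f ω.1)).countP (fun a => a x) = l.countP (fun a => a x) := by
        rw [List.countP_map]
        apply List.countP_congr
        intro b hb
        rw [Function.comp_apply, hcon b ((hUl b).2 hb)]
      rw [h1]

end C78
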