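import Pool.Agent.C78.Step
import Pool.Agent.C78.LGate
import Pool.Agent.C78.LConv

/-!
# C78/LStep: the bundles for one more unit of cost
-/

namespace C78

open Finset

variable {n : ℕ}

/-- a bundle for `a` over an extension of the circuit `W` -/
def Bundle (m : ℕ) (W : ℕ → Finset (BF n)) (d X : ℕ) (a : BF n) : Prop :=
  ∃ (W' : ℕ → Finset (BF n)) (c : Fin (16 * (n + 1)) → BF n), IsChain m W' ∧
    (∀ e, W e ⊆ W' e) ∧ (∀ e, (W' e).card ≤ (W e).card + X) ∧ (∀ k, c k ∈ W' d) ∧
    ∀ x, 16 * (Finset.univ.filter (fun k => c k x ≠ a x)).card ≤ 16 * (n + 1)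

theorem Bundle.mono {m : ℕ} {W : ℕ → Finset (BF n)} {d d' X X' : ℕ} {a : BF n}
    (h : Bundle m W d X a) (hd : d ≤ d') (hX : X ≤ X') : Bundle m W d' X' a := by
  obtain ⟨W', c, h1, h2, h3, h4, h5⟩ := h
  exact ⟨W', c, h1, h2, fun e => (h3 e).trans (by omega), fun k => h1.1 hd (h4 k), h5⟩

section

variable {m p N : ℕ} [Fact p.Prime] {K : Type} [Field K]
  [Algebra (ZMod p) K] {b : Module.Basis (Fin N) (ZMod p) K}
  {S j : ℕ} {P M : ℕ → Finset (BF n)} {W : ℕ → Finset (BF n)} {E : ℕ}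

theorem Seeds.pr_le (sd : Seeds m b P M S j W E) (hS : 1 ≤ S) (hPS : (P j).card ≤ S)
    (hMS : (M j).card ≤ S) (x : Fin n → Bool) :
    @pr sd.Ω sd.fin (fun ω => ¬ Good (P j) (M j) (sd.y ω) (sd.z ω) x) ≤ 1 / 500 := by
  refine le_trans (sd.hpr x) ?_
  have h1 : (1 : ℝ) ≤ S := by exact_mod_cast hS
  have h2 : ((P j).card : ℝ) ≤ S := by exact_mod_cast hPS
  have h3 : ((M j).card : ℝ) ≤ S := by exact_mod_cast hMS
  rw [div_le_div_iff₀ (by linarith) (by norm_num)]
  linarith

/-- a function of mode `P` or `M` at cost `j` gets a bundle -/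
theorem bundle_PM (hm : m ≠ 0) (hpm : p ∣ m) (sd : Seeds m b P M S j W E) (hW : IsChain m W)
    (hS : 1 ≤ S) (hPS : (P j).card ≤ S) (hMS : (M j).card ≤ S) (a : BF n)
    (ha : a ∈ P j ∨ a ∈ M j) :
    Bundle m W (40 * (j + 1) + 9) (16 * (n + 1) * (E + 110)) a := by
  let _ := sd.fin
  have := sd.ne
  rcases ha with ha | ha
  · have hb : ∀ x, pr (fun ω : sd.Ω => sd.y ω a x ≠ a x) ≤ 1 / 100 := by
      intro x
      have h1 : pr (fun ω : sd.Ω => sd.y ω a x ≠ a x) ≤
          pr (fun ω : sd.Ω => ¬ Good (P j) (M j) (sd.y ω) (sd.z ω) x) :=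
        pr_mono (fun ω hω hg => hω (hg.1 a ha))
      have h2 := sd.pr_le hS hPS hMS x
      linarith
    have h := pToL (m := m) W hW sd.V sd.hV E (40 * (j + 1)) sd.hWV sd.hE (fun ω => sd.y ω a)
      (fun ω => sd.hy ω j le_rfl a ha) a hb
    exact Bundle.mono h (by omega) (Nat.mul_le_mul_left _ (by omega))
  · have hb : ∀ x, pr (fun ω : sd.Ω => ¬ (sd.z ω a x ≠ 0 ↔ a x = true)) ≤ 1 / 500 := by
      intro x
      have h1 : pr (fun ω : sd.Ω => ¬ (sd.z ω a x ≠ 0 ↔ a x = true)) ≤
          pr (fun ω : sd.Ω => ¬ Good (P j) (M j) (sd.y ω) (sd.z ω) x) :=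
        pr_mono (fun ω hω hg => hω (hg.2 a ha))
      exact h1.trans (sd.pr_le hS hPS hMS x)
    exact mToL (m := m) hm hpm b W hW sd.V sd.hV E (40 * (j + 1)) sd.hWV sd.hE
      (fun ω => sd.z ω a) (fun ω t r => sd.hz ω j le_rfl a ha t r) a hb

theorem lStep (hm : m ≠ 0) (hpm : p ∣ m) {L : ℕ → Finset (BF n)}
    (hLm : Monotone L) (sd : Seeds m b P M S j W E) (hW : IsChain m W)
    (β : BF n → Fin (16 * (n + 1)) → BF n)
    (hβ : ∀ i ≤ j, ∀ a ∈ L i, ∀ k, β a k ∈ W (40 * (i + 1)))
    (herr : ∀ a ∈ L j, ∀ x,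
      16 * (Finset.univ.filter (fun k => β a k x ≠ a x)).card ≤ 16 * (n + 1))
    (hS : 1 ≤ S) (hPS : (P j).card ≤ S) (hMS : (M j).card ≤ S) (hLS : (L (j + 1)).card ≤ S)
    (hL : ∀ a ∈ L (j + 1), a ∈ L j ∨ a ∈ P j ∨ a ∈ M j ∨ (∃ b ∈ L j, a = gNot b) ∨
      ∃ i, ∃ l : List (BF n), i + lg l.length ≤ j + 1 ∧ (∀ b ∈ l, b ∈ L i) ∧
      (a = gAnd l ∨ a = gOr l ∨ a = gMod m l)) :
    ∃ (W' : ℕ → Finset (BF n)) (β' : BF n → Fin (16 * (n + 1)) → BF n), IsChain m W' ∧
      (∀ e, W e ⊆ W' e) ∧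
      (∀ e, (W' e).card ≤ (W e).card +
        S * (16 * (n + 1) * (E + 110 + S * (108 * (S + 4) ^ 2)))) ∧
      (∀ i ≤ j + 1, ∀ a ∈ L i, ∀ k, β' a k ∈ W' (40 * (i + 1))) ∧
      (∀ a ∈ L (j + 1), ∀ x,
        16 * (Finset.univ.filter (fun k => β' a k x ≠ a x)).card ≤ 16 * (n + 1)) := by
  classical
  set X := 16 * (n + 1) * (E + 110 + S * (108 * (S + 4) ^ 2)) with hX
  set s := L (j + 1) \ L j with hs
  have key : ∀ a ∈ s, Bundle m W (40 * (j + 2)) X a := by
    intro a ha
    obtain ⟨ha1, ha2⟩ := Finset.mem_sdiff.1 ha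
    rcases hL a ha1 with h | h | h | ⟨c, hc, rfl⟩ | ⟨i, l, hi, hl, hal⟩
    · exact absurd h ha2
    · exact (bundle_PM hm hpm sd hW hS hPS hMS a (Or.inl h)).mono (by omega)
        (Nat.mul_le_mul_left _ (by omega))
    · exact (bundle_PM hm hpm sd hW hS hPS hMS a (Or.inr h)).mono (by omega)
        (Nat.mul_le_mul_left _ (by omega))
    · -- NOT
      obtain ⟨W', h1, h2, h3, h4⟩ := chain_ext_many hW
        (Finset.univ : Finset (Fin (16 * (n + 1))))
        (fun _ => 40 * (j + 1)) (fun _ => 1) 1 (fun k => gNot (β c k))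
        (fun k _ => loc_gNot (m := m) (loc_mem (m := m) (hβ j le_rfl c hc k)))
      refine Bundle.mono (X := 16 * (n + 1) * 1) (d := 40 * (j + 1) + 1)
        ⟨W', fun k => gNot (β c k), h1, h2, fun e => ?_, fun k => h4 k (Finset.mem_univ _),
          fun x => ?_⟩ (by omega) (Nat.mul_le_mul_left _ (by omega))
      · have := h3 e
        simpa using this
      · refine le_trans (le_of_eq ?_) (herr c hc x)
        congr 2
        ext k
        simp [gNot]
    · -- gate
      have hij : i ≤ j := by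
        have := lg_pos l.length
        omega
      have h := lgate (m := m) hm hpm W hW β (40 * (i + 1)) l (fun b hb k => hβ i hij b (hl b hb) k)
        (fun b hb x => herr b (hLm hij (hl b hb)) x) a hal
      have hu : l.toFinset.card ≤ l.length := List.toFinset_card_le l
      have hu2 : l.toFinset.card ≤ S := by
        refine le_trans (Finset.card_le_card ?_) hLS
        intro b hb
        exact hLm (by omega : i ≤ j + 1) (hl b (List.mem_toFinset.1 hb))
      refine Bundle.mono h ?_ (Nat.mul_le_mul_left _ ?_)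
      · have h1 := lg_mono hu
        have h2 := lg_pos l.length
        have h3 : 40 * (i + 1) + 40 * lg l.length ≤ 40 * (j + 2) := by
          have : i + 1 + lg l.length ≤ j + 2 := by omega
          calc 40 * (i + 1) + 40 * lg l.length = 40 * (i + 1 + lg l.length) := by ring
            _ ≤ _ := Nat.mul_le_mul_left _ this
        omega
      · have h4 : 4 * 3 ^ (lg l.toFinset.card + 3) ≤ 108 * (S + 4) ^ 2 := by
          have h5 := pow_lg_le l.toFinset.card
          have h6 : (l.toFinset.card + 4) ^ 2 ≤ (S + 4) ^ 2 := Nat.pow_le_pow_left (by omega) 2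
          rw [pow_add]
          omega
        have h5 : l.toFinset.card * (4 * 3 ^ (lg l.toFinset.card + 3)) ≤
            S * (108 * (S + 4) ^ 2) := Nat.mul_le_mul hu2 h4
        omega
  -- choose the bundles
  have key2 : ∀ a : BF n, ∃ (Wa : ℕ → Finset (BF n)) (c : Fin (16 * (n + 1)) → BF n), a ∈ s →
      (IsChain m Wa ∧ (∀ e, W e ⊆ Wa e) ∧ (∀ e, (Wa e).card ≤ (W e).card + X) ∧
        (∀ k, c k ∈ Wa (40 * (j + 2))) ∧
        ∀ x, 16 * (Finset.univ.filter (fun k => c k x ≠ a x)).card ≤ 16 * (n + 1)) := by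
    intro a
    by_cases ha : a ∈ s
    · obtain ⟨Wa, c, h⟩ := key a ha
      exact ⟨Wa, c, fun _ => h⟩
    · exact ⟨fun _ => ∅, fun _ => a, fun h => absurd h ha⟩
  choose Wa c hWa using key2
  have hch := chain_union hW (chain_biUnion s Wa (fun a ha => (hWa a ha).1))
  refine ⟨fun e => W e ∪ s.biUnion (fun a => Wa a e), fun a => if a ∈ L j then β a else c a, hch,
    fun e => Finset.subset_union_left, fun e => ?_, ?_, ?_⟩
  · have hsub : W e ∪ s.biUnion (fun a => Wa a e) ⊆ W e ∪ s.biUnion (fun a => Wa a e \ W e) := by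
      intro u hu
      rcases Finset.mem_union.1 hu with hu | hu
      · exact Finset.mem_union_left _ hu
      · obtain ⟨a, ha, hua⟩ := Finset.mem_biUnion.1 hu
        by_cases hw : u ∈ W e
        · exact Finset.mem_union_left _ hw
        · exact Finset.mem_union_right _
            (Finset.mem_biUnion.2 ⟨a, ha, Finset.mem_sdiff.2 ⟨hua, hw⟩⟩)
    have h1 := Finset.card_le_card hsub
    have h2 := Finset.card_union_le (W e) (s.biUnion (fun a => Wa a e \ W e))
    have h3 : (s.biUnion (fun a => Wa a e \ W e)).card ≤ s.card * X := by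
      refine Finset.card_biUnion_le_card_mul s _ X (fun a ha => ?_)
      obtain ⟨_, h4, h5, _⟩ := hWa a ha
      rw [Finset.card_sdiff_of_subset (h4 e)]
      have := h5 e
      omega
    have h4 : s.card ≤ S := (Finset.card_le_card Finset.sdiff_subset).trans hLS
    have h5 : s.card * X ≤ S * X := Nat.mul_le_mul_right _ h4
    show (W e ∪ s.biUnion (fun a => Wa a e)).card ≤ (W e).card + S * X
    omega
  · intro i hi a ha k
    have mono := hch.1
    rcases Nat.lt_or_ge j i with hji | hij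
    · have hi' : i = j + 1 := by omega
      subst hi'
      by_cases haj : a ∈ L j
      · simp only [haj, if_true]
        exact mono (by omega : 40 * (j + 1) ≤ 40 * (j + 1 + 1))
          (Finset.mem_union_left _ (hβ j le_rfl a haj k))
      · simp only [haj, if_false]
        have has : a ∈ s := Finset.mem_sdiff.2 ⟨ha, haj⟩
        exact Finset.mem_union_right _ (Finset.mem_biUnion.2 ⟨a, has, (hWa a has).2.2.2.1 k⟩)
    · have haj : a ∈ L j := hLm hij ha
      simp only [haj, if_true]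
      exact Finset.mem_union_left _ (hβ i hij a ha k)
  · intro a ha x
    by_cases haj : a ∈ L j
    · simp only [haj, if_true]
      exact herr a haj x
    · simp only [haj, if_false]
      have has : a ∈ s := Finset.mem_sdiff.2 ⟨ha, haj⟩
      exact (hWa a has).2.2.2.2 x

end

end C78
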