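import Pool.Agent.C78.LocLin

/-!
# C78/LocField: arithmetic in a finite field `K` of characteristic `p`, on coordinate bits

`bit b z t r x` is the truth value of the `t`-th coordinate of `z x` is `r`.

* `loc_embed`: `b.repr (if a x then 1 else 0) t = 0 + ∑ i ∈ {()}, if a x then b.repr 1 t else 0`:
  `loc_lin` with a one-element index set.
* `loc_sum`: index set `s ×ˢ univ ×ˢ univ` in `ι × Fin N × ZMod p`, function
  `f (i, t', r') = bit b (z i) t' r'`, coefficient `c (i, t', r') = r' * b.repr (ρ i * b t') t`.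
  Identity: `z i x = ∑ t', b.repr (z i x) t' • b t'` (`Basis.sum_repr`), so
  `b.repr (∑ i, ρ i * z i x) t = ∑ i, ∑ t', b.repr (z i x) t' * b.repr (ρ i * b t') t`, and
  `b.repr (z i x) t' = ∑ r', if b.repr (z i x) t' = r' then r' else 0`.
* `loc_prod`: first the functions `gAnd [bit b z t₁ r₁, bit b z' t₂ r₂]` (one gate each, at most
  `(N * p)^2` of them), then `loc_lin` over the index set of all `(t₁, r₁, t₂, r₂)` with
  coefficient `r₁ * r₂ * b.repr (b t₁ * b t₂) t`, using
  `z x * z' x = ∑ t₁ t₂, (repr (z x) t₁ * repr (z' x) t₂) • (b t₁ * b t₂)`; combine by `loc_trans`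
  with `V' =` the image finset of the AND functions.
* `loc_nonzero`: `z x ≠ 0 ↔ ∃ t, b.repr (z x) t ≠ 0`: `gOr` of the list
  `(List.finRange N).map (fun t => gNot (bit b z t 0))`; `loc_gNot`, `loc_or`, `loc_trans`:
  depth `1 + (Nat.log 2 N + 2)`, size `N * 1 + (8 * N + 8)`.
* `loc_fun8`: `∑ t, u k t * b.repr (z x) t = ∑ (t, r'), if bit b z t r' x then u k t * r' else 0`:
  `loc_test8` over the index set `Fin N × ZMod p`.
-/

namespace C78

open Finset

variable {n : ℕ}

/-- coordinate bits -/
noncomputable def bit {p N : ℕ} {K : Type} [Field K] [Algebra (ZMod p) K] [Fact p.Prime]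
    (b : Module.Basis (Fin N) (ZMod p) K)
    (z : (Fin n → Bool) → K) (t : Fin N) (r : ZMod p) : BF n :=
  fun x => decide (b.repr (z x) t = r)

section

variable {m p N : ℕ} [hp : Fact p.Prime] {K : Type} [Field K] [Algebra (ZMod p) K]
  (b : Module.Basis (Fin N) (ZMod p) K)

private theorem repr_mul_left (c y : K) (t : Fin N) :
    b.repr (c * y) t = ∑ t', b.repr y t' * b.repr (c * b t') t := by
  have h : c * y = ∑ t', b.repr y t' • (c * b t') := by
    conv_lhs => rw [← b.sum_repr y, Finset.mul_sum]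
    exact Finset.sum_congr rfl fun t' _ => mul_smul_comm _ _ _
  rw [h, map_sum, Finsupp.finsetSum_apply]
  exact Finset.sum_congr rfl fun t' _ => by
    rw [map_smul, Finsupp.smul_apply, smul_eq_mul]

private theorem sum_bit (z : (Fin n → Bool) → K) (x : Fin n → Bool) (t : Fin N)
    (g : ZMod p → ZMod p) :
    ∑ r, (if bit b z t r x then g r else 0) = g (b.repr (z x) t) := by
  have h : ∀ r, (if bit b z t r x then g r else 0) = if b.repr (z x) t = r then g r else 0 := by
    intro r
    unfold bit
    by_cases hr : b.repr (z x) t = r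
    · simp [hr]
    · simp [hr]
  rw [Finset.sum_congr rfl fun r _ => h r, Finset.sum_ite_eq, if_pos (Finset.mem_univ _)]

theorem loc_embed (hm : m ≠ 0) (hpm : p ∣ m) (V : Finset (BF n)) (a : BF n) (ha : a ∈ V)
    (t : Fin N) (r : ZMod p) :
    Loc m V 3 3 (bit b (fun x => if a x then 1 else 0) t r) := by
  have h := loc_lin hm hp.out hpm ({()} : Finset Unit) (fun _ => b.repr 1 t) 0 r (fun _ => a) V
    (fun _ _ => ha)
  have e : bit b (fun x => if a x then (1 : K) else 0) t r =
      fun x => decide (0 + ∑ i ∈ ({()} : Finset Unit), (if a x then b.repr 1 t else 0) = r) := by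
    funext x
    unfold bit
    rw [Finset.sum_singleton, zero_add]
    by_cases hx : a x
    · simp [hx]
    · simp [hx]
  rw [e]
  exact h

theorem loc_sum (hm : m ≠ 0) (hpm : p ∣ m) (V : Finset (BF n)) {ι : Type} (s : Finset ι)
    (z : ι → (Fin n → Bool) → K) (ρ : ι → K) (hz : ∀ i ∈ s, ∀ t r, bit b (z i) t r ∈ V)
    (t : Fin N) (r : ZMod p) :
    Loc m V 3 3 (bit b (fun x => ∑ i ∈ s, ρ i * z i x) t r) := by
  have h := loc_lin hm hp.out hpm (s ×ˢ (univ : Finset (Fin N)) ×ˢ (univ : Finset (ZMod p)))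
    (fun q => q.2.2 * b.repr (ρ q.1 * b q.2.1) t) 0 r (fun q => bit b (z q.1) q.2.1 q.2.2) V
    (fun q hq => hz q.1 (Finset.mem_product.1 hq).1 _ _)
  have e : bit b (fun x => ∑ i ∈ s, ρ i * z i x) t r =
      fun x => decide (0 + ∑ q ∈ s ×ˢ (univ : Finset (Fin N)) ×ˢ (univ : Finset (ZMod p)),
        (if bit b (z q.1) q.2.1 q.2.2 x then q.2.2 * b.repr (ρ q.1 * b q.2.1) t else 0) = r) := by
    funext x
    have h1 : b.repr (∑ i ∈ s, ρ i * z i x) t = 0 +
        ∑ q ∈ s ×ˢ (univ : Finset (Fin N)) ×ˢ (univ : Finset (ZMod p)),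
        (if bit b (z q.1) q.2.1 q.2.2 x then q.2.2 * b.repr (ρ q.1 * b q.2.1) t else 0) := by
      rw [zero_add, map_sum, Finsupp.finsetSum_apply, Finset.sum_product]
      refine Finset.sum_congr rfl fun i _ => ?_
      rw [repr_mul_left, Finset.sum_product]
      refine Finset.sum_congr rfl fun t' _ => ?_
      exact (sum_bit b (z i) x t' (fun r' => r' * b.repr (ρ i * b t') t)).symm
    show decide (b.repr (∑ i ∈ s, ρ i * z i x) t = r) = _
    rw [h1]
  rw [e]
  exact h

theorem loc_prod (hm : m ≠ 0) (hpm : p ∣ m) (V : Finset (BF n))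
    (z z' : (Fin n → Bool) → K) (hz : ∀ t r, bit b z t r ∈ V) (hz' : ∀ t r, bit b z' t r ∈ V)
    (t : Fin N) (r : ZMod p) :
    Loc m V 4 ((N * p) ^ 2 + 3) (bit b (fun x => z x * z' x) t r) := by
  classical
  set F : (Fin N × ZMod p) × (Fin N × ZMod p) → BF n :=
    fun q => gAnd [bit b z q.1.1 q.1.2, bit b z' q.2.1 q.2.2] with hF
  set V' : Finset (BF n) := (univ : Finset ((Fin N × ZMod p) × (Fin N × ZMod p))).image F with hV'
  have hcard : V'.card ≤ (N * p) ^ 2 := by
    refine Finset.card_image_le.trans (le_of_eq ?_)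
    rw [Finset.card_univ, Fintype.card_prod, Fintype.card_prod, Fintype.card_fin, ZMod.card, sq]
  have h1 : ∀ a ∈ V', Loc m V 1 1 a := by
    intro a ha
    obtain ⟨q, -, rfl⟩ := Finset.mem_image.1 ha
    have h2 := loc_gAnd (m := m) (V := V) (δ := 0) (σ := 0)
      [bit b z q.1.1 q.1.2, bit b z' q.2.1 q.2.2] (by simp) (by
        intro c hc
        rcases List.mem_cons.1 hc with rfl | hc
        · exact loc_mem (hz _ _)
        · rw [List.mem_singleton.1 hc]
          exact loc_mem (hz' _ _))
    exact loc_mono (Finset.Subset.refl _) (by omega) (by omega) h2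
  have h := loc_lin hm hp.out hpm (univ : Finset ((Fin N × ZMod p) × (Fin N × ZMod p)))
    (fun q => q.1.2 * (q.2.2 * b.repr (b q.1.1 * b q.2.1) t)) 0 r F V'
    (fun q _ => Finset.mem_image_of_mem _ (Finset.mem_univ _))
  have e : bit b (fun x => z x * z' x) t r =
      fun x => decide (0 + ∑ q ∈ (univ : Finset ((Fin N × ZMod p) × (Fin N × ZMod p))),
        (if F q x then q.1.2 * (q.2.2 * b.repr (b q.1.1 * b q.2.1) t) else 0) = r) := by
    funext x
    have hFx : ∀ q, F q x = (bit b z q.1.1 q.1.2 x && bit b z' q.2.1 q.2.2 x) := by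
      intro q
      simp [hF, gAnd]
    have h3 : b.repr (z x * z' x) t = 0 +
        ∑ q ∈ (univ : Finset ((Fin N × ZMod p) × (Fin N × ZMod p))),
        (if F q x then q.1.2 * (q.2.2 * b.repr (b q.1.1 * b q.2.1) t) else 0) := by
      have h4 : ∀ q : (Fin N × ZMod p) × (Fin N × ZMod p),
          (if F q x then q.1.2 * (q.2.2 * b.repr (b q.1.1 * b q.2.1) t) else 0) =
          if bit b z q.1.1 q.1.2 x then q.1.2 * (if bit b z' q.2.1 q.2.2 x then
            q.2.2 * b.repr (b q.1.1 * b q.2.1) t else 0) else 0 := by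
        intro q
        rw [hFx q]
        by_cases ha : bit b z q.1.1 q.1.2 x
        · by_cases hb : bit b z' q.2.1 q.2.2 x
          · simp [ha, hb]
          · simp [ha, hb]
        · simp [ha]
      rw [zero_add, Finset.sum_congr rfl fun q _ => h4 q, Fintype.sum_prod_type,
        Fintype.sum_prod_type]
      rw [mul_comm (z x) (z' x), repr_mul_left]
      refine Finset.sum_congr rfl fun t1 _ => ?_
      have h5 : ∀ r1 : ZMod p, ∑ y : Fin N × ZMod p, (if bit b z t1 r1 x then
          r1 * (if bit b z' y.1 y.2 x then y.2 * b.repr (b t1 * b y.1) t else 0) else 0) =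
          if bit b z t1 r1 x then r1 * b.repr (z' x * b t1) t else 0 := by
        intro r1
        by_cases ha : bit b z t1 r1 x
        · simp only [ha, if_true]
          rw [← Finset.mul_sum, ← Finset.univ_product_univ, Finset.sum_product,
            mul_comm (z' x) (b t1), repr_mul_left]
          congr 1
          refine Finset.sum_congr rfl fun t2 _ => ?_
          exact sum_bit b z' x t2 (fun r' => r' * b.repr (b t1 * b t2) t)
        · simp [ha]
      refine Eq.trans ?_ (Finset.sum_congr rfl fun r1 _ => (h5 r1).symm)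
      exact (sum_bit b z x t1 (fun r' => r' * b.repr (z' x * b t1) t)).symm
    show decide (b.repr (z x * z' x) t = r) = _
    rw [h3]
  rw [e]
  exact loc_mono (Finset.Subset.refl _) (by omega) (by omega) (loc_trans h1 h)

theorem loc_nonzero [DecidableEq K] (V : Finset (BF n)) (z : (Fin n → Bool) → K)
    (hz : ∀ t r, bit b z t r ∈ V) :
    Loc m V (Nat.log 2 N + 3) (9 * N + 8) (fun x => decide (z x ≠ 0)) := by
  set F : Fin N → BF n := fun t => gNot (bit b z t 0) with hF
  set V' : Finset (BF n) := (univ : Finset (Fin N)).image F with hV'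
  have hcard : V'.card ≤ N := by
    refine Finset.card_image_le.trans (le_of_eq ?_)
    rw [Finset.card_univ, Fintype.card_fin]
  have h1 : ∀ a ∈ V', Loc m V 1 1 a := by
    intro a ha
    obtain ⟨q, -, rfl⟩ := Finset.mem_image.1 ha
    exact loc_gNot (loc_mem (hz _ _))
  have h2 := loc_or (m := m) (V := V') ((List.finRange N).map F) (by
    intro a ha
    obtain ⟨t, -, rfl⟩ := List.mem_map.1 ha
    exact Finset.mem_image_of_mem _ (Finset.mem_univ _))
  rw [List.length_map, List.length_finRange] at h2
  have e : (fun x => decide (z x ≠ 0)) = gOr ((List.finRange N).map F) := by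
    funext x
    rw [Bool.eq_iff_iff]
    simp only [gOr, hF, gNot, bit, List.any_map, List.any_eq_true, Function.comp,
      decide_eq_true_eq, Bool.not_eq_true', decide_eq_false_iff_not, List.mem_finRange, true_and]
    constructor
    · intro h
      by_contra hcon
      push Not at hcon
      apply h
      have h0 : b.repr (z x) = 0 := Finsupp.ext hcon
      exact b.repr.map_eq_zero_iff.1 h0
    · rintro ⟨t, ht⟩ h0
      apply ht
      rw [h0, map_zero, Finsupp.zero_apply]
  rw [e]
  exact loc_mono (Finset.Subset.refl _) (by omega) (by omega) (loc_trans h1 h2)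

theorem loc_fun8 (hm : m ≠ 0) (hpm : p ∣ m) (V : Finset (BF n)) (z : (Fin n → Bool) → K)
    (hz : ∀ t r, bit b z t r ∈ V) (u : Fin 8 → Fin N → ZMod p) :
    Loc m V 9 110 (fun x => decide (∃ k, ∑ t, u k t * b.repr (z x) t ≠ 0)) := by
  have h := loc_test8 hm hp.out hpm (univ : Finset (Fin N × ZMod p))
    (fun k q => u k q.1 * q.2) (fun q => bit b z q.1 q.2) V (fun q _ => hz _ _)
  have e : (fun x => decide (∃ k, ∑ t, u k t * b.repr (z x) t ≠ 0)) =
      fun x => decide (∃ k, ∑ i ∈ (univ : Finset (Fin N × ZMod p)),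
        (if bit b z i.1 i.2 x then u k i.1 * i.2 else 0) ≠ 0) := by
    funext x
    have h1 : ∀ k, ∑ i ∈ (univ : Finset (Fin N × ZMod p)),
        (if bit b z i.1 i.2 x then u k i.1 * i.2 else 0) = ∑ t, u k t * b.repr (z x) t := by
      intro k
      rw [← Finset.univ_product_univ, Finset.sum_product]
      exact Finset.sum_congr rfl fun t _ => sum_bit b z x t (fun r' => u k t * r')
    simp only [h1]
  rw [e]
  exact h

end

end C78
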