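import Pool.Agent.C78.LocOr

/-!
# C78/LocLin: `F_p`-linear tests by one `MOD_m` gate (`p ∣ m`)

`loc_lin`.  Let `q = m / p` (so `m = p * q`, `q ≠ 0`).  Let `tt = gAnd []` (the constant `true`).
List: `l = (s.toList.flatMap fun i => List.replicate (q * (c i).val) (f i)) ++
List.replicate (q * (c0 - r).val) tt`.  For every `x`, `l.countP (· x) =
q * (∑ i ∈ s, if f i x then (c i).val else 0) + q * (c0 - r).val`, and `m ∣` this iff
`p ∣ (∑ ...) + (c0 - r).val` iff `(c0 + ∑ ...) - r = 0` in `ZMod p` (`ZMod.natCast_eq_zero_iff`,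
`ZMod.natCast_zmod_val`).  So the function is `gNot (gMod m l)`; the local circuit has the three
functions `tt` (depth 1), `gMod m l` (depth 2), `gNot (gMod m l)` (depth 3).

`loc_test8`: each of the 8 functions `fun x => decide (∑ ... ≠ 0)` is `gNot` of a `loc_lin`
function (depth 4, size 4), then `loc_or` for the list of the 8 functions (depth `log₂ 8 + 2 = 5`,
size `72`) and `loc_trans` (`V' =` the finset of these 8 functions: `8 * 4 + 72 = 104`).
`loc_test8'` (for AND): `loc_lin` (depth 3, size 3) for the 8 functions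
`fun x => decide (∑ ... = 0)`, with `∑ b ∈ s, (if f b x then 0 else u k b) =
(∑ b ∈ s, u k b) + ∑ b ∈ s, (if f b x then - u k b else 0)`, then `loc_and`.
-/

namespace C78

open Finset

variable {n : ℕ}

/-- three new functions -/
private def ch3 (t g g' : BF n) : ℕ → Finset (BF n)
  | 0 => ∅
  | 1 => {t}
  | 2 => {t, g}
  | _ + 3 => {t, g, g'}

private theorem ch3_succ (t g g' : BF n) (j : ℕ) : ch3 t g g' j ⊆ ch3 t g g' (j + 1) := by
  match j with
  | 0 => exact empty_subset _
  | 1 =>
    intro a ha
    simp only [ch3, mem_singleton, mem_insert] at ha ⊢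
    exact Or.inl ha
  | 2 =>
    intro a ha
    simp only [ch3, mem_singleton, mem_insert] at ha ⊢
    tauto
  | j + 3 => exact Subset.refl _

theorem loc_lin {m p : ℕ} (hm : m ≠ 0) (hp : p.Prime) (hpm : p ∣ m) {ι : Type} (s : Finset ι)
    (c : ι → ZMod p) (c0 r : ZMod p) (f : ι → BF n) (V : Finset (BF n)) (hf : ∀ i ∈ s, f i ∈ V) :
    Loc m V 3 3 (fun x => decide (c0 + ∑ i ∈ s, (if f i x then c i else 0) = r)) := by
  have : Fact p.Prime := ⟨hp⟩
  have : NeZero p := ⟨hp.ne_zero⟩
  obtain ⟨q, hq⟩ := hpm
  have hq0 : 0 < q := by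
    rcases Nat.eq_zero_or_pos q with h | h
    · rw [h, mul_zero] at hq
      exact absurd hq hm
    · exact h
  set tt : BF n := gAnd [] with htt
  set l : List (BF n) := (s.toList.flatMap fun i => List.replicate (q * (c i).val) (f i)) ++
    List.replicate (q * (c0 - r).val) tt with hl
  have httx : ∀ x, tt x = true := fun x => by simp [htt, gAnd]
  have hcount : ∀ x, l.countP (fun a => a x) =
      q * ((∑ i ∈ s, if f i x then (c i).val else 0) + (c0 - r).val) := by
    intro x
    rw [hl, List.countP_append, List.countP_flatMap, List.countP_replicate, httx x, if_pos rfl,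
      mul_add, mul_sum]
    congr 1
    rw [← Finset.sum_map_toList]
    congr 1
    apply List.map_congr_left
    intro i _
    show (List.replicate (q * (c i).val) (f i)).countP (fun a => a x) = _
    rw [List.countP_replicate]
    by_cases hx : f i x = true
    · simp [hx]
    · simp [hx]
  have hiff : ∀ x, m ∣ l.countP (fun a => a x) ↔
      c0 + ∑ i ∈ s, (if f i x then c i else 0) = r := by
    intro x
    rw [hcount x, hq, mul_comm p q, Nat.mul_dvd_mul_iff_left hq0, ← ZMod.natCast_eq_zero_iff]
    push_cast
    have h1 : ∀ i ∈ s, ((if f i x then ((c i).val : ZMod p) else 0)) =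
        if f i x then c i else 0 := by
      intro i _
      rw [ZMod.natCast_zmod_val]
    rw [Finset.sum_congr rfl h1, ZMod.natCast_zmod_val]
    constructor
    · intro h
      linear_combination h
    · intro h
      linear_combination h
  have he : (fun x => decide (c0 + ∑ i ∈ s, (if f i x then c i else 0) = r)) =
      gNot (gMod m l) := by
    funext x
    simp only [gNot, gMod]
    rw [Bool.eq_iff_iff]
    simp only [decide_eq_true_eq, Bool.not_eq_true', decide_eq_false_iff_not, not_not]
    exact (hiff x).symm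
  rw [he]
  refine ⟨ch3 tt (gMod m l) (gNot (gMod m l)), monotone_nat_of_le_succ (ch3_succ _ _ _), rfl, ?_,
    card_le_three, Or.inr ?_⟩
  · have h1 : G2 m (V ∪ ∅) tt := Or.inr (Or.inl ⟨[], by simp, by simp, Or.inl rfl⟩)
    have h2 : G2 m (V ∪ {tt}) (gMod m l) := by
      refine Or.inr (Or.inr ⟨l, ?_, rfl⟩)
      intro a ha
      rw [hl, List.mem_append] at ha
      rcases ha with ha | ha
      · obtain ⟨i, hi, hia⟩ := List.mem_flatMap.1 ha
        rw [List.eq_of_mem_replicate hia]
        exact mem_union_left _ (hf i (Finset.mem_toList.1 hi))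
      · rw [List.eq_of_mem_replicate ha]
        exact mem_union_right _ (mem_singleton_self _)
    have h3 : G2 m (V ∪ {tt, gMod m l}) (gNot (gMod m l)) :=
      Or.inl ⟨gMod m l, mem_union_right _ (mem_insert_of_mem (mem_singleton_self _)), rfl⟩
    intro j
    match j with
    | 0 =>
      intro a ha
      rw [show ch3 tt (gMod m l) (gNot (gMod m l)) (0 + 1) = {tt} from rfl, mem_singleton] at ha
      rw [ha]
      exact Or.inr h1
    | 1 =>
      intro a ha
      rw [show ch3 tt (gMod m l) (gNot (gMod m l)) (1 + 1) = {tt, gMod m l} from rfl, mem_insert,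
        mem_singleton] at ha
      rcases ha with ha | ha
      · rw [ha]
        exact Or.inl (mem_singleton_self _)
      · rw [ha]
        exact Or.inr h2
    | 2 =>
      intro a ha
      rw [show ch3 tt (gMod m l) (gNot (gMod m l)) (2 + 1) =
        {tt, gMod m l, gNot (gMod m l)} from rfl, mem_insert, mem_insert, mem_singleton] at ha
      rcases ha with ha | ha | ha
      · rw [ha]
        exact Or.inl (mem_insert_self _ _)
      · rw [ha]
        exact Or.inl (mem_insert_of_mem (mem_singleton_self _))
      · rw [ha]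
        exact Or.inr h3
    | j + 3 =>
      intro a ha
      exact Or.inl ha
  · exact mem_insert_of_mem (mem_insert_of_mem (mem_singleton_self _))

private theorem image8 (h : Fin 8 → BF n) : ((univ : Finset (Fin 8)).image h).card ≤ 8 := by
  refine card_image_le.trans (le_of_eq ?_)
  rw [card_univ, Fintype.card_fin]

theorem loc_test8 {m p : ℕ} (hm : m ≠ 0) (hp : p.Prime) (hpm : p ∣ m) {ι : Type} (s : Finset ι)
    (u : Fin 8 → ι → ZMod p) (f : ι → BF n) (V : Finset (BF n)) (hf : ∀ i ∈ s, f i ∈ V) :
    Loc m V 9 110 (fun x => decide (∃ k, ∑ i ∈ s, (if f i x then u k i else 0) ≠ 0)) := by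
  set h : Fin 8 → BF n := fun k => gNot (fun x => decide (0 + ∑ i ∈ s,
    (if f i x then u k i else 0) = 0)) with hh
  have h1 : ∀ a ∈ (univ : Finset (Fin 8)).image h, Loc m V 4 4 a := by
    intro a ha
    obtain ⟨k, -, rfl⟩ := mem_image.1 ha
    exact loc_gNot (loc_lin hm hp hpm s (u k) 0 0 f V hf)
  have h2 := loc_or (m := m) (V := (univ : Finset (Fin 8)).image h) ((List.finRange 8).map h) (by
    intro a ha
    obtain ⟨k, -, rfl⟩ := List.mem_map.1 ha
    exact mem_image_of_mem _ (mem_univ _))
  rw [List.length_map, List.length_finRange] at h2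
  have hlog : Nat.log 2 8 = 3 := by norm_num
  rw [hlog] at h2
  have he : (fun x => decide (∃ k, ∑ i ∈ s, (if f i x then u k i else 0) ≠ 0)) =
      gOr ((List.finRange 8).map h) := by
    funext x
    rw [Bool.eq_iff_iff]
    simp only [gOr, hh, gNot, List.any_map, List.any_eq_true, Function.comp,
      decide_eq_true_eq, Bool.not_eq_true', decide_eq_false_iff_not, List.mem_finRange, true_and,
      zero_add, ne_eq]
  rw [he]
  have := image8 h
  exact loc_mono (Subset.refl _) (by omega) (by omega) (loc_trans h1 h2)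

theorem loc_test8' {m p : ℕ} (hm : m ≠ 0) (hp : p.Prime) (hpm : p ∣ m) {ι : Type} (s : Finset ι)
    (u : Fin 8 → ι → ZMod p) (f : ι → BF n) (V : Finset (BF n)) (hf : ∀ i ∈ s, f i ∈ V) :
    Loc m V 9 110 (fun x => decide (∀ k, ∑ i ∈ s, (if f i x then 0 else u k i) = 0)) := by
  set h : Fin 8 → BF n := fun k => (fun x => decide ((∑ i ∈ s, u k i) + ∑ i ∈ s,
    (if f i x then - u k i else 0) = 0)) with hh
  have h1 : ∀ a ∈ (univ : Finset (Fin 8)).image h, Loc m V 3 3 a := by
    intro a ha
    obtain ⟨k, -, rfl⟩ := mem_image.1 ha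
    exact loc_lin hm hp hpm s (fun i => - u k i) (∑ i ∈ s, u k i) 0 f V hf
  have h2 := loc_and (m := m) (V := (univ : Finset (Fin 8)).image h) ((List.finRange 8).map h) (by
    intro a ha
    obtain ⟨k, -, rfl⟩ := List.mem_map.1 ha
    exact mem_image_of_mem _ (mem_univ _))
  rw [List.length_map, List.length_finRange] at h2
  have hlog : Nat.log 2 8 = 3 := by norm_num
  rw [hlog] at h2
  have he : (fun x => decide (∀ k, ∑ i ∈ s, (if f i x then 0 else u k i) = 0)) =
      gAnd ((List.finRange 8).map h) := by
    funext x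
    have h3 : ∀ k, ∑ i ∈ s, (if f i x then 0 else u k i) =
        (∑ i ∈ s, u k i) + ∑ i ∈ s, (if f i x then - u k i else 0) := by
      intro k
      rw [← sum_add_distrib]
      apply sum_congr rfl
      intro i _
      by_cases hx : f i x = true
      · simp [hx]
      · simp [hx]
    rw [Bool.eq_iff_iff]
    simp only [gAnd, hh, List.all_map, List.all_eq_true, Function.comp,
      decide_eq_true_eq, List.mem_finRange, true_imp_iff, h3]
  rw [he]
  have := image8 h
  exact loc_mono (Subset.refl _) (by omega) (by omega) (loc_trans h1 h2)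

end C78
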