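import Pool.Agent.C78.Chain

/-!
# C78/LocOr: balanced AND / OR trees

Proof: first, by induction on `e`, for lists with `l.length ≤ 2 ^ e` the function `gOr l` has a
local circuit of depth `e + 1` and size `2 * l.length + 1 - (if l = [] then 0 else 2)`: lists of
length `≤ 1` are one gate (fan-in at most 2 is allowed, `gOr []` = false); a longer list is
`l.take k ++ l.drop k` with `k = (l.length + 1) / 2`, and `gOr (l₁ ++ l₂) = gOr [gOr l₁, gOr l₂]`;
sizes: with `s(k) = 2k - 1` for `k ≥ 1`, `s(0) = 1` one has `s(k₁) + s(k₂) + 1 ≤ s(k₁ + k₂)` for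
`k₁, k₂ ≥ 1`.  (`loc_gOr` of Chain uses the same `σ` for both inputs and gives a cruder size, so
either prove directly the version with two different sizes from `loc_trans`-like union of chains,
or use the crude recursion `s(2^(e+1)) = 2 s(2^e) + 1`, which gives size `≤ 2 * 2 ^ (e + 1)`; with
`e = Nat.log 2 l.length + 1` this is `≤ 8 * l.length + 8`: this is enough for the statement.)
Then `e := Nat.log 2 l.length + 1`, `l.length < 2 ^ e` (`Nat.lt_pow_succ_log_self`).
-/

namespace C78

open Finset

variable {n : ℕ}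

private lemma gOr_split (k : ℕ) (l : List (BF n)) : gOr l = gOr [gOr (l.take k), gOr (l.drop k)] := by
  funext x
  unfold gOr
  simp only [List.any_cons, List.any_nil, Bool.or_false]
  rw [← List.any_append, List.take_append_drop]

private lemma gAnd_split (k : ℕ) (l : List (BF n)) :
    gAnd l = gAnd [gAnd (l.take k), gAnd (l.drop k)] := by
  funext x
  unfold gAnd
  simp only [List.all_cons, List.all_nil, Bool.and_true]
  rw [← List.all_append, List.take_append_drop]

private lemma tree_ind {m : ℕ} {V : Finset (BF n)} (g : List (BF n) → BF n)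
    (hg : ∀ (δ σ : ℕ) (l : List (BF n)), l.length ≤ 2 → (∀ b ∈ l, Loc m V δ σ b) →
      Loc m V (δ + 1) (l.length * σ + 1) (g l))
    (hs : ∀ (k : ℕ) (l : List (BF n)), g l = g [g (l.take k), g (l.drop k)]) (e : ℕ) :
    ∀ l : List (BF n), l.length ≤ 2 ^ e → (∀ b ∈ l, b ∈ V) →
      Loc m V (e + 1) (2 ^ (e + 1) - 1) (g l) := by
  induction e with
  | zero =>
    intro l hl h
    have h1 := hg 0 0 l (by simp at hl; omega) fun b hb => loc_mem (h b hb)
    exact loc_mono (Finset.Subset.refl _) le_rfl (by simp) h1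
  | succ e ih =>
    intro l hl h
    have hl1 : (l.take (2 ^ e)).length ≤ 2 ^ e := by
      rw [List.length_take]
      exact min_le_left _ _
    have hl2 : (l.drop (2 ^ e)).length ≤ 2 ^ e := by
      rw [List.length_drop]
      rw [pow_succ] at hl
      omega
    have i1 := ih (l.take (2 ^ e)) hl1 fun b hb => h b (List.mem_of_mem_take hb)
    have i2 := ih (l.drop (2 ^ e)) hl2 fun b hb => h b (List.mem_of_mem_drop hb)
    rw [hs (2 ^ e) l]
    have h1 := hg (e + 1) (2 ^ (e + 1) - 1) [g (l.take (2 ^ e)), g (l.drop (2 ^ e))] le_rfl (by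
      intro b hb
      simp only [List.mem_cons, List.not_mem_nil, or_false] at hb
      rcases hb with rfl | rfl
      · exact i1
      · exact i2)
    refine loc_mono (Finset.Subset.refl _) le_rfl ?_ h1
    have h2 : 0 < 2 ^ (e + 1) := by positivity
    have h3 : 2 ^ (e + 1 + 1) = 2 ^ (e + 1) * 2 := pow_succ _ _
    simp only [List.length_cons, List.length_nil]
    omega

private lemma tree_all {m : ℕ} {V : Finset (BF n)} (g : List (BF n) → BF n)
    (hg : ∀ (δ σ : ℕ) (l : List (BF n)), l.length ≤ 2 → (∀ b ∈ l, Loc m V δ σ b) →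
      Loc m V (δ + 1) (l.length * σ + 1) (g l))
    (hs : ∀ (k : ℕ) (l : List (BF n)), g l = g [g (l.take k), g (l.drop k)])
    (l : List (BF n)) (h : ∀ b ∈ l, b ∈ V) :
    Loc m V (Nat.log 2 l.length + 2) (8 * l.length + 8) (g l) := by
  have h1 := tree_ind g hg hs (Nat.log 2 l.length + 1) l
    (Nat.lt_pow_succ_log_self (by norm_num) _).le h
  refine loc_mono (Finset.Subset.refl _) le_rfl ?_ h1
  have h3 : 2 ^ (Nat.log 2 l.length + 1 + 1) = 4 * 2 ^ Nat.log 2 l.length := by
    rw [pow_succ, pow_succ]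
    ring
  rw [h3]
  rcases Nat.eq_zero_or_pos l.length with h0 | h0
  · rw [h0]
    norm_num
  · have h4 := Nat.pow_log_le_self 2 h0.ne'
    omega

theorem loc_or {m : ℕ} {V : Finset (BF n)} (l : List (BF n)) (h : ∀ b ∈ l, b ∈ V) :
    Loc m V (Nat.log 2 l.length + 2) (8 * l.length + 8) (gOr l) :=
  tree_all gOr (fun _ _ l hl h => loc_gOr l hl h) gOr_split l h

theorem loc_and {m : ℕ} {V : Finset (BF n)} (l : List (BF n)) (h : ∀ b ∈ l, b ∈ V) :
    Loc m V (Nat.log 2 l.length + 2) (8 * l.length + 8) (gAnd l) :=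
  tree_all gAnd (fun _ _ l hl h => loc_gAnd l hl h) gAnd_split l h

end C78
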