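import Mathlib

/-!
# C78/Pr: probability of a predicate on a finite type (elementary counting)

All proofs are elementary counting: cards of filters of products and function types.
* `pr_prod_le`: the filter of the product is the disjoint union over `ω` of the filters of the
  fibres (`Finset.card_filter`, `Fintype.sum_prod_type`), each of which has at most
  `e * card Ω'` elements.
* `pr_pi_all`: the filter is `Fintype.piFinset` of (filter q on `s`, univ off `s`),
  `Fintype.card_piFinset`.
-/

namespace C78

open Finset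

open Classical in
/-- fraction of the `ω` satisfying `q` -/
noncomputable def pr {Ω : Type*} [Fintype Ω] (q : Ω → Prop) : ℝ :=
  ((Finset.univ.filter q).card : ℝ) / (Fintype.card Ω : ℝ)

variable {Ω Ω' : Type*} [Fintype Ω] [Fintype Ω']

theorem pr_eq (q : Ω → Prop) [DecidablePred q] :
    pr q = ((Finset.univ.filter q).card : ℝ) / (Fintype.card Ω : ℝ) := by
  unfold pr
  congr!

theorem pr_nonneg (q : Ω → Prop) : 0 ≤ pr q := by
  unfold pr
  positivity

theorem pr_le_one (q : Ω → Prop) : pr q ≤ 1 := by
  unfold pr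
  refine div_le_one_of_le₀ ?_ (by positivity)
  exact_mod_cast Finset.card_le_univ _

theorem pr_mono {q q' : Ω → Prop} (h : ∀ ω, q ω → q' ω) : pr q ≤ pr q' := by
  classical
  rw [pr_eq, pr_eq]
  refine div_le_div_of_nonneg_right ?_ (by positivity)
  have : (Finset.univ.filter q).card ≤ (Finset.univ.filter q').card := by
    refine Finset.card_le_card fun ω hω => ?_
    rw [Finset.mem_filter] at hω ⊢
    exact ⟨hω.1, h ω hω.2⟩
  exact_mod_cast this

theorem pr_false : pr (fun _ : Ω => False) = 0 := by
  rw [pr_eq]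
  simp

theorem pr_or_le (q q' : Ω → Prop) : pr (fun ω => q ω ∨ q' ω) ≤ pr q + pr q' := by
  classical
  rw [pr_eq, pr_eq, pr_eq]
  rw [← add_div]
  refine div_le_div_of_nonneg_right ?_ (by positivity)
  have h1 : (Finset.univ.filter (fun ω => q ω ∨ q' ω)).card ≤
      (Finset.univ.filter q ∪ Finset.univ.filter q').card := by
    refine Finset.card_le_card fun ω hω => ?_
    simp only [Finset.mem_union, Finset.mem_filter, Finset.mem_univ, true_and] at hω ⊢
    exact hω
  have h2 := Finset.card_union_le (Finset.univ.filter q) (Finset.univ.filter q')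
  have h3 : ((Finset.univ.filter (fun ω => q ω ∨ q' ω)).card : ℝ) ≤
      (((Finset.univ.filter q).card + (Finset.univ.filter q').card : ℕ) : ℝ) := by
    exact_mod_cast le_trans h1 h2
  rw [Nat.cast_add] at h3
  exact h3

theorem pr_exists_le {ι : Type*} (s : Finset ι) (q : ι → Ω → Prop) :
    pr (fun ω => ∃ i ∈ s, q i ω) ≤ ∑ i ∈ s, pr (q i) := by
  classical
  induction s using Finset.induction_on with
  | empty =>
    have : (fun ω => ∃ i ∈ (∅ : Finset ι), q i ω) = fun _ => False := by
      funext ω
      simp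
    rw [this, pr_false]
    simp
  | insert a s ha ih =>
    rw [Finset.sum_insert ha]
    refine le_trans (pr_mono (q' := fun ω => q a ω ∨ ∃ i ∈ s, q i ω) ?_) ?_
    · rintro ω ⟨i, hi, h⟩
      rcases Finset.mem_insert.1 hi with rfl | hi
      · exact Or.inl h
      · exact Or.inr ⟨i, hi, h⟩
    · exact le_trans (pr_or_le _ _) (by linarith)

/-- if every fibre has probability at most `e`, so has the product event -/
theorem pr_prod_le {q : Ω × Ω' → Prop} {e : ℝ} (he : 0 ≤ e)
    (h : ∀ ω, pr (fun ω' => q (ω, ω')) ≤ e) : pr q ≤ e := by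
  classical
  have hc : (Finset.univ.filter q).card =
      ∑ ω, (Finset.univ.filter (fun ω' => q (ω, ω'))).card := by
    rw [Finset.card_filter, Fintype.sum_prod_type]
    refine Finset.sum_congr rfl fun ω _ => ?_
    rw [Finset.card_filter]
  have h : ∀ ω, ((Finset.univ.filter (fun ω' => q (ω, ω'))).card : ℝ) / (Fintype.card Ω' : ℝ) ≤
      e := by
    intro ω
    have := h ω
    rw [pr_eq] at this
    exact this
  rw [pr_eq]
  rcases (Nat.eq_zero_or_pos (Fintype.card Ω')) with h0 | h0
  · have : Fintype.card (Ω × Ω') = 0 := by rw [Fintype.card_prod, h0, mul_zero]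
    rw [this]
    simp [he]
  rcases (Nat.eq_zero_or_pos (Fintype.card Ω)) with h00 | h00
  · have : Fintype.card (Ω × Ω') = 0 := by rw [Fintype.card_prod, h00, zero_mul]
    rw [this]
    simp [he]
  have h0' : (0 : ℝ) < Fintype.card Ω' := by exact_mod_cast h0
  have h00' : (0 : ℝ) < Fintype.card Ω := by exact_mod_cast h00
  rw [Fintype.card_prod, Nat.cast_mul, div_le_iff₀ (by positivity)]
  have h1 : ∀ ω, ((Finset.univ.filter (fun ω' => q (ω, ω'))).card : ℝ) ≤
      e * Fintype.card Ω' := by
    intro ω
    have := h ω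
    rw [div_le_iff₀ h0'] at this
    exact this
  have h2 : ((Finset.univ.filter q).card : ℝ) ≤ ∑ _ω : Ω, e * Fintype.card Ω' := by
    rw [hc]
    push_cast
    exact Finset.sum_le_sum fun ω _ => h1 ω
  rw [Finset.sum_const, Finset.card_univ, nsmul_eq_mul] at h2
  refine le_trans h2 (le_of_eq ?_)
  ring

theorem pr_and_prod (q : Ω → Prop) (q' : Ω' → Prop) :
    pr (fun w : Ω × Ω' => q w.1 ∧ q' w.2) = pr q * pr q' := by
  classical
  rw [pr_eq, pr_eq, pr_eq]
  have h : (Finset.univ.filter (fun w : Ω × Ω' => q w.1 ∧ q' w.2)).card =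
      (Finset.univ.filter q).card * (Finset.univ.filter q').card := by
    rw [← Finset.card_product]
    congr 1
    ext w
    simp only [Finset.mem_filter, Finset.mem_univ, true_and, Finset.mem_product]
  rw [Fintype.card_prod, h, Nat.cast_mul, Nat.cast_mul, div_mul_div_comm]

theorem pr_fst [Nonempty Ω'] (q : Ω → Prop) : pr (fun w : Ω × Ω' => q w.1) = pr q := by
  have h := pr_and_prod q (fun _ : Ω' => True)
  have h1 : pr (fun _ : Ω' => True) = 1 := by
    rw [pr_eq]
    simp only [Finset.filter_true, Finset.card_univ]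
    have : (Fintype.card Ω' : ℝ) ≠ 0 := by
      exact_mod_cast Fintype.card_ne_zero
    exact div_self this
  rw [h1, mul_one] at h
  rw [← h]
  congr 1
  funext w
  simp

theorem pr_snd [Nonempty Ω] (q : Ω' → Prop) : pr (fun w : Ω × Ω' => q w.2) = pr q := by
  have h := pr_and_prod (fun _ : Ω => True) q
  have h1 : pr (fun _ : Ω => True) = 1 := by
    rw [pr_eq]
    simp only [Finset.filter_true, Finset.card_univ]
    have : (Fintype.card Ω : ℝ) ≠ 0 := by
      exact_mod_cast Fintype.card_ne_zero
    exact div_self this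
  rw [h1, one_mul] at h
  rw [← h]
  congr 1
  funext w
  simp

theorem pr_equiv (e : Ω ≃ Ω') (q : Ω' → Prop) : pr (fun ω => q (e ω)) = pr q := by
  classical
  rw [pr_eq, pr_eq]
  rw [Fintype.card_congr e]
  congr 2
  refine Finset.card_bij (fun ω _ => e ω) ?_ ?_ ?_
  · intro ω hω
    rw [Finset.mem_filter] at hω ⊢
    exact ⟨Finset.mem_univ _, hω.2⟩
  · intro a _ b _ hab
    exact e.injective hab
  · intro b hb
    rw [Finset.mem_filter] at hb
    refine ⟨e.symm b, ?_, e.apply_symm_apply b⟩
    rw [Finset.mem_filter]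
    refine ⟨Finset.mem_univ _, ?_⟩
    rw [e.apply_symm_apply]
    exact hb.2

/-- independent coordinates -/
theorem pr_pi_all {ι : Type*} [Fintype ι] [DecidableEq ι] [Nonempty Ω] (s : Finset ι)
    (q : Ω → Prop) : pr (fun w : ι → Ω => ∀ i ∈ s, q (w i)) = (pr q) ^ s.card := by
  classical
  have hO : (Fintype.card Ω : ℝ) ≠ 0 := by exact_mod_cast Fintype.card_ne_zero
  have h1 : (Finset.univ.filter (fun w : ι → Ω => ∀ i ∈ s, q (w i))) =
      Fintype.piFinset (fun i => if i ∈ s then Finset.univ.filter q else Finset.univ) := by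
    ext w
    simp only [Finset.mem_filter, Finset.mem_univ, true_and, Fintype.mem_piFinset]
    constructor
    · intro h i
      by_cases hi : i ∈ s
      · rw [if_pos hi, Finset.mem_filter]
        exact ⟨Finset.mem_univ _, h i hi⟩
      · rw [if_neg hi]
        exact Finset.mem_univ _
    · intro h i hi
      have := h i
      rw [if_pos hi, Finset.mem_filter] at this
      exact this.2
  have h2 : ((Finset.univ.filter (fun w : ι → Ω => ∀ i ∈ s, q (w i))).card : ℝ) =
      ∏ i, (if i ∈ s then ((Finset.univ.filter q).card : ℝ) else (Fintype.card Ω : ℝ)) := by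
    rw [h1, Fintype.card_piFinset]
    push_cast
    refine Finset.prod_congr rfl fun i _ => ?_
    by_cases hi : i ∈ s
    · rw [if_pos hi, if_pos hi]
    · rw [if_neg hi, if_neg hi, Finset.card_univ]
  have h3 : (Fintype.card (ι → Ω) : ℝ) = ∏ _i : ι, (Fintype.card Ω : ℝ) := by
    rw [Fintype.card_fun, Finset.prod_const, Finset.card_univ]
    push_cast
    rfl
  have h4 : pr (fun w : ι → Ω => ∀ i ∈ s, q (w i)) =
      ((Finset.univ.filter (fun w : ι → Ω => ∀ i ∈ s, q (w i))).card : ℝ) /
        (Fintype.card (ι → Ω) : ℝ) := by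
    rw [pr_eq]
  have h5 : pr q = ((Finset.univ.filter q).card : ℝ) / (Fintype.card Ω : ℝ) := by
    rw [pr_eq]
  rw [h4, h2, h3, ← Finset.prod_div_distrib, ← Finset.prod_const, ← Finset.prod_subset
    (Finset.subset_univ s) (f := fun i => (if i ∈ s then ((Finset.univ.filter q).card : ℝ) else
      (Fintype.card Ω : ℝ)) / (Fintype.card Ω : ℝ))]
  · refine Finset.prod_congr rfl fun i hi => ?_
    rw [if_pos hi, h5]
  · intro i _ hi
    rw [if_neg hi]
    exact div_self hO

/-- one coordinate of a family -/
theorem pr_coord {ι : Type*} [Fintype ι] [DecidableEq ι] [Nonempty Ω] (i : ι) (q : Ω → Prop) :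
    pr (fun w : ι → Ω => q (w i)) = pr q := by
  have h := pr_pi_all ({i} : Finset ι) q
  rw [Finset.card_singleton, pow_one] at h
  rw [← h]
  congr 1
  funext w
  simp

theorem exists_of_pr_lt_one [Nonempty Ω] {q : Ω → Prop} (h : pr q < 1) : ∃ ω, ¬ q ω := by
  classical
  by_contra hcon
  push Not at hcon
  have : pr q = 1 := by
    rw [pr_eq]
    rw [Finset.filter_true_of_mem (fun ω _ => hcon ω), Finset.card_univ]
    have : (Fintype.card Ω : ℝ) ≠ 0 := by exact_mod_cast Fintype.card_ne_zero
    exact div_self this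
  linarith

theorem exists_of_pr_pos {q : Ω → Prop} (h : 0 < pr q) : ∃ ω, q ω := by
  classical
  by_contra hcon
  push Not at hcon
  have : pr q = 0 := by
    rw [pr_eq]
    rw [Finset.filter_false_of_mem (fun ω _ => hcon ω)]
    simp
  linarith

end C78
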