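import Pool.Agent.C78.LocField
import Pool.Agent.C78.PrLin
import Pool.Agent.C78.PrMaj
import Pool.Agent.C78.Sample

/-!
# C78/Rule: one step of the precise modes `P` and `M` (seeds)
-/

namespace C78

open Finset

variable {n : ℕ}

/-- the seed is good for the input `x` -/
def Good {K : Type} [Field K] (P M : Finset (BF n)) (y : BF n → BF n)
    (z : BF n → (Fin n → Bool) → K) (x : Fin n → Bool) : Prop :=
  (∀ a ∈ P, y a x = a x) ∧ ∀ a ∈ M, (z a x ≠ 0 ↔ a x = true)

theorem pr_false_of {Ω : Type*} [Fintype Ω] {q : Ω → Prop} (h : ∀ ω, ¬ q ω) : pr q = 0 := by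
  have : q = fun _ => False := by
    funext ω; exact propext ⟨h ω, False.elim⟩
  rw [this]; exact pr_false

theorem pr_fin_le (q : Fin (16 * (n + 1)) → Prop) [DecidablePred q]
    (h : 16 * (Finset.univ.filter q).card ≤ 16 * (n + 1)) : pr q ≤ 1 / 16 := by
  have h0 : pr q = ((Finset.univ.filter q).card : ℝ) / (Fintype.card (Fin (16 * (n + 1))) : ℝ) := by
    unfold pr
    congr
  rw [h0, Fintype.card_fin, div_le_div_iff₀ (by positivity) (by norm_num)]
  have := (Nat.cast_le (α := ℝ)).2 h
  push_cast at this ⊢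
  linarith

theorem ruleP {m p N : ℕ} [Fact p.Prime] {K : Type} [Field K]
    [Algebra (ZMod p) K] (b : Module.Basis (Fin N) (ZMod p) K)
    {Ω : Type} {S Q j : ℕ} {P M L : ℕ → Finset (BF n)}
    (y : Ω → BF n → BF n) (z : Ω → BF n → (Fin n → Bool) → K) (V : Ω → ℕ → Finset (BF n))
    (W' : ℕ → Finset (BF n)) (β : BF n → Fin (16 * (n + 1)) → BF n)
    (hL : Monotone L) (hM : Monotone M)
    (hy : ∀ ω, ∀ i ≤ j, ∀ a ∈ P i, y ω a ∈ V ω (40 * (i + 1)))
    (hz : ∀ ω, ∀ i ≤ j, ∀ a ∈ M i, ∀ t r, bit b (z ω a) t r ∈ V ω (40 * (i + 1)))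
    (hβ : ∀ i ≤ j, ∀ a ∈ L i, ∀ k, β a k ∈ W' (40 * (i + 1)))
    (herr : ∀ a ∈ L j, ∀ x,
      16 * (Finset.univ.filter (fun k => β a k x ≠ a x)).card ≤ 16 * (n + 1))
    (hS : 1 ≤ S) (hN : Nat.log 2 N + 3 ≤ 40 * lg S) (hQ1 : 9 * N + 8 ≤ Q)
    (hQ2 : 4 * 3 ^ (lg S + 4) ≤ Q)
    (a : BF n)
    (ha : a ∈ P j ∨ G2 m (P j) a ∨ ∃ i, i + lg S ≤ j + 1 ∧ (a ∈ M i ∨ a ∈ L i)) :
    ∃ Y : Ω → Tr (Fin (16 * (n + 1))) (lg S + 4) → BF n,
      (∀ ω τ, ∃ d δ, d + δ ≤ 40 * (j + 2) ∧ Loc m (V ω d ∪ W' d) δ Q (Y ω τ)) ∧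
      (∀ ω x, Good (P j) (M j) (y ω) (z ω) x →
        pr (fun τ => Y ω τ x ≠ a x) ≤ 1 / (1000 * S)) := by
  classical
  have hpos : (0 : ℝ) ≤ 1 / (1000 * S) := by positivity
  have hlg := lg_pos S
  rcases ha with ha | ha | ⟨i, hi, ha | ha⟩
  · -- old element
    refine ⟨fun ω _ => y ω a, fun ω τ => ⟨40 * (j + 1), 0, by omega, ?_⟩, fun ω x hg => ?_⟩
    · exact loc_mono (subset_refl _) le_rfl (Nat.zero_le _)
        (loc_mem (Finset.mem_union_left _ (hy ω j le_rfl a ha)))
    · rw [pr_false_of]
      · exact hpos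
      · intro τ h
        exact h (hg.1 a ha)
  · rcases ha with ⟨c, hc, rfl⟩ | ⟨l, hl2, hl, rfl | rfl⟩ | ⟨l, hl, rfl⟩
    · refine ⟨fun ω _ => gNot (y ω c), fun ω τ => ⟨40 * (j + 1), 1, by omega, ?_⟩,
        fun ω x hg => ?_⟩
      · have h := loc_gNot (m := m) (loc_mem (m := m)
          (Finset.mem_union_left (W' (40 * (j + 1))) (hy ω j le_rfl c hc)))
        exact loc_mono (subset_refl _) le_rfl (by omega) h
      · rw [pr_false_of]
        · exact hpos
        · intro τ h
          apply h
          simp only [gNot, hg.1 c hc]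
    · refine ⟨fun ω _ => gAnd (l.map (y ω)), fun ω τ => ⟨40 * (j + 1), 1, by omega, ?_⟩,
        fun ω x hg => ?_⟩
      · have h := loc_gAnd (m := m) (V := V ω (40 * (j + 1)) ∪ W' (40 * (j + 1))) (δ := 0)
          (σ := 0) (l.map (y ω)) (by simpa using hl2) (by
            intro c hc
            obtain ⟨c', hc', rfl⟩ := List.mem_map.1 hc
            exact loc_mem (Finset.mem_union_left _ (hy ω j le_rfl c' (hl c' hc'))))
        exact loc_mono (subset_refl _) (by omega) (by omega) h
      · rw [pr_false_of]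
        · exact hpos
        · intro τ h
          apply h
          simp only [gAnd, List.all_map]
          rw [Bool.eq_iff_iff]
          simp only [List.all_eq_true, Function.comp]
          exact ⟨fun h c hc => by rw [← hg.1 c (hl c hc)]; exact h c hc,
            fun h c hc => by rw [hg.1 c (hl c hc)]; exact h c hc⟩
    · refine ⟨fun ω _ => gOr (l.map (y ω)), fun ω τ => ⟨40 * (j + 1), 1, by omega, ?_⟩,
        fun ω x hg => ?_⟩
      · have h := loc_gOr (m := m) (V := V ω (40 * (j + 1)) ∪ W' (40 * (j + 1))) (δ := 0)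
          (σ := 0) (l.map (y ω)) (by simpa using hl2) (by
            intro c hc
            obtain ⟨c', hc', rfl⟩ := List.mem_map.1 hc
            exact loc_mem (Finset.mem_union_left _ (hy ω j le_rfl c' (hl c' hc'))))
        exact loc_mono (subset_refl _) (by omega) (by omega) h
      · rw [pr_false_of]
        · exact hpos
        · intro τ h
          apply h
          simp only [gOr, List.any_map]
          rw [Bool.eq_iff_iff]
          simp only [List.any_eq_true, Function.comp]
          exact ⟨fun ⟨c, hc, h⟩ => ⟨c, hc, by rw [← hg.1 c (hl c hc)]; exact h⟩,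
            fun ⟨c, hc, h⟩ => ⟨c, hc, by rw [hg.1 c (hl c hc)]; exact h⟩⟩
    · refine ⟨fun ω _ => gMod m (l.map (y ω)), fun ω τ => ⟨40 * (j + 1), 1, by omega, ?_⟩,
        fun ω x hg => ?_⟩
      · have h := loc_gMod (m := m) (V := V ω (40 * (j + 1)) ∪ W' (40 * (j + 1))) (δ := 0)
          (σ := 0) (l.map (y ω)) (by
            intro c hc
            obtain ⟨c', hc', rfl⟩ := List.mem_map.1 hc
            exact loc_mem (Finset.mem_union_left _ (hy ω j le_rfl c' (hl c' hc'))))
        exact loc_mono (subset_refl _) (by omega) (by omega) h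
      · rw [pr_false_of]
        · exact hpos
        · intro τ h
          apply h
          simp only [gMod, List.countP_map]
          have : l.countP ((fun a => a x) ∘ y ω) = l.countP (fun a => a x) :=
            List.countP_congr (fun c hc => by simp only [Function.comp, hg.1 c (hl c hc)])
          rw [this]
  · -- from mode M
    have hij : i ≤ j := by omega
    refine ⟨fun ω _ => fun x => decide (z ω a x ≠ 0),
      fun ω τ => ⟨40 * (i + 1), Nat.log 2 N + 3, ?_, ?_⟩, fun ω x hg => ?_⟩
    · have : 40 * (i + 1) + 40 * lg S ≤ 40 * (j + 2) := by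
        have : i + 1 + lg S ≤ j + 2 := by omega
        calc 40 * (i + 1) + 40 * lg S = 40 * (i + 1 + lg S) := by ring
          _ ≤ _ := Nat.mul_le_mul_left _ this
      omega
    · exact loc_mono Finset.subset_union_left le_rfl hQ1
        (loc_nonzero (m := m) b (V ω (40 * (i + 1))) (z ω a) (fun t r => hz ω i hij a ha t r))
    · rw [pr_false_of]
      · exact hpos
      · intro τ h
        apply h
        have := hg.2 a (hM hij ha)
        rw [Bool.eq_iff_iff]
        simpa using this
  · -- from mode L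
    have hij : i ≤ j := by omega
    refine ⟨fun ω τ => evT (β a) (lg S + 4) τ,
      fun ω τ => ⟨40 * (i + 1), 3 * (lg S + 4), ?_, ?_⟩, fun ω x hg => ?_⟩
    · have : 40 * (i + 1) + 40 * lg S ≤ 40 * (j + 2) := by
        have : i + 1 + lg S ≤ j + 2 := by omega
        calc 40 * (i + 1) + 40 * lg S = 40 * (i + 1 + lg S) := by ring
          _ ≤ _ := Nat.mul_le_mul_left _ this
      omega
    · exact loc_mono Finset.subset_union_right le_rfl hQ2
        (loc_tree (m := m) (W' (40 * (i + 1))) (β a) (fun k => hβ i hij a ha k) _ τ)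
    · have h1 : pr (fun k => β a k x ≠ a x) ≤ 1 / 16 := pr_fin_le _ (herr a (hL hij ha) x)
      have h2 := pr_tree (fun k => β a k x) (a x) (lg S + 4) (1 / 16) h1
      refine le_trans h2 ?_
      have h3 := num2 S
      have hS' : (0 : ℝ) < 1000 * S := by
        have : (1 : ℝ) ≤ S := by exact_mod_cast hS
        linarith
      rw [le_div_iff₀ hS']
      have h4 : (3 * (1 / 16 : ℝ)) = 3 / 16 := by norm_num
      rw [h4]
      have h5 : (0 : ℝ) ≤ (1000 * S) * (3 / 16) ^ (2 ^ (lg S + 4)) := by positivity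
      nlinarith


theorem ruleM {m p N : ℕ} (hm : m ≠ 0) [Fact p.Prime] (hpm : p ∣ m) {K : Type} [Field K]
    [Fintype K] [Algebra (ZMod p) K] (b : Module.Basis (Fin N) (ZMod p) K)
    {Ω : Type} {S Q j : ℕ} {P M : ℕ → Finset (BF n)}
    (y : Ω → BF n → BF n) (z : Ω → BF n → (Fin n → Bool) → K) (V : Ω → ℕ → Finset (BF n))
    (hy : ∀ ω, ∀ i ≤ j, ∀ a ∈ P i, y ω a ∈ V ω (40 * (i + 1)))
    (hz : ∀ ω, ∀ i ≤ j, ∀ a ∈ M i, ∀ t r, bit b (z ω a) t r ∈ V ω (40 * (i + 1)))
    (hS : 1 ≤ S) (hK : 1000 * S ≤ Fintype.card K) (hQ : (N * p) ^ 2 + 3 ≤ Q)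
    (a : BF n)
    (ha : a ∈ M j ∨ a ∈ P j ∨
      ∃ l : List (BF n), (∀ b ∈ l, b ∈ M j) ∧ (a = gOr l ∨ (a = gAnd l ∧ l.length ≤ 2))) :
    ∃ Z : Ω → (BF n → K) → (Fin n → Bool) → K,
      (∀ ω ρ t r, Loc m (V ω (40 * (j + 1))) 40 Q (bit b (Z ω ρ) t r)) ∧
      (∀ ω x, Good (P j) (M j) (y ω) (z ω) x →
        pr (fun ρ => ¬ (Z ω ρ x ≠ 0 ↔ a x = true)) ≤ 1 / (1000 * S)) := by
  classical
  have hpos : (0 : ℝ) ≤ 1 / (1000 * S) := by positivity
  have hQ3 : 3 ≤ Q := le_trans (by omega) hQ
  rcases ha with ha | ha | ⟨l, hl, rfl | ⟨rfl, hl2⟩⟩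
  · refine ⟨fun ω _ => z ω a, fun ω ρ t r => ?_, fun ω x hg => ?_⟩
    · exact loc_mono (subset_refl _) (Nat.zero_le _) (Nat.zero_le _)
        (loc_mem (hz ω j le_rfl a ha t r))
    · rw [pr_false_of]
      · exact hpos
      · intro ρ h
        exact h (hg.2 a ha)
  · refine ⟨fun ω _ => fun x => if y ω a x then 1 else 0, fun ω ρ t r => ?_, fun ω x hg => ?_⟩
    · exact loc_mono (subset_refl _) (by norm_num) hQ3
        (loc_embed (m := m) b hm hpm _ (y ω a) (hy ω j le_rfl a ha) t r)
    · rw [pr_false_of]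
      · exact hpos
      · intro ρ h
        apply h
        rw [← hg.1 a ha]
        by_cases h1 : y ω a x = true <;> simp [h1]
  · refine ⟨fun ω ρ => fun x => ∑ c ∈ l.toFinset, ρ c * z ω c x, fun ω ρ t r => ?_,
      fun ω x hg => ?_⟩
    · exact loc_mono (subset_refl _) (by norm_num) hQ3
        (loc_sum (m := m) b hm hpm _ l.toFinset (z ω) ρ
          (fun i hi t r => hz ω j le_rfl i (hl i (List.mem_toFinset.1 hi)) t r) t r)
    · by_cases hx : gOr l x = true
      · -- some input is true
        obtain ⟨c, hc, hcx⟩ := List.any_eq_true.1 hx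
        have hzc : z ω c x ≠ 0 := (hg.2 c (hl c hc)).2 hcx
        set v : BF n → K := fun d => if d ∈ l.toFinset then z ω d x else 0 with hv
        have hsum : ∀ ρ : BF n → K, ∑ c ∈ l.toFinset, ρ c * z ω c x = ∑ d, ρ d * v d := by
          intro ρ
          rw [hv]
          simp only [mul_ite, mul_zero]
          rw [Finset.sum_ite_mem, Finset.univ_inter]
        have h1 := pr_lin v ⟨c, by simp [hv, hc, hzc]⟩
        refine le_trans (pr_mono (fun ρ hρ => ?_)) (le_trans h1 ?_)
        · by_contra h2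
          apply hρ
          simp only [hx, iff_true]
          rw [hsum]
          exact h2
        · apply one_div_le_one_div_of_le
          · have : (1 : ℝ) ≤ S := by exact_mod_cast hS
            linarith
          · exact_mod_cast hK
      · rw [pr_false_of]
        · exact hpos
        · intro ρ h
          apply h
          simp only [hx]
          have h0 : ∑ c ∈ l.toFinset, ρ c * z ω c x = 0 := by
            apply Finset.sum_eq_zero
            intro c hc
            have hc' := List.mem_toFinset.1 hc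
            have hcx : ¬ (c x = true) := by
              intro hcx
              exact hx (List.any_eq_true.2 ⟨c, hc', hcx⟩)
            have : z ω c x = 0 := by
              by_contra h3
              exact hcx ((hg.2 c (hl c hc')).1 h3)
            rw [this, mul_zero]
          rw [h0]
          simp
  · -- AND of at most two
    have key : ∀ ω x, Good (P j) (M j) (y ω) (z ω) x →
        ((l.map (fun c => z ω c x)).prod ≠ 0 ↔ gAnd l x = true) := by
      intro ω x hg
      rw [Ne, List.prod_eq_zero_iff]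
      unfold gAnd
      rw [List.all_eq_true]
      constructor
      · intro h c hc
        refine (hg.2 c (hl c hc)).1 (fun h0 => h ?_)
        exact List.mem_map.2 ⟨c, hc, h0⟩
      · intro h h0
        obtain ⟨c, hc, h1⟩ := List.mem_map.1 h0
        exact (hg.2 c (hl c hc)).2 (h c hc) h1
    refine ⟨fun ω _ => fun x => (l.map (fun c => z ω c x)).prod, fun ω ρ t r => ?_,
      fun ω x hg => ?_⟩
    · match l, hl2, hl with
      | [], _, _ =>
        -- the constant 1: `loc_sum`-type test with no functions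
        have h := loc_lin (n := n) (m := m) hm (Fact.out : p.Prime) hpm (∅ : Finset Unit)
          (fun _ => 0) (b.repr 1 t) r (fun _ => gAnd []) (V ω (40 * (j + 1)))
          (by simp)
        have h' : Loc m (V ω (40 * (j + 1))) 3 3
            (bit b (fun x => (List.map (fun c => z ω c x) []).prod) t r) := by
          convert h using 2
          simp [bit]
        exact loc_mono (subset_refl _) (by norm_num) hQ3 h'
      | [c], _, hl =>
        have := loc_mem (m := m) (hz ω j le_rfl c (hl c (by simp)) t r)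
        have h' : Loc m (V ω (40 * (j + 1))) 0 0
            (bit b (fun x => (List.map (fun c => z ω c x) [c]).prod) t r) := by
          convert this using 2
          simp
        exact loc_mono (subset_refl _) (by norm_num) (Nat.zero_le _) h'
      | [c, c'], _, hl =>
        have := loc_prod (m := m) b hm hpm (V ω (40 * (j + 1))) (z ω c) (z ω c')
          (hz ω j le_rfl c (hl c (by simp))) (hz ω j le_rfl c' (hl c' (by simp))) t r
        have h' : Loc m (V ω (40 * (j + 1))) 4 ((N * p) ^ 2 + 3)
            (bit b (fun x => (List.map (fun c => z ω c x) [c, c']).prod) t r) := by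
          convert this using 2
          simp
        exact loc_mono (subset_refl _) (by norm_num) hQ h'
    · rw [pr_false_of]
      · exact hpos
      · intro ρ h
        exact h (key ω x hg)

end C78
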