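import Pool.Agent.C78.Rule

/-!
# C78/Step: the seeds for one more unit of cost
-/

namespace C78

open Finset

variable {n : ℕ}

/-- seeds for the precise modes at cost `j`, over the circuit `W` -/
structure Seeds (m : ℕ) {p N : ℕ} [Fact p.Prime] {K : Type} [Field K] [Algebra (ZMod p) K]
    (b : Module.Basis (Fin N) (ZMod p) K) (P M : ℕ → Finset (BF n)) (S j : ℕ)
    (W : ℕ → Finset (BF n)) (E : ℕ) : Type 1 where
  Ω : Type
  fin : Fintype Ω
  ne : Nonempty Ω
  y : Ω → BF n → BF n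
  z : Ω → BF n → (Fin n → Bool) → K
  V : Ω → ℕ → Finset (BF n)
  hV : ∀ ω, IsChain m (V ω)
  hWV : ∀ ω e, W e ⊆ V ω e
  hE : ∀ ω e, (V ω e).card ≤ (W e).card + E
  hy : ∀ ω, ∀ i ≤ j, ∀ a ∈ P i, y ω a ∈ V ω (40 * (i + 1))
  hz : ∀ ω, ∀ i ≤ j, ∀ a ∈ M i, ∀ t r, bit b (z ω a) t r ∈ V ω (40 * (i + 1))
  hpr : ∀ x, @pr Ω fin (fun ω => ¬ Good (P j) (M j) (y ω) (z ω) x) ≤
    (((P j).card : ℝ) + (M j).card) / (1000 * S)

theorem pmStep {m p N : ℕ} (hm : m ≠ 0) [Fact p.Prime] (hpm : p ∣ m) {K : Type} [Field K]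
    [Fintype K] [Algebra (ZMod p) K] (b : Module.Basis (Fin N) (ZMod p) K)
    {S Q j : ℕ} {P M L : ℕ → Finset (BF n)}
    (hPm : Monotone P) (hMm : Monotone M) (hLm : Monotone L)
    {W W' : ℕ → Finset (BF n)} {E : ℕ} (sd : Seeds m b P M S j W E)
    (hW' : IsChain m W') (hWW' : ∀ e, W e ⊆ W' e)
    (β : BF n → Fin (16 * (n + 1)) → BF n)
    (hβ : ∀ i ≤ j, ∀ a ∈ L i, ∀ k, β a k ∈ W' (40 * (i + 1)))
    (herr : ∀ a ∈ L j, ∀ x,
      16 * (Finset.univ.filter (fun k => β a k x ≠ a x)).card ≤ 16 * (n + 1))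
    (hS : 1 ≤ S) (hN : Nat.log 2 N + 3 ≤ 40 * lg S) (hQ1 : 9 * N + 8 ≤ Q)
    (hQ2 : 4 * 3 ^ (lg S + 4) ≤ Q) (hQ3 : (N * p) ^ 2 + 3 ≤ Q) (hQ4 : S + S * (N * p) ≤ Q)
    (hK : 1000 * S ≤ Fintype.card K)
    (hPS : (P (j + 1)).card ≤ S) (hMS : (M (j + 1)).card ≤ S)
    (hP : ∀ a ∈ P (j + 1), a ∈ P j ∨ G2 m (P j) a ∨
      ∃ i, i + lg S ≤ j + 1 ∧ (a ∈ M i ∨ a ∈ L i))
    (hM : ∀ a ∈ M (j + 1), a ∈ M j ∨ a ∈ P j ∨
      ∃ l : List (BF n), (∀ b ∈ l, b ∈ M j) ∧ (a = gOr l ∨ (a = gAnd l ∧ l.length ≤ 2))) :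
    Nonempty (Seeds m b P M S (j + 1) W' (E + Q * Q)) := by
  classical
  obtain ⟨Ω, fin, ne, y, z, V, hV, hWV, hE, hy, hz, hpr⟩ := sd
  have hpos : (0 : ℝ) ≤ 1 / (1000 * S) := by positivity
  -- the rules
  have h1 : ∀ a : BF n, ∃ Y : Ω → Tr (Fin (16 * (n + 1))) (lg S + 4) → BF n, a ∈ P (j + 1) →
      (∀ ω τ, ∃ d δ, d + δ ≤ 40 * (j + 2) ∧ Loc m (V ω d ∪ W' d) δ Q (Y ω τ)) ∧
      (∀ ω x, Good (P j) (M j) (y ω) (z ω) x →
        pr (fun τ => Y ω τ x ≠ a x) ≤ 1 / (1000 * S)) := by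
    intro a
    by_cases ha : a ∈ P (j + 1)
    · obtain ⟨Y, hY⟩ := ruleP (m := m) b y z V W' β hLm hMm hy hz hβ herr hS hN hQ1 hQ2 a
        (hP a ha)
      exact ⟨Y, fun _ => hY⟩
    · exact ⟨fun _ _ => a, fun h => absurd h ha⟩
  choose Y hY using h1
  have h2 : ∀ a : BF n, ∃ Z : Ω → (BF n → K) → (Fin n → Bool) → K, a ∈ M (j + 1) →
      (∀ ω ρ t r, Loc m (V ω (40 * (j + 1))) 40 Q (bit b (Z ω ρ) t r)) ∧
      (∀ ω x, Good (P j) (M j) (y ω) (z ω) x →
        pr (fun ρ => ¬ (Z ω ρ x ≠ 0 ↔ a x = true)) ≤ 1 / (1000 * S)) := by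
    intro a
    by_cases ha : a ∈ M (j + 1)
    · obtain ⟨Z, hZ⟩ := ruleM (m := m) hm hpm b y z V hy hz hS hK hQ3 a (hM a ha)
      exact ⟨Z, fun _ => hZ⟩
    · exact ⟨fun _ _ _ => 0, fun h => absurd h ha⟩
  choose Z hZ using h2
  -- the circuits
  set sP := P (j + 1) \ P j with hsP
  set sM := M (j + 1) \ M j with hsM
  have h3 : ∀ w : Ω × (BF n → K) × Tr (Fin (16 * (n + 1))) (lg S + 4),
      ∃ V2 : ℕ → Finset (BF n), IsChain m V2 ∧ (∀ e, V w.1 e ∪ W' e ⊆ V2 e) ∧
        (∀ e, (V2 e).card ≤ (W' e).card + (E + Q * Q)) ∧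
        (∀ a ∈ sP, Y a w.1 w.2.2 ∈ V2 (40 * (j + 2))) ∧
        (∀ a ∈ sM, ∀ t r, bit b (Z a w.1 w.2.1) t r ∈ V2 (40 * (j + 2))) := by
    rintro ⟨ω, ρ, τ⟩
    have c0 := chain_union (hV ω) hW'
    -- requests for P
    have r1 : ∀ a : BF n, ∃ dd : ℕ × ℕ, a ∈ sP →
        dd.1 + dd.2 ≤ 40 * (j + 2) ∧ Loc m (V ω dd.1 ∪ W' dd.1) dd.2 Q (Y a ω τ) := by
      intro a
      by_cases ha : a ∈ sP
      · obtain ⟨d, δ, hd, hl⟩ := (hY a (Finset.mem_sdiff.1 ha).1).1 ω τ
        exact ⟨(d, δ), fun _ => ⟨hd, hl⟩⟩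
      · exact ⟨(0, 0), fun h => absurd h ha⟩
    choose dd hdd using r1
    obtain ⟨W1, hW1c, hW1s, hW1n, hW1m⟩ := chain_ext_many c0 sP (fun a => (dd a).1)
      (fun a => (dd a).2) Q (fun a => Y a ω τ) (fun a ha => (hdd a ha).2)
    -- requests for M
    obtain ⟨W2, hW2c, hW2s, hW2n, hW2m⟩ := chain_ext_many hW1c
      (sM ×ˢ (Finset.univ : Finset (Fin N × ZMod p)))
      (fun _ => 40 * (j + 1)) (fun _ => 40) Q (fun w => bit b (Z w.1 ω ρ) w.2.1 w.2.2)
      (fun w hw => by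
        have hw1 := (Finset.mem_product.1 hw).1
        refine loc_mono ?_ le_rfl le_rfl
          ((hZ w.1 (Finset.mem_sdiff.1 hw1).1).1 ω ρ w.2.1 w.2.2)
        exact Finset.Subset.trans Finset.subset_union_left (hW1s _))
    refine ⟨W2, hW2c, fun e => (hW1s e).trans (hW2s e), fun e => ?_, fun a ha => ?_,
      fun a ha t r => ?_⟩
    · have e1 := hW1n e
      have e2 := hW2n e
      have e3 : (V ω e ∪ W' e).card ≤ (W' e).card + E := by
        have hsub : V ω e ∪ W' e ⊆ W' e ∪ (V ω e \ W e) := by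
          intro u hu
          rcases Finset.mem_union.1 hu with hu | hu
          · by_cases hw : u ∈ W e
            · exact Finset.mem_union_left _ (hWW' e hw)
            · exact Finset.mem_union_right _ (Finset.mem_sdiff.2 ⟨hu, hw⟩)
          · exact Finset.mem_union_left _ hu
        have hc := Finset.card_le_card hsub
        have hc2 := Finset.card_union_le (W' e) (V ω e \ W e)
        have hc3 : (V ω e \ W e).card = (V ω e).card - (W e).card :=
          Finset.card_sdiff_of_subset (hWV ω e)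
        have hc4 := hE ω e
        omega
      have e4 : sP.card ≤ S := (Finset.card_le_card Finset.sdiff_subset).trans hPS
      have e5 : (sM ×ˢ (Finset.univ : Finset (Fin N × ZMod p))).card ≤ S * (N * p) := by
        rw [Finset.card_product]
        have : (Finset.univ : Finset (Fin N × ZMod p)).card = N * p := by
          rw [Finset.card_univ, Fintype.card_prod, Fintype.card_fin, ZMod.card]
        rw [this]
        exact Nat.mul_le_mul_right _ ((Finset.card_le_card Finset.sdiff_subset).trans hMS)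
      have e6 : sP.card * Q + (sM ×ˢ (Finset.univ : Finset (Fin N × ZMod p))).card * Q
          ≤ Q * Q := by
        rw [← Nat.add_mul]
        exact Nat.mul_le_mul_right _ (by omega)
      omega
    · have := hW1m a ha
      have h4 := hW2c.1 ((hdd a ha).1)
      exact h4 (hW2s _ this)
    · have := hW2m (a, t, r) (Finset.mem_product.2 ⟨ha, Finset.mem_univ _⟩)
      have h4 : 40 * (j + 1) + 40 = 40 * (j + 2) := by ring
      simp only [h4] at this
      exact this
  choose V2 hV2c hV2s hV2n hV2P hV2M using h3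
  refine ⟨{ Ω := Ω × (BF n → K) × Tr (Fin (16 * (n + 1))) (lg S + 4)
            fin := inferInstance
            ne := inferInstance
            y := fun w a => if a ∈ P j then y w.1 a else Y a w.1 w.2.2
            z := fun w a => if a ∈ M j then z w.1 a else Z a w.1 w.2.1
            V := V2
            hV := hV2c
            hWV := fun w e => Finset.Subset.trans Finset.subset_union_right (hV2s w e)
            hE := hV2n
            hy := ?_
            hz := ?_
            hpr := ?_ }⟩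
  · intro w i hi a ha
    rcases Nat.lt_or_ge j i with hji | hij
    · have hi' : i = j + 1 := by omega
      subst hi'
      by_cases haj : a ∈ P j
      · simp only [haj, if_true]
        have h4 := hy w.1 j le_rfl a haj
        exact (hV2c w).1 (by omega : 40 * (j + 1) ≤ 40 * (j + 1 + 1))
          (hV2s w _ (Finset.mem_union_left _ h4))
      · simp only [haj, if_false]
        exact hV2P w a (Finset.mem_sdiff.2 ⟨ha, haj⟩)
    · have haj : a ∈ P j := hPm hij ha
      simp only [haj, if_true]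
      exact hV2s w _ (Finset.mem_union_left _ (hy w.1 i hij a ha))
  · intro w i hi a ha t r
    rcases Nat.lt_or_ge j i with hji | hij
    · have hi' : i = j + 1 := by omega
      subst hi'
      by_cases haj : a ∈ M j
      · simp only [haj, if_true]
        have h4 := hz w.1 j le_rfl a haj t r
        exact (hV2c w).1 (by omega : 40 * (j + 1) ≤ 40 * (j + 1 + 1))
          (hV2s w _ (Finset.mem_union_left _ h4))
      · simp only [haj, if_false]
        exact hV2M w a (Finset.mem_sdiff.2 ⟨ha, haj⟩) t r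
    · have haj : a ∈ M j := hMm hij ha
      simp only [haj, if_true]
      exact hV2s w _ (Finset.mem_union_left _ (hz w.1 i hij a ha t r))
  · intro x
    -- bad event
    have hincl : ∀ w : Ω × (BF n → K) × Tr (Fin (16 * (n + 1))) (lg S + 4),
        ¬ Good (P (j + 1)) (M (j + 1)) (fun a => if a ∈ P j then y w.1 a else Y a w.1 w.2.2)
          (fun a => if a ∈ M j then z w.1 a else Z a w.1 w.2.1) x →
        (¬ Good (P j) (M j) (y w.1) (z w.1) x) ∨
        ((∃ a ∈ sP, Good (P j) (M j) (y w.1) (z w.1) x ∧ Y a w.1 w.2.2 x ≠ a x) ∨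
         (∃ a ∈ sM, Good (P j) (M j) (y w.1) (z w.1) x ∧
            ¬ (Z a w.1 w.2.1 x ≠ 0 ↔ a x = true))) := by
      intro w hw
      by_contra hcon
      push Not at hcon
      obtain ⟨hg, hcP, hcM⟩ := hcon
      apply hw
      refine ⟨fun a ha => ?_, fun a ha => ?_⟩
      · by_cases haj : a ∈ P j
        · simp only [haj, if_true]
          exact hg.1 a haj
        · simp only [haj, if_false]
          exact hcP a (Finset.mem_sdiff.2 ⟨ha, haj⟩) hg
      · by_cases haj : a ∈ M j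
        · simp only [haj, if_true]
          exact hg.2 a haj
        · simp only [haj, if_false]
          exact hcM a (Finset.mem_sdiff.2 ⟨ha, haj⟩) hg
    have e1 : pr (fun w : Ω × (BF n → K) × Tr (Fin (16 * (n + 1))) (lg S + 4) =>
        ¬ Good (P j) (M j) (y w.1) (z w.1) x) = pr (fun ω => ¬ Good (P j) (M j) (y ω) (z ω) x) :=
      pr_fst (Ω := Ω) (Ω' := (BF n → K) × Tr (Fin (16 * (n + 1))) (lg S + 4))
        (fun ω => ¬ Good (P j) (M j) (y ω) (z ω) x)
    have e2 : ∀ a ∈ sP, pr (fun w : Ω × (BF n → K) × Tr (Fin (16 * (n + 1))) (lg S + 4) =>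
        Good (P j) (M j) (y w.1) (z w.1) x ∧ Y a w.1 w.2.2 x ≠ a x) ≤ 1 / (1000 * S) := by
      intro a ha
      refine pr_prod_le hpos (fun ω => ?_)
      by_cases hg : Good (P j) (M j) (y ω) (z ω) x
      · have h4 := (hY a (Finset.mem_sdiff.1 ha).1).2 ω x hg
        have h5 : pr (fun w : (BF n → K) × Tr (Fin (16 * (n + 1))) (lg S + 4) =>
            Y a ω w.2 x ≠ a x) = pr (fun τ => Y a ω τ x ≠ a x) :=
          pr_snd (Ω := BF n → K) (Ω' := Tr (Fin (16 * (n + 1))) (lg S + 4))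
            (fun τ => Y a ω τ x ≠ a x)
        refine le_trans (pr_mono (fun w hw => hw.2)) ?_
        rw [h5]
        exact h4
      · rw [pr_false_of]
        · exact hpos
        · intro w hw
          exact hg hw.1
    have e3 : ∀ a ∈ sM, pr (fun w : Ω × (BF n → K) × Tr (Fin (16 * (n + 1))) (lg S + 4) =>
        Good (P j) (M j) (y w.1) (z w.1) x ∧ ¬ (Z a w.1 w.2.1 x ≠ 0 ↔ a x = true)) ≤
        1 / (1000 * S) := by
      intro a ha
      refine pr_prod_le hpos (fun ω => ?_)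
      by_cases hg : Good (P j) (M j) (y ω) (z ω) x
      · have h4 := (hZ a (Finset.mem_sdiff.1 ha).1).2 ω x hg
        have h5 : pr (fun w : (BF n → K) × Tr (Fin (16 * (n + 1))) (lg S + 4) =>
            ¬ (Z a ω w.1 x ≠ 0 ↔ a x = true)) = pr (fun ρ => ¬ (Z a ω ρ x ≠ 0 ↔ a x = true)) :=
          pr_fst (Ω := BF n → K) (Ω' := Tr (Fin (16 * (n + 1))) (lg S + 4))
            (fun ρ => ¬ (Z a ω ρ x ≠ 0 ↔ a x = true))
        refine le_trans (pr_mono (fun w hw => hw.2)) ?_
        rw [h5]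
        exact h4
      · rw [pr_false_of]
        · exact hpos
        · intro w hw
          exact hg hw.1
    refine le_trans (pr_mono hincl) (le_trans (pr_or_le _ _) ?_)
    have e4 := pr_or_le
      (fun w : Ω × (BF n → K) × Tr (Fin (16 * (n + 1))) (lg S + 4) =>
        ∃ a ∈ sP, Good (P j) (M j) (y w.1) (z w.1) x ∧ Y a w.1 w.2.2 x ≠ a x)
      (fun w => ∃ a ∈ sM, Good (P j) (M j) (y w.1) (z w.1) x ∧
            ¬ (Z a w.1 w.2.1 x ≠ 0 ↔ a x = true))
    have e5 := pr_exists_le sP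
      (fun a (w : Ω × (BF n → K) × Tr (Fin (16 * (n + 1))) (lg S + 4)) =>
        Good (P j) (M j) (y w.1) (z w.1) x ∧ Y a w.1 w.2.2 x ≠ a x)
    have e6 := pr_exists_le sM
      (fun a (w : Ω × (BF n → K) × Tr (Fin (16 * (n + 1))) (lg S + 4)) =>
        Good (P j) (M j) (y w.1) (z w.1) x ∧ ¬ (Z a w.1 w.2.1 x ≠ 0 ↔ a x = true))
    have e7 := Finset.sum_le_card_nsmul sP _ _ e2
    have e8 := Finset.sum_le_card_nsmul sM _ _ e3
    have e9 : (sP.card : ℝ) = ((P (j + 1)).card : ℝ) - (P j).card := by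
      rw [hsP, Finset.card_sdiff_of_subset (hPm (Nat.le_succ j)),
        Nat.cast_sub (Finset.card_le_card (hPm (Nat.le_succ j)))]
    have e10 : (sM.card : ℝ) = ((M (j + 1)).card : ℝ) - (M j).card := by
      rw [hsM, Finset.card_sdiff_of_subset (hMm (Nat.le_succ j)),
        Nat.cast_sub (Finset.card_le_card (hMm (Nat.le_succ j)))]
    have e11 := hpr x
    rw [nsmul_eq_mul] at e7 e8
    rw [e9] at e7
    rw [e10] at e8
    rw [e1]
    have e12 : (((P (j + 1)).card : ℝ) + (M (j + 1)).card) / (1000 * S) =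
        (((P j).card : ℝ) + (M j).card) / (1000 * S) +
        ((((P (j + 1)).card : ℝ) - (P j).card) * (1 / (1000 * S)) +
         (((M (j + 1)).card : ℝ) - (M j).card) * (1 / (1000 * S))) := by
      ring
    rw [e12]
    linarith

end C78
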