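import Pool.Agent.C78.Defs

/-!
# C78/TreeC: counting modulo `q` by a tree of AND gates of fan-in `L` and MOD gates

Let `N = L ^ t`.  For `h ≤ t`, `v < L ^ (t - h)` and `r : ZMod q` let
`s h v r x = decide ((#{i : Fin N | i / L ^ h = v ∧ x i} : ZMod q) = r)`.
* `s 0 i r`: `x i` if `r = 1`, `gNot (x i)` if `r = 0`, the constant `false = gMod m []` otherwise
  (`q ≥ 2`).
* The block `(h+1, v)` is the disjoint union of the blocks `(h, L * v + j)`, `j < L`.  For
  `ρ : Fin L → ZMod q` let `A ρ = gAnd [s h (L * v + j) (ρ j) | j < L]` (fan-in `L`): exactly one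
  `ρ` has `A ρ x = true` (`ρ j` = the residue of the `j`-th subblock), so
  `s (h+1) v r = gMod m [A ρ | ρ with ∑ ρ = r]` (a list of at most `q ^ L` functions, `countP` is
  `0` or `1`, and `m ≥ 2`).
* Chain: `W 0` = variables; `W 1` = variables, their negations and the constant `false`;
  `W (2h+2)` adds the `A ρ` for all blocks `(h+1, v)`, `W (2h+3)` adds the `s (h+1) v r`.
  Cardinality: at most `3 * L^t` at depth 1, and every further level `h` adds at most
  `L ^ (t-h-1) * (q ^ L + q) ≤ L ^ t * 2 * q ^ L`.  Total `≤ 4 * (t + 1) * L ^ t * q ^ L`.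
  (A recursive definition of `W` as `univ.image` of explicit index types is convenient; for
  `j > 2t+1` keep `W` constant.)
* `g = s t 0 0` (all `i` satisfy `i / L ^ t = 0`).
-/

namespace C78

open Finset

namespace TreeCx

variable {n : ℕ}

/-- there is a bounded circuit of depth `D` whose set of functions is `V` -/
private def Ch (m φ ψ D : ℕ) (V : Finset (BF n)) : Prop :=
  ∃ W : ℕ → Finset (BF n), Monotone W ∧ (∀ a ∈ W 0, IsVar a) ∧
    (∀ j, ∀ a ∈ W (j + 1), a ∈ W j ∨ GB m φ ψ (W j) a) ∧ W D = V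

private theorem ch_zero (m φ ψ : ℕ) (V : Finset (BF n)) (hV : ∀ a ∈ V, IsVar a) :
    Ch m φ ψ 0 V :=
  ⟨fun _ => V, fun _ _ _ => subset_rfl, hV, fun _ _ ha => Or.inl ha, rfl⟩

private theorem ch_step {m φ ψ D : ℕ} {V Y : Finset (BF n)} (h : Ch m φ ψ D V)
    (hY : ∀ a ∈ Y, GB m φ ψ V a) : Ch m φ ψ (D + 1) (V ∪ Y) := by
  obtain ⟨W, h1, h2, h3, h4⟩ := h
  refine ⟨fun j => if j ≤ D then W j else W D ∪ Y, ?_, ?_, ?_, ?_⟩
  · intro i j hij
    by_cases hi : i ≤ D
    · by_cases hj : j ≤ D
      · simp only [hi, hj, if_true]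
        exact h1 hij
      · simp only [hi, hj, if_true, if_false]
        exact (h1 hi).trans subset_union_left
    · have hj : ¬ j ≤ D := fun h => hi (hij.trans h)
      simp only [hi, hj, if_false]
      exact subset_rfl
  · intro a ha
    have ha' : a ∈ if 0 ≤ D then W 0 else W D ∪ Y := ha
    rw [if_pos (Nat.zero_le D)] at ha'
    exact h2 a ha'
  · intro j a ha
    show (a ∈ if j ≤ D then W j else W D ∪ Y) ∨
      GB m φ ψ (if j ≤ D then W j else W D ∪ Y) a
    have ha' : a ∈ if j + 1 ≤ D then W (j + 1) else W D ∪ Y := ha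
    by_cases hj1 : j + 1 ≤ D
    · rw [if_pos hj1] at ha'
      rw [if_pos (by omega : j ≤ D)]
      exact h3 j a ha'
    · rw [if_neg hj1] at ha'
      by_cases hj : j ≤ D
      · have hjD : j = D := by omega
        subst hjD
        rw [if_pos le_rfl]
        rcases mem_union.1 ha' with h | h
        · exact Or.inl h
        · right
          rw [h4]
          exact hY a h
      · rw [if_neg hj]
        exact Or.inl ha'
  · show (if D + 1 ≤ D then W (D + 1) else W D ∪ Y) = V ∪ Y
    rw [if_neg (by omega), h4]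

/-- number of ones in the block `(h, v)` -/
private def cnt (L t h v : ℕ) (x : Fin (L ^ t) → Bool) : ℕ :=
  (univ.filter (fun i : Fin (L ^ t) => (i : ℕ) / L ^ h = v ∧ x i = true)).card

private theorem cnt_succ {L : ℕ} (hL : 1 ≤ L) (t h v : ℕ) (x : Fin (L ^ t) → Bool) :
    cnt L t (h + 1) v x = ∑ j : Fin L, cnt L t h (L * v + j) x := by
  unfold cnt
  rw [card_eq_sum_card_fiberwise (f := fun i : Fin (L ^ t) => ((i : ℕ) / L ^ h) % L)
    (t := range L) (fun i _ => mem_coe.2 (mem_range.2 (Nat.mod_lt _ (by omega)))),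
    Finset.sum_range]
  apply sum_congr rfl
  intro j _
  congr 1
  ext i
  simp only [mem_filter, mem_univ, true_and]
  have h1 : (i : ℕ) / L ^ (h + 1) = ((i : ℕ) / L ^ h) / L := by
    rw [pow_succ, Nat.div_div_eq_div_mul]
  rw [h1]
  generalize (i : ℕ) / L ^ h = k
  constructor
  · rintro ⟨⟨h2, h3⟩, h4⟩
    refine ⟨?_, h3⟩
    rw [← h2, ← h4]
    exact (Nat.div_add_mod k L).symm
  · rintro ⟨h2, h3⟩
    refine ⟨⟨?_, h3⟩, ?_⟩
    · rw [h2, Nat.mul_add_div (by omega), Nat.div_eq_of_lt j.2, add_zero]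
    · rw [h2, Nat.mul_add_mod, Nat.mod_eq_of_lt j.2]

variable (q : ℕ) [NeZero q]

/-- residue of a block -/
private def sb (L t h v : ℕ) (r : ZMod q) : BF (L ^ t) :=
  fun x => decide ((cnt L t h v x : ZMod q) = r)

private def Ab (L t h v : ℕ) (ρ : Fin L → ZMod q) : BF (L ^ t) :=
  gAnd (List.ofFn (fun j : Fin L => sb q L t h (L * v + j) (ρ j)))

omit [NeZero q] in
private theorem Ab_eq (L t h v : ℕ) (ρ : Fin L → ZMod q) (x : Fin (L ^ t) → Bool) :
    Ab q L t h v ρ x =
      decide (ρ = fun j : Fin L => (cnt L t h (L * v + (j : ℕ)) x : ZMod q)) := by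
  unfold Ab gAnd sb
  rw [Bool.eq_iff_iff, List.all_eq_true, decide_eq_true_eq]
  constructor
  · intro h1
    funext j
    have := h1 _ (List.mem_ofFn.2 ⟨j, rfl⟩)
    exact (of_decide_eq_true this).symm
  · intro h1 a ha
    obtain ⟨j, rfl⟩ := List.mem_ofFn.1 ha
    simp only [decide_eq_true_eq]
    rw [h1]

private theorem sb_succ {m L : ℕ} (hm : 2 ≤ m) (hL : 1 ≤ L) (t h v : ℕ) (r : ZMod q) :
    sb q L t (h + 1) v r =
      gMod m (((univ.filter (fun ρ : Fin L → ZMod q => ∑ j, ρ j = r)).toList).map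
        (Ab q L t h v)) := by
  funext x
  unfold gMod
  set ρ0 : Fin L → ZMod q := fun j => (cnt L t h (L * v + (j : ℕ)) x : ZMod q) with hρ0
  have hcount : ((((univ.filter (fun ρ : Fin L → ZMod q => ∑ j, ρ j = r)).toList).map
      (Ab q L t h v)).countP (fun a => a x)) = if ∑ j, ρ0 j = r then 1 else 0 := by
    rw [List.countP_map]
    have h1 : ((fun a : BF (L ^ t) => a x) ∘ Ab q L t h v) =
        fun ρ => decide (ρ = ρ0) := by
      funext ρ
      exact Ab_eq q L t h v ρ x
    rw [h1]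
    have h2 : ((univ.filter (fun ρ : Fin L → ZMod q => ∑ j, ρ j = r)).toList).countP
        (fun ρ => decide (ρ = ρ0)) =
        ((univ.filter (fun ρ : Fin L → ZMod q => ∑ j, ρ j = r)).toList).count ρ0 := by
      unfold List.count
      apply List.countP_congr
      intro ρ _
      simp
    rw [h2]
    by_cases h3 : ∑ j, ρ0 j = r
    · rw [if_pos h3]
      exact List.count_eq_one_of_mem (nodup_toList _)
        (mem_toList.2 (mem_filter.2 ⟨mem_univ _, h3⟩))
    · rw [if_neg h3]
      exact List.count_eq_zero_of_not_mem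
        (fun h => h3 (mem_filter.1 (mem_toList.1 h)).2)
  rw [hcount]
  unfold sb
  have h4 : (cnt L t (h + 1) v x : ZMod q) = ∑ j, ρ0 j := by
    rw [cnt_succ hL, Nat.cast_sum]
  rw [h4, Bool.eq_iff_iff, decide_eq_true_eq, decide_eq_true_eq]
  by_cases h3 : ∑ j, ρ0 j = r
  · rw [if_pos h3]
    refine ⟨fun _ h5 => ?_, fun _ => h3⟩
    have := Nat.le_of_dvd (by norm_num) h5
    omega
  · rw [if_neg h3]
    exact ⟨fun h5 => absurd h5 h3, fun h5 => absurd (dvd_zero m) h5⟩

private theorem cnt_zero {L t v : ℕ} (hv : v < L ^ t) (x : Fin (L ^ t) → Bool) :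
    cnt L t 0 v x = if x ⟨v, hv⟩ = true then 1 else 0 := by
  unfold cnt
  by_cases hx : x ⟨v, hv⟩ = true
  · rw [if_pos hx, card_eq_one]
    refine ⟨⟨v, hv⟩, ?_⟩
    ext i
    simp only [mem_filter, mem_univ, true_and, mem_singleton, pow_zero, Nat.div_one]
    constructor
    · rintro ⟨h1, _⟩
      exact Fin.ext h1
    · rintro rfl
      exact ⟨rfl, hx⟩
  · rw [if_neg hx, card_eq_zero, filter_eq_empty_iff]
    rintro i _ ⟨h1, h2⟩
    rw [pow_zero, Nat.div_one] at h1
    apply hx
    have : i = ⟨v, hv⟩ := Fin.ext h1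
    rw [← this]
    exact h2

private theorem main {m L : ℕ} (hm : 2 ≤ m) (hq : 2 ≤ q) (hL : 1 ≤ L) (t : ℕ) :
    ∀ h, h ≤ t → ∃ V : Finset (BF (L ^ t)), Ch m L (q ^ L) (2 * h + 1) V ∧
      V.card ≤ 3 * L ^ t + h * (2 * L ^ t * q ^ L) ∧
      ∀ v, v < L ^ (t - h) → ∀ r, sb q L t h v r ∈ V := by
  intro h
  have hN : 1 ≤ L ^ t := Nat.one_le_pow _ _ (by omega)
  induction h with
  | zero =>
    intro _
    set V0 : Finset (BF (L ^ t)) := univ.image (fun i : Fin (L ^ t) => fun x => x i) with hV0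
    set Y : Finset (BF (L ^ t)) := insert (gMod m [])
      (univ.image (fun i : Fin (L ^ t) => gNot (fun x => x i))) with hY
    have hV0var : ∀ a ∈ V0, IsVar a := by
      intro a ha
      obtain ⟨i, _, rfl⟩ := mem_image.1 ha
      exact ⟨i, rfl⟩
    have hYg : ∀ a ∈ Y, GB m L (q ^ L) V0 a := by
      intro a ha
      rcases mem_insert.1 ha with rfl | ha
      · exact Or.inr (Or.inr ⟨[], Nat.zero_le _, fun b hb => absurd hb List.not_mem_nil, rfl⟩)
      · obtain ⟨i, _, rfl⟩ := mem_image.1 ha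
        exact Or.inl ⟨_, mem_image.2 ⟨i, mem_univ _, rfl⟩, rfl⟩
    refine ⟨V0 ∪ Y, ch_step (ch_zero m L (q ^ L) V0 hV0var) hYg, ?_, ?_⟩
    · have c1 : V0.card ≤ L ^ t := by
        refine card_image_le.trans ?_
        rw [card_univ, Fintype.card_fin]
      have c2 : Y.card ≤ L ^ t + 1 := by
        refine (card_insert_le _ _).trans ?_
        refine Nat.add_le_add_right (card_image_le.trans ?_) 1
        rw [card_univ, Fintype.card_fin]
      have c3 := card_union_le V0 Y
      omega
    · intro v hv r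
      rw [Nat.sub_zero] at hv
      have h10 : (1 : ZMod q) ≠ 0 := by
        have : Fact (1 < q) := ⟨by omega⟩
        exact one_ne_zero
      by_cases hr1 : r = 1
      · refine mem_union_left _ (mem_image.2 ⟨⟨v, hv⟩, mem_univ _, ?_⟩)
        funext x
        unfold sb
        rw [cnt_zero hv, hr1]
        by_cases hx : x ⟨v, hv⟩ = true
        · rw [if_pos hx]
          simp [hx]
        · rw [if_neg hx]
          simp [hx, h10.symm]
      · by_cases hr0 : r = 0
        · refine mem_union_right _ (mem_insert_of_mem (mem_image.2 ⟨⟨v, hv⟩, mem_univ _, ?_⟩))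
          funext x
          unfold sb gNot
          rw [cnt_zero hv, hr0]
          by_cases hx : x ⟨v, hv⟩ = true
          · rw [if_pos hx]
            simp [hx, h10]
          · rw [if_neg hx]
            simp [hx]
        · refine mem_union_right _ (mem_insert.2 (Or.inl ?_))
          funext x
          unfold sb gMod
          rw [cnt_zero hv]
          by_cases hx : x ⟨v, hv⟩ = true
          · rw [if_pos hx]
            simp [Ne.symm hr1]
          · rw [if_neg hx]
            simp [Ne.symm hr0]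
  | succ h ih =>
    intro hht
    obtain ⟨V, hV, hc, hs⟩ := ih (by omega)
    have hpow : L * L ^ (t - (h + 1)) = L ^ (t - h) := by
      rw [← pow_succ']
      congr 1
      omega
    have hle : L ^ (t - (h + 1)) ≤ L ^ t := Nat.pow_le_pow_right (by omega) (by omega)
    set Y1 : Finset (BF (L ^ t)) := ((range (L ^ (t - (h + 1)))) ×ˢ
      (univ : Finset (Fin L → ZMod q))).image (fun p => Ab q L t h p.1 p.2) with hY1
    set Y2 : Finset (BF (L ^ t)) := ((range (L ^ (t - (h + 1)))) ×ˢ
      (univ : Finset (ZMod q))).image (fun p => sb q L t (h + 1) p.1 p.2) with hY2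
    have g1 : ∀ a ∈ Y1, GB m L (q ^ L) V a := by
      intro a ha
      obtain ⟨⟨v, ρ⟩, hp, rfl⟩ := mem_image.1 ha
      have hv := mem_range.1 (mem_product.1 hp).1
      refine Or.inr (Or.inl ⟨List.ofFn (fun j : Fin L => sb q L t h (L * v + j) (ρ j)), ?_, ?_,
        rfl⟩)
      · rw [List.length_ofFn]
      · intro b hb
        obtain ⟨j, rfl⟩ := List.mem_ofFn.1 hb
        apply hs
        have h1 : L * v + (j : ℕ) < L * (v + 1) := by
          have := j.2
          rw [Nat.mul_add, Nat.mul_one]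
          omega
        have h2 : L * (v + 1) ≤ L * L ^ (t - (h + 1)) := Nat.mul_le_mul_left L hv
        rw [hpow] at h2
        omega
    have g2 : ∀ a ∈ Y2, GB m L (q ^ L) (V ∪ Y1) a := by
      intro a ha
      obtain ⟨⟨v, r⟩, hp, rfl⟩ := mem_image.1 ha
      have hv := (mem_product.1 hp).1
      refine Or.inr (Or.inr ⟨((univ.filter (fun ρ : Fin L → ZMod q => ∑ j, ρ j = r)).toList).map
        (Ab q L t h v), ?_, ?_, sb_succ q hm hL t h v r⟩)
      · rw [List.length_map, length_toList]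
        refine (card_filter_le _ _).trans ?_
        rw [card_univ, Fintype.card_fun, ZMod.card, Fintype.card_fin]
      · intro b hb
        obtain ⟨ρ, _, rfl⟩ := List.mem_map.1 hb
        exact mem_union_right _ (mem_image.2 ⟨(v, ρ), mem_product.2 ⟨hv, mem_univ _⟩, rfl⟩)
    refine ⟨V ∪ Y1 ∪ Y2, ?_, ?_, ?_⟩
    · have h1 := ch_step (ch_step hV g1) g2
      have h2 : 2 * h + 1 + 1 + 1 = 2 * (h + 1) + 1 := by ring
      rwa [h2] at h1
    · have c1 : Y1.card ≤ L ^ t * q ^ L := by
        refine card_image_le.trans ?_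
        rw [card_product, card_range, card_univ, Fintype.card_fun, ZMod.card, Fintype.card_fin]
        exact Nat.mul_le_mul_right _ hle
      have c2 : Y2.card ≤ L ^ t * q ^ L := by
        refine card_image_le.trans ?_
        rw [card_product, card_range, card_univ, ZMod.card]
        exact Nat.mul_le_mul hle (Nat.le_self_pow (by omega) q)
      have c3 := card_union_le V Y1
      have c4 := card_union_le (V ∪ Y1) Y2
      have c5 : (h + 1) * (2 * L ^ t * q ^ L) =
          h * (2 * L ^ t * q ^ L) + (L ^ t * q ^ L + L ^ t * q ^ L) := by ring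
      rw [c5]
      omega
    · intro v hv r
      exact mem_union_right _ (mem_image.2 ⟨(v, r), mem_product.2
        ⟨mem_range.2 hv, mem_univ _⟩, rfl⟩)

end TreeCx

theorem treeC (m q L t : ℕ) (hm : 2 ≤ m) (hq : 2 ≤ q) (hL : 1 ≤ L) :
    BddC m L (q ^ L) (2 * t + 1) (4 * (t + 1) * L ^ t * q ^ L)
      (fun x : Fin (L ^ t) → Bool =>
        decide (q ∣ (Finset.univ.filter (fun i => x i = true)).card)) := by
  have hne : NeZero q := ⟨by omega⟩
  obtain ⟨V, ⟨W, h1, h2, h3, h4⟩, hc, hs⟩ := TreeCx.main q hm hq hL t t le_rfl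
  refine ⟨W, h1, h2, h3, ?_, ?_⟩
  · rw [h4]
    refine hc.trans ?_
    have hq1 : 1 ≤ q ^ L := Nat.one_le_pow _ _ (by omega)
    have e1 : 3 * L ^ t ≤ 4 * L ^ t * q ^ L := by
      calc 3 * L ^ t ≤ 4 * L ^ t * 1 := by omega
        _ ≤ 4 * L ^ t * q ^ L := Nat.mul_le_mul_left _ hq1
    have e2 : t * (2 * L ^ t * q ^ L) ≤ t * (4 * L ^ t * q ^ L) :=
      Nat.mul_le_mul_left _ (Nat.mul_le_mul_right _ (Nat.mul_le_mul_right _ (by norm_num)))
    calc 3 * L ^ t + t * (2 * L ^ t * q ^ L) ≤ 4 * L ^ t * q ^ L + t * (4 * L ^ t * q ^ L) :=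
          Nat.add_le_add e1 e2
      _ = 4 * (t + 1) * L ^ t * q ^ L := by ring
  · rw [h4]
    have h5 := hs 0 (by rw [Nat.sub_self, pow_zero]; norm_num) 0
    convert h5 using 1
    funext x
    unfold TreeCx.sb TreeCx.cnt
    have h6 : (univ.filter (fun i : Fin (L ^ t) => (i : ℕ) / L ^ t = 0 ∧ x i = true)) =
        univ.filter (fun i => x i = true) := by
      ext i
      simp only [mem_filter, mem_univ, true_and, Nat.div_eq_of_lt i.2]
    rw [h6, Bool.eq_iff_iff, decide_eq_true_eq, decide_eq_true_eq, ZMod.natCast_eq_zero_iff]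

end C78
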