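import Pool.Agent.C78.LStep

/-!
# C78/Upper: the cost calculus is simulated by `2-AC[m]` circuits
-/

namespace C78

open Finset

variable {n : ℕ}

theorem finish {m : ℕ} {W : ℕ → Finset (BF n)} {d X : ℕ} {g : BF n} (h : Bundle m W d X g) :
    ∃ W' : ℕ → Finset (BF n), IsChain m W' ∧
      (∀ e, (W' e).card ≤ (W e).card + X + 4 * 3 ^ (Nat.log 2 (n + 1) + 1)) ∧
      g ∈ W' (d + 3 * (Nat.log 2 (n + 1) + 1)) := by
  classical
  obtain ⟨W', c, hW', hWW', hcard, hc, herr⟩ := h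
  set h := Nat.log 2 (n + 1) + 1 with hh
  have h1 : pr (fun τ : Tr (Fin (16 * (n + 1))) h => ∃ x ∈ (Finset.univ : Finset (Fin n → Bool)),
      evB (fun i => c i x) h τ ≠ g x) < 1 := by
    refine lt_of_le_of_lt (pr_exists_le _ _) ?_
    have h2 : ∀ x ∈ (Finset.univ : Finset (Fin n → Bool)),
        pr (fun τ : Tr (Fin (16 * (n + 1))) h => evB (fun i => c i x) h τ ≠ g x) ≤
          (1 / 3) * (3 * (1 / 16)) ^ (2 ^ h) := by
      intro x _
      exact pr_tree (fun i => c i x) (g x) h (1 / 16) (pr_fin_le _ (herr x))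
    refine lt_of_le_of_lt (Finset.sum_le_card_nsmul _ _ _ h2) ?_
    rw [Finset.card_univ, nsmul_eq_mul]
    have h3 : (Fintype.card (Fin n → Bool) : ℝ) = 2 ^ n := by simp
    rw [h3]
    have h4 := num3 n
    rw [← hh] at h4
    have h5 : (3 * (1 / 16 : ℝ)) = 3 / 16 := by norm_num
    rw [h5]
    have h6 : (0 : ℝ) ≤ 2 ^ n * (3 / 16) ^ (2 ^ h) := by positivity
    nlinarith
  obtain ⟨τ, hτ⟩ := exists_of_pr_lt_one h1
  have hg : evT c h τ = g := by
    funext x
    by_contra hx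
    exact hτ ⟨x, Finset.mem_univ _, hx⟩
  obtain ⟨W2, hW2, hW2s, hW2n, hW2m⟩ := chain_ext hW' (loc_tree (m := m) (W' d) c hc h τ)
  refine ⟨W2, hW2, fun e => ?_, ?_⟩
  · have := hW2n e
    have := hcard e
    omega
  · rw [hg] at hW2m
    exact hW2m

theorem invAll {m p N : ℕ} (hm : m ≠ 0) [Fact p.Prime] (hpm : p ∣ m) {K : Type} [Field K]
    [Fintype K] [Algebra (ZMod p) K] (b : Module.Basis (Fin N) (ZMod p) K)
    {S Q D : ℕ} {P M L : ℕ → Finset (BF n)} (hC : IsCalc m S P M L)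
    (hcard : (P D ∪ M D ∪ L D).card ≤ S)
    (hS : 1 ≤ S) (hN : Nat.log 2 N + 3 ≤ 40 * lg S) (hQ1 : 9 * N + 8 ≤ Q)
    (hQ2 : 4 * 3 ^ (lg S + 4) ≤ Q) (hQ3 : (N * p) ^ 2 + 3 ≤ Q) (hQ4 : S + S * (N * p) ≤ Q)
    (hK : 1000 * S ≤ Fintype.card K) :
    ∀ j ≤ D, ∃ (W : ℕ → Finset (BF n)) (β : BF n → Fin (16 * (n + 1)) → BF n),
      IsChain m W ∧
      (∀ e, (W e).card ≤ S +
        j * (S * (16 * (n + 1) * (D * (Q * Q) + 110 + S * (108 * (S + 4) ^ 2))))) ∧
      (∀ i ≤ j, ∀ a ∈ L i, ∀ k, β a k ∈ W (40 * (i + 1))) ∧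
      (∀ a ∈ L j, ∀ x,
        16 * (Finset.univ.filter (fun k => β a k x ≠ a x)).card ≤ 16 * (n + 1)) ∧
      Nonempty (Seeds m b P M S j W (j * (Q * Q))) := by
  classical
  obtain ⟨hPm, hMm, hLm, hP0, hM0, hL0, hPs, hMs, hLs⟩ := hC
  have hPD : (P D).card ≤ S := (Finset.card_le_card
    (Finset.subset_union_left.trans Finset.subset_union_left)).trans hcard
  have hMD : (M D).card ≤ S := (Finset.card_le_card
    (Finset.subset_union_right.trans Finset.subset_union_left)).trans hcard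
  have hLD : (L D).card ≤ S := (Finset.card_le_card Finset.subset_union_right).trans hcard
  intro j
  induction j with
  | zero =>
    intro _
    refine ⟨fun _ => P 0, fun a _ => a, ⟨fun _ _ _ => subset_refl _, hP0,
      fun j a ha => Or.inl ha⟩, fun e => ?_, fun i hi a ha => ?_, fun a ha => ?_, ⟨?_⟩⟩
    · have h0 := (Finset.card_le_card (hPm (Nat.zero_le D))).trans hPD
      show (P 0).card ≤ _
      omega
    · have : i = 0 := by omega
      subst this
      rw [hL0] at ha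
      exact absurd ha (Finset.notMem_empty _)
    · rw [hL0] at ha
      exact absurd ha (Finset.notMem_empty _)
    · exact
        { Ω := Unit
          fin := inferInstance
          ne := inferInstance
          y := fun _ a => a
          z := fun _ _ _ => 0
          V := fun _ _ => P 0
          hV := fun _ => ⟨fun _ _ _ => subset_refl _, hP0, fun j a ha => Or.inl ha⟩
          hWV := fun _ _ => subset_refl _
          hE := fun _ _ => Nat.le_add_right _ _
          hy := fun _ i hi a ha => by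
            have : i = 0 := by omega
            subst this
            exact ha
          hz := fun _ i hi a ha => by
            have : i = 0 := by omega
            subst this
            rw [hM0] at ha
            exact absurd ha (Finset.notMem_empty _)
          hpr := fun x => by
            rw [pr_false_of]
            · positivity
            · intro _ h
              apply h
              refine ⟨fun a _ => rfl, fun a ha => ?_⟩
              rw [hM0] at ha
              exact absurd ha (Finset.notMem_empty _) }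
  | succ j ih =>
    intro hj
    obtain ⟨W, β, hW, hWn, hβ, herr, ⟨sd⟩⟩ := ih (by omega)
    have c1 : (P j).card ≤ S := (Finset.card_le_card (hPm (by omega : j ≤ D))).trans hPD
    have c2 : (M j).card ≤ S := (Finset.card_le_card (hMm (by omega : j ≤ D))).trans hMD
    have c3 : (P (j + 1)).card ≤ S := (Finset.card_le_card (hPm hj)).trans hPD
    have c4 : (M (j + 1)).card ≤ S := (Finset.card_le_card (hMm hj)).trans hMD
    have c5 : (L (j + 1)).card ≤ S := (Finset.card_le_card (hLm hj)).trans hLD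
    obtain ⟨W', β', hW', hWW', hWn', hβ', herr'⟩ := lStep hm hpm hLm sd hW β hβ herr hS c1 c2 c5
      (hLs j)
    obtain ⟨sd'⟩ := pmStep hm hpm b hPm hMm hLm sd hW' hWW' β'
      (fun i hi => hβ' i (by omega)) (fun a ha => herr' a (hLm (Nat.le_succ j) ha)) hS hN hQ1 hQ2
      hQ3 hQ4 hK c3 c4 (hPs j) (hMs j)
    refine ⟨W', β', hW', fun e => ?_, hβ', herr', ⟨?_⟩⟩
    · have e1 := hWn' e
      have e2 := hWn e
      have e3 : S * (16 * (n + 1) * (j * (Q * Q) + 110 + S * (108 * (S + 4) ^ 2))) ≤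
          S * (16 * (n + 1) * (D * (Q * Q) + 110 + S * (108 * (S + 4) ^ 2))) := by
        apply Nat.mul_le_mul_left
        apply Nat.mul_le_mul_left
        have : j * (Q * Q) ≤ D * (Q * Q) := Nat.mul_le_mul_right _ (by omega)
        omega
      rw [Nat.succ_mul]
      omega
    · have e4 : (j + 1) * (Q * Q) = j * (Q * Q) + Q * Q := Nat.succ_mul _ _
      rw [e4]
      exact sd'


theorem numFinal {T m n S D Q : ℕ} (hT : T = S + n + D + 2) (hS : 1 ≤ S)
    (hQ : Q = 1000 * m ^ 2 * (S + 15) ^ 2) :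
    S + D * (S * (16 * (n + 1) * (D * (Q * Q) + 110 + S * (108 * (S + 4) ^ 2)))) +
      16 * (n + 1) * (D * (Q * Q) + 110 + S * (108 * (S + 4) ^ 2)) +
      4 * 3 ^ (Nat.log 2 (n + 1) + 1) ≤ T ^ (4 * m + 119) := by
  have hT3 : 3 ≤ T := by omega
  have h1 : ∀ k, 1 ≤ T ^ k := fun k => Nat.one_le_pow _ _ (by omega)
  have h3 : ∀ k, 3 ^ k ≤ T ^ k := fun k => Nat.pow_le_pow_left hT3 k
  have mono : ∀ {a b : ℕ}, a ≤ b → T ^ a ≤ T ^ b := fun h => Nat.pow_le_pow_right (by omega) h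
  -- Q
  have hQT : Q ≤ T ^ (2 * m + 13) := by
    have e1 : S + 15 ≤ 8 * T := by omega
    have e2 : (S + 15) ^ 2 ≤ (8 * T) ^ 2 := Nat.pow_le_pow_left e1 2
    have e3 : m ^ 2 ≤ T ^ (2 * m) := by
      have : m ≤ T ^ m := by
        calc m ≤ 3 ^ m := (Nat.lt_pow_self (by norm_num)).le
          _ ≤ T ^ m := h3 m
      calc m ^ 2 ≤ (T ^ m) ^ 2 := Nat.pow_le_pow_left this 2
        _ = T ^ (2 * m) := by rw [← pow_mul, mul_comm]
    have e4 : 64000 ≤ T ^ 11 := le_trans (by norm_num) (h3 11)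
    calc Q = 1000 * m ^ 2 * (S + 15) ^ 2 := hQ
      _ ≤ 1000 * T ^ (2 * m) * (8 * T) ^ 2 := Nat.mul_le_mul (Nat.mul_le_mul_left _ e3) e2
      _ = 64000 * (T ^ (2 * m) * T ^ 2) := by ring
      _ ≤ T ^ 11 * (T ^ (2 * m) * T ^ 2) := Nat.mul_le_mul_right _ e4
      _ = T ^ (2 * m + 13) := by rw [← pow_add, ← pow_add]; congr 1; ring
  set q := 2 * m + 13 with hq
  have hQQ : Q * Q ≤ T ^ (2 * q) := by
    calc Q * Q ≤ T ^ q * T ^ q := Nat.mul_le_mul hQT hQT
      _ = T ^ (2 * q) := by rw [← pow_add]; congr 1; ring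
  have hD : D ≤ T := by omega
  have hn : n + 1 ≤ T := by omega
  have hST : S ≤ T := by omega
  have f1 : D * (Q * Q) ≤ T ^ (2 * q + 1) := by
    calc D * (Q * Q) ≤ T * T ^ (2 * q) := Nat.mul_le_mul hD hQQ
      _ = T ^ (2 * q + 1) := by rw [pow_succ, mul_comm]
  have f2 : 110 ≤ T ^ (2 * q + 1) := by
    calc 110 ≤ 3 ^ 5 := by norm_num
      _ ≤ T ^ 5 := h3 5
      _ ≤ _ := mono (by omega)
  have f3 : S * (108 * (S + 4) ^ 2) ≤ T ^ (2 * q + 1) := by
    have e1 : S + 4 ≤ T ^ 2 := by nlinarith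
    calc S * (108 * (S + 4) ^ 2) ≤ T * (T ^ 5 * (T ^ 2) ^ 2) :=
          Nat.mul_le_mul hST (Nat.mul_le_mul (le_trans (by norm_num) (h3 5))
            (Nat.pow_le_pow_left e1 2))
      _ = T ^ 10 := by ring
      _ ≤ _ := mono (by omega)
  have f4 : D * (Q * Q) + 110 + S * (108 * (S + 4) ^ 2) ≤ T ^ (2 * q + 2) := by
    calc D * (Q * Q) + 110 + S * (108 * (S + 4) ^ 2) ≤ 3 * T ^ (2 * q + 1) := by omega
      _ ≤ T * T ^ (2 * q + 1) := Nat.mul_le_mul_right _ hT3
      _ = T ^ (2 * q + 2) := by rw [← pow_succ']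
  have f5 : 16 * (n + 1) * (D * (Q * Q) + 110 + S * (108 * (S + 4) ^ 2)) ≤ T ^ (2 * q + 6) := by
    calc 16 * (n + 1) * (D * (Q * Q) + 110 + S * (108 * (S + 4) ^ 2)) ≤
          T ^ 3 * T * T ^ (2 * q + 2) :=
          Nat.mul_le_mul (Nat.mul_le_mul (le_trans (by norm_num) (h3 3)) hn) f4
      _ = T ^ (2 * q + 6) := by rw [← pow_succ, ← pow_add]; congr 1; ring
  have f6 : D * (S * (16 * (n + 1) * (D * (Q * Q) + 110 + S * (108 * (S + 4) ^ 2)))) ≤
      T ^ (2 * q + 8) := by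
    calc _ ≤ T * (T * T ^ (2 * q + 6)) := Nat.mul_le_mul hD (Nat.mul_le_mul hST f5)
      _ = T ^ (2 * q + 8) := by rw [← pow_succ', ← pow_succ']
  have f7 : 4 * 3 ^ (Nat.log 2 (n + 1) + 1) ≤ T ^ (2 * q + 8) := by
    have e1 : 3 ^ (Nat.log 2 (n + 1) + 1) ≤ (2 ^ (Nat.log 2 (n + 1) + 1)) ^ 2 := by
      rw [← pow_mul, mul_comm, pow_mul]
      exact Nat.pow_le_pow_left (by norm_num) _
    have e2 : 2 ^ (Nat.log 2 (n + 1) + 1) ≤ T ^ 2 := by
      have : 2 ^ Nat.log 2 (n + 1) ≤ n + 1 := Nat.pow_log_le_self 2 (by omega)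
      rw [pow_succ]
      nlinarith
    calc 4 * 3 ^ (Nat.log 2 (n + 1) + 1) ≤ T ^ 2 * (T ^ 2) ^ 2 :=
          Nat.mul_le_mul (le_trans (by norm_num) (h3 2)) (e1.trans (Nat.pow_le_pow_left e2 2))
      _ = T ^ 6 := by ring
      _ ≤ _ := mono (by omega)
  have f8 : S ≤ T ^ (2 * q + 8) := by
    calc S ≤ T ^ 1 := by rw [pow_one]; exact hST
      _ ≤ _ := mono (by omega)
  have f9 : T ^ (2 * q + 6) ≤ T ^ (2 * q + 8) := mono (by omega)
  calc _ ≤ 4 * T ^ (2 * q + 8) := by omega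
    _ ≤ T ^ 2 * T ^ (2 * q + 8) := Nat.mul_le_mul_right _ (le_trans (by norm_num) (h3 2))
    _ = T ^ (2 * q + 10) := by rw [← pow_add]; congr 1; ring
    _ ≤ _ := mono (by omega)

theorem upper (m : ℕ) (hm : 2 ≤ m) : ∃ C : ℕ, ∀ (n D S : ℕ) (g : BF n), Calc m D S g →
    AC2 m (C * (D + Nat.log 2 (n + 1) + 1)) ((S + n + D + 2) ^ C) g := by
  classical
  obtain ⟨p, hp, hpm⟩ := Nat.exists_prime_and_dvd (by omega : m ≠ 1)
  haveI : Fact p.Prime := ⟨hp⟩
  refine ⟨4 * m + 119, fun n D S g hg => ?_⟩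
  obtain ⟨P, M, L, hC, hcard, hgm⟩ := hg
  have hS : 1 ≤ S := le_trans (Finset.card_pos.2 ⟨g, hgm⟩) hcard
  have hm0 : m ≠ 0 := by omega
  have hp2 := hp.two_le
  have hpm' : p ≤ m := Nat.le_of_dvd (by omega) hpm
  -- the field
  set N0 := Nat.clog p (1000 * S) with hN0
  have hN0pos : N0 ≠ 0 := by
    have := Nat.clog_pos (b := p) (n := 1000 * S) (by omega) (by omega)
    omega
  have hN0a : 1000 * S ≤ p ^ N0 := Nat.le_pow_clog (by omega) _
  set ℓ := Nat.log 2 (S + 4) with hℓ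
  have hℓ2 : 2 ≤ ℓ := by
    rw [hℓ]
    have : Nat.log 2 4 = 2 := by norm_num
    calc 2 = Nat.log 2 4 := this.symm
      _ ≤ Nat.log 2 (S + 4) := Nat.log_mono_right (by omega)
  have hN0b : N0 ≤ ℓ + 11 := by
    have h1 : p ^ (N0 - 1) < 1000 * S := by
      have := Nat.pow_pred_clog_lt_self (b := p) (x := 1000 * S) (by omega) (by omega)
      simpa [hN0, Nat.pred_eq_sub_one] using this
    have h2 : 2 ^ (N0 - 1) ≤ p ^ (N0 - 1) := Nat.pow_le_pow_left hp2 _
    have h3 : S + 4 < 2 ^ (ℓ + 1) := Nat.lt_pow_succ_log_self (by norm_num) _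
    have h4 : 2 ^ (N0 - 1) < 2 ^ (ℓ + 11) := by
      calc 2 ^ (N0 - 1) < 1000 * S := lt_of_le_of_lt h2 h1
        _ ≤ 2 ^ 10 * 2 ^ (ℓ + 1) := Nat.mul_le_mul (by norm_num) (by omega)
        _ = 2 ^ (ℓ + 11) := by rw [← pow_add]; congr 1; ring
    have := (Nat.pow_lt_pow_iff_right (by norm_num : 1 < 2)).1 h4
    omega
  let K := GaloisField p N0
  letI : Fintype K := Fintype.ofFinite K
  have hKcard : Fintype.card K = p ^ N0 := by
    rw [← Nat.card_eq_fintype_card]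
    exact GaloisField.card p N0 hN0pos
  have hfin : Module.finrank (ZMod p) K = N0 := GaloisField.finrank p hN0pos
  let b := Module.finBasis (ZMod p) K
  set N := Module.finrank (ZMod p) K with hN
  have hN' : N = N0 := hfin
  have hlg : lg S = Nat.log 2 ℓ := rfl
  have hlg1 := lg_pos S
  have hℓS : ℓ ≤ S + 4 := Nat.log_le_self 2 _
  have h1 : Nat.log 2 N + 3 ≤ 40 * lg S := by
    have h2 : N ≤ 8 * ℓ := by omega
    have h3 : Nat.log 2 N ≤ Nat.log 2 (8 * ℓ) := Nat.log_mono_right h2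
    have h4 : Nat.log 2 (8 * ℓ) = Nat.log 2 ℓ + 3 := by
      have e : 8 * ℓ = ℓ * 2 * 2 * 2 := by ring
      rw [e, Nat.log_mul_base (by norm_num) (by omega), Nat.log_mul_base (by norm_num) (by omega),
        Nat.log_mul_base (by norm_num) (by omega)]
    omega
  set Q := 1000 * m ^ 2 * (S + 15) ^ 2 with hQ
  have hNS : N ≤ S + 15 := by omega
  have hm1 : 1 ≤ m ^ 2 := Nat.one_le_pow _ _ (by omega)
  have hbase : (S + 15) ^ 2 ≤ m ^ 2 * (S + 15) ^ 2 := Nat.le_mul_of_pos_left _ (by omega)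
  have hsq : S + 15 ≤ (S + 15) ^ 2 := Nat.le_self_pow (by norm_num) _
  have hQ' : Q = 1000 * (m ^ 2 * (S + 15) ^ 2) := by rw [hQ]; ring
  have q1 : 9 * N + 8 ≤ Q := by omega
  have q2 : 4 * 3 ^ (lg S + 4) ≤ Q := by
    have h5 := pow_lg_le S
    have h6 : (S + 4) ^ 2 ≤ (S + 15) ^ 2 := Nat.pow_le_pow_left (by omega) 2
    rw [pow_add]
    omega
  have hNp : N * p ≤ (S + 15) * m := Nat.mul_le_mul hNS hpm'
  have q3 : (N * p) ^ 2 + 3 ≤ Q := by
    have h5 : (N * p) ^ 2 ≤ ((S + 15) * m) ^ 2 := Nat.pow_le_pow_left hNp 2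
    have h6 : ((S + 15) * m) ^ 2 = m ^ 2 * (S + 15) ^ 2 := by ring
    omega
  have q4 : S + S * (N * p) ≤ Q := by
    have h5 : S * (N * p) ≤ (S + 15) * ((S + 15) * m) := Nat.mul_le_mul (by omega) hNp
    have h6 : (S + 15) * ((S + 15) * m) ≤ m ^ 2 * (S + 15) ^ 2 := by
      have : m ≤ m ^ 2 := Nat.le_self_pow (by norm_num) _
      calc (S + 15) * ((S + 15) * m) = m * (S + 15) ^ 2 := by ring
        _ ≤ _ := Nat.mul_le_mul_right _ this
    omega
  have hK1 : 1000 * S ≤ Fintype.card K := by rw [hKcard]; exact hN0a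
  obtain ⟨W, β, hW, hWn, hβ, herr, ⟨sd⟩⟩ := invAll hm0 hpm b hC hcard hS h1 q1 q2 q3 q4 hK1 D
    le_rfl
  have hPD : (P D).card ≤ S := (Finset.card_le_card
    (Finset.subset_union_left.trans Finset.subset_union_left)).trans hcard
  have hMD : (M D).card ≤ S := (Finset.card_le_card
    (Finset.subset_union_right.trans Finset.subset_union_left)).trans hcard
  have hb : Bundle m W (40 * (D + 2))
      (16 * (n + 1) * (D * (Q * Q) + 110 + S * (108 * (S + 4) ^ 2))) g := by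
    rcases Finset.mem_union.1 hgm with h | h
    · have h' := Finset.mem_union.1 h
      exact (bundle_PM hm0 hpm sd hW hS hPD hMD g h').mono (by omega)
        (Nat.mul_le_mul_left _ (by omega))
    · exact ⟨W, β g, hW, fun e => subset_refl _, fun e => Nat.le_add_right _ _,
        fun k => hW.1 (by omega : 40 * (D + 1) ≤ 40 * (D + 2)) (hβ D le_rfl g h k), herr g h⟩
  obtain ⟨W', hW', hW'n, hgW'⟩ := finish hb
  refine ⟨W', hW', ?_, hW'.1 ?_ hgW'⟩
  · refine le_trans (hW'n _) (le_trans ?_ (numFinal (T := S + n + D + 2) rfl hS hQ))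
    have := hWn ((4 * m + 119) * (D + Nat.log 2 (n + 1) + 1))
    omega
  · have h7 : 119 * (D + Nat.log 2 (n + 1) + 1) ≤ (4 * m + 119) * (D + Nat.log 2 (n + 1) + 1) :=
      Nat.mul_le_mul_right _ (by omega)
    omega

end C78
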